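import Pool.Agent.UniD.Defs
import Pool.Agent.Helper34.XTW.Switch

namespace Pool.Agent.UniD

open Finset Module Pool.Agent.Dichotomy

/-- The vectors supported in `R`. -/
private def AntiConc_W {V : Type*} [Fintype V] [DecidableEq V] (R : Finset V) :
    Submodule (ZMod 2) (V → ZMod 2) :=
  Submodule.span (ZMod 2) ((R.image fun v => (Pi.single v 1 : V → ZMod 2) :
    Finset (V → ZMod 2)) : Set (V → ZMod 2))

private theorem AntiConc_mem {V : Type*} [Fintype V] [DecidableEq V] {R : Finset V}
    {δ : V → ZMod 2} (h : ∀ v, v ∉ R → δ v = 0) : δ ∈ AntiConc_W R := by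
  have h1 : δ = ∑ v ∈ R, δ v • (Pi.single v 1 : V → ZMod 2) := by
    funext w
    rw [Finset.sum_apply]
    by_cases hw : w ∈ R
    · rw [Finset.sum_eq_single w]
      · simp
      · intro b _ hb
        simp [Ne.symm hb]
      · exact fun h' => absurd hw h'
    · rw [h w hw, Finset.sum_eq_zero]
      intro b hb
      have hbw : w ≠ b := fun h' => hw (h' ▸ hb)
      simp [hbw]
  rw [h1]
  exact Submodule.sum_mem _ fun v hv => Submodule.smul_mem _ _
    (Submodule.subset_span (mem_coe.mpr (mem_image_of_mem _ hv)))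

private theorem AntiConc_finrank {V : Type*} [Fintype V] [DecidableEq V] (R : Finset V) :
    finrank (ZMod 2) (AntiConc_W R) ≤ R.card :=
  (finrank_span_finset_le_card _).trans card_image_le

/-- **Anti-concentration.**  If the directions of the local moves of `T` span the space, a coset
of a subspace of large codimension contains only a small part of `T`. -/
theorem anticonc_gen {V : Type*} [Fintype V] [DecidableEq V] (T : Set (V → ZMod 2)) (r : ℕ)
    (hT : Submodule.span (ZMod 2) {δ | Move T r δ} = ⊤) (M : Submodule (ZMod 2) (V → ZMod 2))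
    (c : V → ZMod 2) (t : ℕ) (ht : t ≤ (Fintype.card V - finrank (ZMod 2) M) / r) :
    (({x | x ∈ T ∧ x + c ∈ M} : Set (V → ZMod 2)).ncard : ℝ) ≤
      (2 ^ r / (2 ^ r + 1)) ^ t * T.ncard := by
  classical
  induction t generalizing M with
  | zero =>
    rw [pow_zero, one_mul]
    have h0 : ({x | x ∈ T ∧ x + c ∈ M} : Set (V → ZMod 2)) ⊆ T := fun x hx => hx.1
    exact_mod_cast Set.ncard_le_ncard h0 (Set.toFinite _)
  | succ t ih =>
    have hr : 0 < r := by
      rcases Nat.eq_zero_or_pos r with rfl | h
      · rw [Nat.div_zero] at ht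
        omega
      · exact h
    have h1 : (t + 1) * r ≤ Fintype.card V - finrank (ZMod 2) M :=
      (Nat.le_div_iff_mul_le hr).mp ht
    have h1' : t * r + r ≤ Fintype.card V - finrank (ZMod 2) M := by
      rw [← Nat.succ_mul]
      exact h1
    obtain ⟨δ, hδ, hδM⟩ : ∃ δ, Move T r δ ∧ δ ∉ M := by
      by_contra hcon
      push Not at hcon
      have h2 : (⊤ : Submodule (ZMod 2) (V → ZMod 2)) ≤ M := by
        rw [← hT]
        exact Submodule.span_le.mpr fun δ hδ => hcon δ hδ
      have h3 : finrank (ZMod 2) M = Fintype.card V := by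
        rw [top_le_iff.mp h2, finrank_top, finrank_fintype_fun_eq_card]
      omega
    obtain ⟨R, hR, hsup, hmove⟩ := hδ
    set M' := M ⊔ AntiConc_W R with hM'
    have h4 : finrank (ZMod 2) M' ≤ finrank (ZMod 2) M + r :=
      (Submodule.finrank_add_le_finrank_add_finrank M (AntiConc_W R)).trans
        (Nat.add_le_add_left ((AntiConc_finrank R).trans hR) _)
    have h5 : t ≤ (Fintype.card V - finrank (ZMod 2) M') / r := by
      rw [Nat.le_div_iff_mul_le hr]
      omega
    have ih' := ih M' h5
    set B : Finset (V → ZMod 2) :=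
      ({x | x ∈ T ∧ x + c ∈ M'} : Set (V → ZMod 2)).toFinset with hB
    have hmem : ∀ x, x ∈ B ↔ x ∈ T ∧ x + c ∈ M' := by
      intro x
      rw [hB, Set.mem_toFinset]
      rfl
    have e1 : ({x | x ∈ T ∧ x + c ∈ M'} : Set (V → ZMod 2)).ncard = B.card := by
      rw [hB, Set.ncard_eq_toFinset_card']
    have e2 : ({x | x ∈ T ∧ x + c ∈ M} : Set (V → ZMod 2)).ncard =
        (B.filter fun z => z + c ∈ M).card := by
      rw [← Set.ncard_coe_finset]
      congr 1
      ext x
      simp only [coe_filter, hmem, Set.mem_ofPred_eq]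
      constructor
      · rintro ⟨hx, hxM⟩
        exact ⟨⟨hx, Submodule.mem_sup_left hxM⟩, hxM⟩
      · rintro ⟨⟨hx, -⟩, hxM⟩
        exact ⟨hx, hxM⟩
    have hstep := Helper34.XTW.switch_step B R (fun z => z + c ∈ M) r hR (by
      intro x hx
      rw [hmem] at hx
      obtain ⟨y, hyT, hyx, hyδ⟩ := hmove x hx.1
      have hyM' : y + c ∈ M' := by
        have h6 : y + c = (x + c) + (y - x) := by ring
        rw [h6]
        refine Submodule.add_mem _ hx.2 (Submodule.mem_sup_right (AntiConc_mem fun v hv => ?_))
        rw [Pi.sub_apply, hyx v hv, sub_self]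
      by_cases hg : y + c ∈ M
      · refine ⟨y + δ, ?_, ?_, ?_⟩
        · rw [hmem]
          refine ⟨hyδ, ?_⟩
          have h7 : y + δ + c = (y + c) + δ := by ring
          rw [h7]
          exact Submodule.add_mem _ hyM' (Submodule.mem_sup_right (AntiConc_mem hsup))
        · intro v hv
          rw [Pi.add_apply, hsup v hv, add_zero, hyx v hv]
        · intro h8
          apply hδM
          have h9 : δ = (y + δ + c) - (y + c) := by ring
          rw [h9]
          exact Submodule.sub_mem _ h8 hg
      · refine ⟨y, ?_, fun v hv => hyx v hv, hg⟩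
        rw [hmem]
        exact ⟨hyT, hyM'⟩)
    rw [e2, pow_succ', mul_assoc]
    refine hstep.trans (mul_le_mul_of_nonneg_left ?_ (by positivity))
    rw [← e1]
    exact ih'

end Pool.Agent.UniD
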