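import Pool.Agent.UniD.Defs
import Pool.Agent.Helper91.Dich.AntiConc

namespace Pool.Agent.UniD

open Finset Module Pool.Agent.Dichotomy

/-- A set `S` of vectors is determined by some of its coordinates through an affine map, such that
the restrictions of its elements to these coordinates span affinely the whole space. -/
theorem exists_basis_coords {k : ℕ} (S : Set (Fin k → ZMod 2)) (hS : S.Nonempty) :
    ∃ (b : ℕ) (ι : Fin b → Fin k) (a : Fin k → ZMod 2)
      (M : (Fin b → ZMod 2) →ₗ[ZMod 2] (Fin k → ZMod 2)), b ≤ k ∧ Function.Injective ι ∧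
      (∀ u l, M u (ι l) = u l) ∧ (∀ l, a (ι l) = 0) ∧
      (∀ s ∈ S, s = a + M (fun l => s (ι l))) ∧ Spans {u | ∃ s ∈ S, u = fun l => s (ι l)} := by
  classical
  have hchar : ∀ x : Fin k → ZMod 2, x + x = 0 := by
    intro x
    funext i
    exact CharTwo.add_self_eq_zero (x i)
  obtain ⟨s0, hs0⟩ := hS
  set D : Submodule (ZMod 2) (Fin k → ZMod 2) :=
    Submodule.span (ZMod 2) {d | ∃ s ∈ S, ∃ s' ∈ S, d = s + s'} with hD
  obtain ⟨F, hF, hinj⟩ := exists_info D
  let ι : Fin F.card → Fin k := fun l => (F.equivFin.symm l : Fin k)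
  have hι : Function.Injective ι := by
    intro x y h
    exact F.equivFin.symm.injective (Subtype.ext h)
  have hιF : ∀ i ∈ F, ∃ l, ι l = i := by
    intro i hi
    exact ⟨F.equivFin ⟨i, hi⟩, by simp [ι]⟩
  let R : (Fin k → ZMod 2) →ₗ[ZMod 2] (Fin F.card → ZMod 2) := LinearMap.funLeft _ _ ι
  have hR : ∀ x l, R x l = x (ι l) := fun x l => rfl
  let RD : D →ₗ[ZMod 2] (Fin F.card → ZMod 2) := R.domRestrict D
  have hRD : Function.Injective RD := by
    rw [← LinearMap.ker_eq_bot, LinearMap.ker_eq_bot']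
    intro z hz
    apply Subtype.ext
    refine hinj z z.2 fun i hi => ?_
    obtain ⟨l, rfl⟩ := hιF i hi
    exact congrFun hz l
  have hdim : finrank (ZMod 2) D = finrank (ZMod 2) (Fin F.card → ZMod 2) := by
    apply le_antisymm (LinearMap.finrank_le_finrank_of_injective hRD)
    rw [Module.finrank_fintype_fun_eq_card, Fintype.card_fin]
    exact hF
  let e : D ≃ₗ[ZMod 2] (Fin F.card → ZMod 2) := LinearEquiv.ofBijective RD
    ⟨hRD, (LinearMap.injective_iff_surjective_of_finrank_eq_finrank hdim).1 hRD⟩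
  let M : (Fin F.card → ZMod 2) →ₗ[ZMod 2] (Fin k → ZMod 2) :=
    D.subtype ∘ₗ (e.symm : (Fin F.card → ZMod 2) →ₗ[ZMod 2] D)
  have hM1 : ∀ u l, M u (ι l) = u l := by
    intro u l
    have h1 : e (e.symm u) = u := e.apply_symm_apply u
    have h2 : R ((e.symm u : D) : Fin k → ZMod 2) = u := h1
    have h3 := congrFun h2 l
    exact h3
  have hM2 : ∀ z ∈ D, M (R z) = z := by
    intro z hz
    have h1 : e.symm (e ⟨z, hz⟩) = ⟨z, hz⟩ := e.symm_apply_apply _
    have h2 : ((e.symm (e ⟨z, hz⟩) : D) : Fin k → ZMod 2) = z := by rw [h1]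
    exact h2
  refine ⟨F.card, ι, s0 + M (R s0), M, ?_, hι, hM1, ?_, ?_, ?_⟩
  · have := card_le_univ F
    rwa [Fintype.card_fin] at this
  · intro l
    rw [Pi.add_apply, hM1, hR]
    exact CharTwo.add_self_eq_zero _
  · intro s hs
    have h1 : s + s0 ∈ D := Submodule.subset_span ⟨s, hs, s0, hs0, rfl⟩
    have h2 := hM2 _ h1
    rw [map_add, map_add] at h2
    have h3 : (fun l => s (ι l)) = R s := rfl
    rw [h3]
    calc s = (s + s0) + s0 := by rw [add_assoc, hchar, add_zero]
      _ = M (R s) + M (R s0) + s0 := by rw [h2]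
      _ = s0 + M (R s0) + M (R s) := by abel
  · unfold Spans
    rw [eq_top_iff]
    have h1 : D.map R = ⊤ := by
      rw [eq_top_iff]
      intro u _
      refine ⟨(e.symm u : D), (e.symm u).2, ?_⟩
      have h1 : e (e.symm u) = u := e.apply_symm_apply u
      exact h1
    rw [← h1, hD, Submodule.map_span]
    refine Submodule.span_mono ?_
    rintro _ ⟨_, ⟨s, hs, s', hs', rfl⟩, rfl⟩
    exact ⟨R s, ⟨s, hs, rfl⟩, R s', ⟨s', hs', rfl⟩, map_add R s s'⟩

/-- Some instance over `Γ` with a nonempty set of solutions outside the class. -/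
theorem exists_nonempty_inst {L : RelD.RelClass} (hL : Minor L) {Γ : Language} {k : ℕ}
    (I0 : List (Constraint k)) (hI0 : Over Γ I0) (hS : Sol I0 ∉ L k) :
    ∃ (k' : ℕ) (I : List (Constraint k')), 1 ≤ k' ∧ Over Γ I ∧ (Sol I).Nonempty ∧
      Sol I ∉ L k' := by
  have hSolnil : ∀ n : ℕ, Sol ([] : List (Constraint n)) = Set.univ := by
    intro n
    ext x
    simp [Sol]
  have hOver : ∀ n : ℕ, Over Γ ([] : List (Constraint n)) := by
    intro n c hc
    exact absurd hc (by simp)
  rcases Set.eq_empty_or_nonempty (Sol I0) with h | h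
  · refine ⟨max k 1, [], le_max_right _ _, hOver _, ?_, ?_⟩
    · rw [hSolnil]
      exact Set.univ_nonempty
    · rw [hSolnil]
      intro hu
      apply hS
      rw [h]
      have hpos : 0 < max k 1 := lt_of_lt_of_le one_pos (le_max_right _ _)
      have h1 := hL.fix _ _ ⟨0, hpos⟩ 0 hu
      have h2 := hL.fix _ _ ⟨0, hpos⟩ 1 h1
      have h3 := hL.forget _ k _ (Fin.castLE (le_max_left k 1)) (Fin.castLE_injective _) h2
      have h4 : {x : Fin k → ZMod 2 | ∃ y ∈ {x : Fin (max k 1) → ZMod 2 |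
          x ∈ {x : Fin (max k 1) → ZMod 2 | x ∈ Set.univ ∧ x ⟨0, hpos⟩ = 0} ∧
            x ⟨0, hpos⟩ = 1}, x = fun i => y (Fin.castLE (le_max_left k 1) i)} = ∅ := by
        ext x
        simp only [Set.mem_ofPred_eq, Set.mem_empty_iff_false, iff_false, not_exists, not_and]
        rintro y ⟨⟨-, hy0⟩, hy1⟩
        rw [hy0] at hy1
        exact absurd hy1 (by decide)
      rwa [h4] at h3
  · rcases Nat.eq_zero_or_pos k with hk | hk
    · subst hk
      refine ⟨1, [], le_rfl, hOver _, ?_, ?_⟩
      · rw [hSolnil]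
        exact Set.univ_nonempty
      · rw [hSolnil]
        intro hu
        apply hS
        have h3 := hL.forget 1 0 _ (Fin.castLE (Nat.zero_le 1)) (Fin.castLE_injective _) hu
        have h4 : {x : Fin 0 → ZMod 2 | ∃ y ∈ (Set.univ : Set (Fin 1 → ZMod 2)),
            x = fun i => y (Fin.castLE (Nat.zero_le 1) i)} = Sol I0 := by
          obtain ⟨z, hz⟩ := h
          ext x
          constructor
          · intro _
            rw [Subsingleton.elim x z]
            exact hz
          · intro _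
            exact ⟨0, Set.mem_univ _, Subsingleton.elim _ _⟩
        rwa [h4] at h3
    · exact ⟨k, I0, hk, hI0, h, hS⟩

end Pool.Agent.UniD
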