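import Pool.Agent.UniD.Defs
import Pool.Agent.RelD.Inst0
import Mathlib.Combinatorics.SimpleGraph.Coloring.Vertex

/-!
A closed class that misses the vertex covers of one bipartite graph misses some solution set over
every relation that is not affine.
-/

namespace Pool.Agent.UniD

open Finset Pool.Agent.Dichotomy Pool.Agent.RelD

theorem exists_not_mem {L : RelClass} (hL : Minor L) {k : ℕ} (H : SimpleGraph (Fin k))
    (hcol : H.Colorable 2) (hH : VC H ∉ L k) {r : ℕ} {R : Set (Fin r → ZMod 2)}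
    (hR : ¬ IsAffine R) :
    ∃ (n : ℕ) (I : List (Constraint n)), (∀ c ∈ I, c.arity = r ∧ HEq c.rel R) ∧
      Sol I ∉ L n := by
  classical
  obtain ⟨C⟩ := hcol
  obtain ⟨i, j, hij, S, hiS, hjS, ρ, α, β, hmin⟩ := exists_minor hR
  have h2 : ∀ a b : Fin 2, a ≠ b → (a = 0 ∧ b ≠ 0) ∨ (b = 0 ∧ a ≠ 0) := by decide
  obtain ⟨I, z0, z1, emb, τ, _, hrel, hemb, _, hI⟩ := exists_instance2 H
    ((Finset.univ : Finset (Fin k × Fin k)).filter fun p => H.Adj p.1 p.2 ∧ C p.1 = 0)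
    (fun p hp => (Finset.mem_filter.1 hp).2.1)
    (by
      intro u v huv
      rcases h2 _ _ (C.valid huv) with h | h
      · left; exact Finset.mem_filter.2 ⟨Finset.mem_univ _, huv, h.1⟩
      · right; exact Finset.mem_filter.2 ⟨Finset.mem_univ _, huv.symm, h.1⟩)
    (fun u => decide (C u = 0))
    (by
      intro p hp
      obtain ⟨-, h1, h3⟩ := Finset.mem_filter.1 hp
      rcases h2 _ _ (C.valid h1) with h | h
      · exact ⟨decide_eq_true h.1, decide_eq_false h.2⟩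
      · exact absurd h3 h.2)
    hij hiS hjS (fun b => if b = true then α else β) (by simpa using hmin) _ le_rfl
  refine ⟨_, I, hrel, fun hcon => hH ?_⟩
  have h1 := hL.fix _ _ z1 1 (hL.fix _ _ z0 0 hcon)
  have h2 := hL.flip _ _ τ (hL.forget _ _ _ emb hemb h1)
  have h3 : {x : Fin k → ZMod 2 | x + τ ∈ {x : Fin k → ZMod 2 |
      ∃ y ∈ {x | x ∈ {x | x ∈ Sol I ∧ x z0 = 0} ∧ x z1 = 1}, x = fun i => y (emb i)}} =
      VC H := by
    ext x
    have h4 : x + τ + τ = x := by rw [add_assoc, pi_add_self, add_zero]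
    have h5 := hI (x + τ)
    rw [h4] at h5
    rw [← h5]
    constructor
    · rintro ⟨y, ⟨⟨hy, hy0⟩, hy1⟩, hyx⟩
      exact ⟨y, hy, hy0, hy1, fun u => congrFun hyx u⟩
    · rintro ⟨y, hy, hy0, hy1, hyx⟩
      exact ⟨y, ⟨⟨hy, hy0⟩, hy1⟩, funext hyx⟩
  rwa [h3] at h2

end Pool.Agent.UniD
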