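import Pool.Agent.UniD.Defs

/-!
The deterministic part for graphs that expand at all scales, with a general constant.
-/

namespace Pool.Agent.UniD

open Finset Module Pool.Agent.Dichotomy

set_option linter.unusedSectionVars false

variable {V : Type*} [Fintype V] [DecidableEq V]

theorem star_of_expK {κ : ℕ} (G : SimpleGraph V) (hG : ExpK κ G) (h2 : 2 ≤ Fintype.card V)
    (a : ℕ) : Star G Finset.univ a (a / (κ + 1)) := by
  classical
  intro F F' hF hF'
  rw [Finset.coe_univ, Set.inter_univ] at hF hF'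
  set S : Set V := {u | ∃ v, G.Adj u v ∧ ¬ ((u ∈ F ∧ u ∉ F') ∧ (v ∈ F ∧ v ∉ F')) ∧
      ¬ ((u ∈ F' ∧ u ∉ F) ∧ (v ∈ F' ∧ v ∉ F))} with hS
  let Sf : Finset V := univ.filter fun u => u ∈ S
  have memSf : ∀ u, u ∈ Sf ↔ u ∈ S := by intro u; simp [Sf]
  have hSc : S.ncard = Sf.card := by
    rw [← Set.ncard_coe_finset]; congr 1; ext u; rw [Finset.mem_coe, memSf]
  rw [hSc]
  have hFc : ∀ F : Set V, F.ncard = (univ.filter fun u => u ∈ F).card := by
    intro F
    rw [← Set.ncard_coe_finset]; congr 1; ext u; simp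
  have nbr : ∀ u : V, ∃ v, G.Adj u v := by
    intro u
    have h1 := hG {u} (by rw [card_singleton]; omega)
    rw [card_singleton] at h1
    have h3 : (bd G {u}).Nonempty := by
      rw [← card_pos]
      rcases Nat.eq_zero_or_pos (bd G {u}).card with h | h
      · rw [h, mul_zero] at h1
        omega
      · exact h
    obtain ⟨v, hv⟩ := h3
    obtain ⟨-, s, hs, hadj⟩ := mem_bd.1 hv
    rw [mem_singleton] at hs; subst hs
    exact ⟨v, hadj⟩
  have key : ∀ F F' : Set V, (∀ u, u ∈ F → u ∈ F' → u ∈ Sf) →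
      (∀ u v, G.Adj u v → (u ∈ F ∧ u ∉ F') → ¬ (v ∈ F ∧ v ∉ F') → v ∈ Sf) → a ≤ F.ncard →
      2 * (univ.filter fun u => u ∈ F ∧ u ∉ F').card ≤ Fintype.card V →
      a / (κ + 1) ≤ Sf.card := by
    intro F F' h1 h3 h4 h5
    have h6 := hG _ h5
    have h7 : bd G (univ.filter fun u => u ∈ F ∧ u ∉ F') ⊆ Sf := by
      intro v hv
      obtain ⟨hv1, s, hs, hadj⟩ := mem_bd.1 hv
      refine h3 s v hadj (mem_filter.1 hs).2 ?_
      intro hcon
      exact hv1 (mem_filter.2 ⟨mem_univ _, hcon⟩)
    have h8 := card_le_card h7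
    have h9 : (univ.filter fun u => u ∈ F) ⊆ (univ.filter fun u => u ∈ F ∧ u ∉ F') ∪ Sf := by
      intro u hu
      have huF := (mem_filter.1 hu).2
      by_cases hu' : u ∈ F'
      · exact mem_union_right _ (h1 u huF hu')
      · exact mem_union_left _ (mem_filter.2 ⟨mem_univ _, huF, hu'⟩)
    have h10 := (card_le_card h9).trans (card_union_le _ _)
    rw [hFc] at h4
    have h11 : κ * (bd G (univ.filter fun u => u ∈ F ∧ u ∉ F')).card ≤ κ * Sf.card :=
      Nat.mul_le_mul_left κ h8
    refine Nat.div_le_of_le_mul ?_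
    rw [Nat.add_mul, one_mul]
    omega
  have hboth : ∀ u, u ∈ F → u ∈ F' → u ∈ Sf := by
    intro u hu hu'
    obtain ⟨v, hv⟩ := nbr u
    exact (memSf u).2 ⟨v, hv, fun h => h.1.2 hu', fun h => h.1.2 hu⟩
  have hdisj : (univ.filter fun u => u ∈ F ∧ u ∉ F').card +
      (univ.filter fun u => u ∈ F' ∧ u ∉ F).card ≤ Fintype.card V := by
    rw [← card_union_of_disjoint]
    · exact card_le_univ _
    · rw [Finset.disjoint_left]
      intro u hu hu'
      exact (mem_filter.1 hu).2.2 (mem_filter.1 hu').2.1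
  rcases Nat.lt_or_ge (Fintype.card V) (2 * (univ.filter fun u => u ∈ F ∧ u ∉ F').card)
    with h | h
  · refine key F' F (fun u hu hu' => hboth u hu' hu) ?_ hF' (by omega)
    intro u v huv hu hv
    exact (memSf v).2 ⟨u, huv.symm, fun h' => hu.2 h'.2.1, fun h' => hv h'.1⟩
  · refine key F F' hboth ?_ hF h
    intro u v huv hu hv
    exact (memSf v).2 ⟨u, huv.symm, fun h' => hv h'.1, fun h' => hu.2 h'.2.1⟩

/-- **The deterministic part**, for graphs that expand at all scales. -/
theorem det_expK {κ : ℕ} (hκ : 1 ≤ κ) (G : SimpleGraph V) (hG : ExpK κ G)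
    (P Q : (V → ZMod 2) →ₗ[ZMod 2] (V → ZMod 2))
    (hPQ : ∀ z, P z + Q z = z)
    (hP : Fintype.card V ≤ 4 * finrank (ZMod 2) (LinearMap.range P))
    (hQ : Fintype.card V ≤ 4 * finrank (ZMod 2) (LinearMap.range Q)) (q : ℕ)
    (hq : 100 * κ * q ≤ Fintype.card V) (hn : 48 ≤ Fintype.card V) (T : Finset V)
    (h1 : Fintype.card V ≤ finrank (ZMod 2) ((ZT T).comap P) + q)
    (h2 : Fintype.card V ≤ finrank (ZMod 2) ((LT G T).comap Q) + q) : False := by
  classical
  obtain ⟨n, hcardV⟩ : ∃ n, Fintype.card V = n := ⟨_, rfl⟩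
  rw [hcardV] at hP hQ hq hn h1 h2
  obtain ⟨c, hc⟩ : ∃ c, κ * q = c := ⟨_, rfl⟩
  have hqc : q ≤ c := by
    rw [← hc]
    exact Nat.le_mul_of_pos_left q hκ
  rw [mul_assoc, hc] at hq
  have hκc : ∀ x : ℕ, x ≤ 2 * q → κ * x ≤ 2 * c := by
    intro x hx
    have h := Nat.mul_le_mul_left κ hx
    rw [← hc]
    linarith
  have hfin : finrank (ZMod 2) (V → ZMod 2) = n := by
    rw [Module.finrank_fintype_fun_eq_card, hcardV]
  set A : Finset V := univ \ T with hA
  have memA : ∀ s, s ∈ A ↔ s ∉ T := by intro s; simp [hA]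
  have hAT : A.card + T.card = n := by
    have := card_sdiff_add_card_eq_card (subset_univ T)
    rw [card_univ, hcardV] at this
    exact this
  -- step 1
  have s1 : finrank (ZMod 2) (LinearMap.range P) ≤ A.card + q := by
    have e1 := finrank_le_ker_add_map P ((ZT T).comap P)
    have e2 := LinearMap.finrank_range_add_finrank_ker P
    rw [hfin] at e2
    have e3 : finrank (ZMod 2) (((ZT T).comap P).map P) ≤ A.card := by
      apply finrank_le_of_determined
      intro z hz hzA
      have hz' : z ∈ ZT T := Submodule.map_comap_le P (ZT T) hz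
      funext i
      by_cases hi : i ∈ T
      · exact hz' i hi
      · exact hzA i ((memA i).2 hi)
    omega
  -- step 2
  set B : Finset V := T.filter fun t => ∃ s, s ∉ T ∧ G.Adj s t with hB
  have hBT : B ⊆ T := filter_subset _ _
  have s2 : B.card ≤ 2 * q := by
    have e1 := Submodule.finrank_sup_add_finrank_inf_eq ((ZT T).comap P) ((LT G T).comap Q)
    have e2 : finrank (ZMod 2) (((ZT T).comap P ⊔ (LT G T).comap Q : Submodule _ _)) ≤ n := by
      rw [← hfin]; exact Submodule.finrank_le _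
    have e3 : finrank (ZMod 2) (((ZT T).comap P ⊓ (LT G T).comap Q : Submodule _ _)) ≤
        (univ \ B).card := by
      apply finrank_le_of_determined
      rintro z ⟨hz1, hz2⟩ hz3
      funext i
      by_cases hi : i ∈ B
      · rw [← hPQ z, Pi.add_apply]
        obtain ⟨hiT, s, hs, hadj⟩ := mem_filter.1 hi
        have a1 : P z i = 0 := hz1 i hiT
        have a2 : Q z i = 0 := hz2.1 s i hadj hs hiT
        rw [a1, a2]; rfl
      · exact hz3 i (by simp [hi])
    have e4 := card_sdiff_add_card_eq_card (subset_univ B)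
    rw [card_univ, hcardV] at e4
    omega
  -- step 3: T is small
  have s3a : n < 2 * A.card := by
    by_contra hcon
    push Not at hcon
    have e1 := hG A (by rw [hcardV]; exact hcon)
    have e2 : bd G A ⊆ B := by
      intro t ht
      obtain ⟨ht1, s, hs, hadj⟩ := mem_bd.1 ht
      have htT : t ∈ T := by
        by_contra h; exact ht1 ((memA t).2 h)
      exact mem_filter.2 ⟨htT, s, (memA s).1 hs, hadj⟩
    have e3 := card_le_card e2
    have e4 := hκc _ (e3.trans s2)
    omega
  have s3 : T.card ≤ 2 * c + 2 * q := by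
    have e0 : (T \ B).card ≤ T.card := card_le_card sdiff_subset
    have e1 := hG (T \ B) (by rw [hcardV]; omega)
    have e2 : bd G (T \ B) ⊆ B := by
      intro t ht
      obtain ⟨ht1, s, hs, hadj⟩ := mem_bd.1 ht
      obtain ⟨hsT, hsB⟩ := mem_sdiff.1 hs
      by_cases htT : t ∈ T
      · by_contra htB
        exact ht1 (mem_sdiff.2 ⟨htT, htB⟩)
      · exfalso
        exact hsB (mem_filter.2 ⟨hsT, t, htT, hadj.symm⟩)
    have e3 := card_le_card e2
    have e4 : T.card ≤ (T \ B).card + B.card := by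
      have := le_card_sdiff B T
      omega
    have e5 := hκc _ (e3.trans s2)
    omega
  -- step 4: closed sets
  let Closed : Finset V → Prop := fun C => C ⊆ A ∧ ∀ s ∈ C, ∀ t ∈ A \ C, ¬ G.Adj s t
  have s4' : ∀ C, Closed C → 2 * C.card ≤ n → C.card ≤ 2 * c := by
    intro C hC hCn
    have e1 := hG C (by rw [hcardV]; exact hCn)
    have e2 : bd G C ⊆ B := by
      intro t ht
      obtain ⟨ht1, s, hs, hadj⟩ := mem_bd.1 ht
      have htT : t ∈ T := by
        by_contra h
        exact hC.2 s hs t (mem_sdiff.2 ⟨(memA t).2 h, ht1⟩) hadj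
      exact mem_filter.2 ⟨htT, s, (memA s).1 (hC.1 hs), hadj⟩
    have e3 := card_le_card e2
    have e4 := hκc _ (e3.trans s2)
    omega
  have s4 : ∀ C, Closed C → C.card ≤ 2 * c ∨ (A \ C).card ≤ 2 * c := by
    intro C hC
    rcases Nat.lt_or_ge n (2 * C.card) with h | h
    · right
      refine s4' _ ⟨sdiff_subset, ?_⟩ ?_
      · intro s hs t ht hadj
        rw [Finset.sdiff_sdiff_eq_self hC.1] at ht
        exact hC.2 t ht s hs hadj.symm
      · have := card_sdiff_add_card_eq_card hC.1
        omega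
    · left; exact s4' C hC h
  -- step 5: the largest small closed set
  obtain ⟨C0, hC0c, hC0s, hC0max⟩ : ∃ C0, Closed C0 ∧ C0.card ≤ 2 * c ∧
      ∀ C, Closed C → C.card ≤ 2 * c → C.card ≤ C0.card := by
    obtain ⟨F, hF⟩ : ∃ F : Finset (Finset V), ∀ C, C ∈ F ↔ Closed C ∧ C.card ≤ 2 * c :=
      ⟨univ.filter fun C => Closed C ∧ C.card ≤ 2 * c, by intro C; simp⟩
    have hne : F.Nonempty := ⟨∅, (hF _).2 ⟨⟨empty_subset _, by simp⟩, by simp⟩⟩
    obtain ⟨C0, hC0, hmax⟩ := exists_max_image F card hne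
    exact ⟨C0, ((hF _).1 hC0).1, ((hF _).1 hC0).2, fun C h h' => hmax C ((hF _).2 ⟨h, h'⟩)⟩
  have s5 : ∀ C, Closed C → C.card ≤ 2 * c → C ⊆ C0 := by
    intro C hC hCs
    have hU : Closed (C ∪ C0) := by
      refine ⟨union_subset hC.1 hC0c.1, ?_⟩
      intro s hs t ht
      rw [mem_sdiff, mem_union, not_or] at ht
      rcases mem_union.1 hs with h | h
      · exact hC.2 s h t (mem_sdiff.2 ⟨ht.1, ht.2.1⟩)
      · exact hC0c.2 s h t (mem_sdiff.2 ⟨ht.1, ht.2.2⟩)
    have hUc := card_union_le C C0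
    have hUs : (C ∪ C0).card ≤ 2 * c := by
      rcases s4 _ hU with h | h
      · exact h
      · exfalso
        have := card_sdiff_add_card_eq_card hU.1
        omega
    have h3 := hC0max _ hU hUs
    have h4 : C0 = C ∪ C0 := eq_of_subset_of_card_le subset_union_right h3
    rw [h4]; exact subset_union_left
  -- step 6
  have hA0 : (A \ C0).Nonempty := by
    rw [← card_pos]
    have := card_sdiff_add_card_eq_card hC0c.1
    omega
  obtain ⟨s0, hs0⟩ := hA0
  have s6 : finrank (ZMod 2) (LT G T) ≤ (insert s0 (T ∪ C0)).card := by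
    apply finrank_le_of_determined
    intro v hv hv0
    have hcl : ∀ c' : ZMod 2, Closed (A.filter fun s => v s = c') := by
      intro c'
      refine ⟨filter_subset _ _, ?_⟩
      intro s hs t ht hadj
      obtain ⟨hsA, hsc⟩ := mem_filter.1 hs
      obtain ⟨htA, htc⟩ := mem_sdiff.1 ht
      apply htc
      rw [mem_filter]
      refine ⟨htA, ?_⟩
      rw [← hsc]
      exact (hv.2 s t hadj ((memA s).1 hsA) ((memA t).1 htA)).symm
    have hs00 : v s0 = 0 := hv0 s0 (mem_insert_self _ _)
    have key : (A.filter fun s => v s = 1) ⊆ C0 := by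
      rcases s4 _ (hcl 1) with h | h
      · exact s5 _ (hcl 1) h
      · exfalso
        have h01 : ∀ a : ZMod 2, ¬ a = 1 ↔ a = 0 := by decide
        have e1 : A \ (A.filter fun s => v s = 1) = A.filter fun s => v s = 0 := by
          ext s
          simp only [mem_sdiff, mem_filter, not_and]
          constructor
          · rintro ⟨a, b⟩; exact ⟨a, (h01 _).1 (b a)⟩
          · rintro ⟨a, b⟩; exact ⟨a, fun _ => (h01 _).2 b⟩
        rw [e1] at h
        have := s5 _ (hcl 0) h
        exact (mem_sdiff.1 hs0).2 (this (mem_filter.2 ⟨(mem_sdiff.1 hs0).1, hs00⟩))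
    funext i
    have h01 : ∀ a : ZMod 2, a ≠ 0 → a = 1 := by decide
    by_cases hiT : i ∈ T
    · exact hv0 i (mem_insert_of_mem (mem_union_left _ hiT))
    · by_contra hne
      have hi1 : v i = 1 := h01 _ hne
      have := key (mem_filter.2 ⟨(memA i).2 hiT, hi1⟩)
      exact hne (hv0 i (mem_insert_of_mem (mem_union_right _ this)))
  have s6' : (insert s0 (T ∪ C0)).card ≤ T.card + C0.card + 1 :=
    (card_insert_le _ _).trans (Nat.succ_le_succ (card_union_le _ _))
  -- step 7
  have s7 : finrank (ZMod 2) (LinearMap.range Q) ≤ q + finrank (ZMod 2) (LT G T) := by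
    have e1 := finrank_le_ker_add_map Q ((LT G T).comap Q)
    have e2 := LinearMap.finrank_range_add_finrank_ker Q
    rw [hfin] at e2
    have e3 : finrank (ZMod 2) (((LT G T).comap Q).map Q) ≤ finrank (ZMod 2) (LT G T) :=
      Submodule.finrank_mono (Submodule.map_comap_le _ _)
    omega
  omega

end Pool.Agent.UniD
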