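import Pool.Agent.UniD.Defs
import Pool.Agent.Helper34.XTW.Switch

namespace Pool.Agent.UniD

open Finset Module Pool.Agent.Dichotomy

section aux

variable {V0 : Type*} {m b : ℕ}

open Classical in
/-- The vertices of the block `j`. -/
private noncomputable def mvBk [Fintype V0] (η : Fin m × Fin b → V0) (j : Fin m) :
    Finset (Vx V0 m b) :=
  ((Finset.univ : Finset (Fin b)).image fun l => (Sum.inr (j, l) : Vx V0 m b)) ∪
    ((Finset.univ : Finset (Fin b)).image fun l => (Sum.inl (η (j, l)) : Vx V0 m b))

private theorem mvBk_card [Fintype V0] (η : Fin m × Fin b → V0) (j : Fin m) :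
    (mvBk η j).card ≤ 2 * b := by
  classical
  unfold mvBk
  refine (Finset.card_union_le _ _).trans ?_
  have h1 := Finset.card_image_le (s := (Finset.univ : Finset (Fin b)))
    (f := fun l => (Sum.inr (j, l) : Vx V0 m b))
  have h2 := Finset.card_image_le (s := (Finset.univ : Finset (Fin b)))
    (f := fun l => (Sum.inl (η (j, l)) : Vx V0 m b))
  rw [Finset.card_univ, Fintype.card_fin] at h1 h2
  omega

private theorem mvBk_inr [Fintype V0] {η : Fin m × Fin b → V0} {j : Fin m} {p : Fin m × Fin b} :
    (Sum.inr p : Vx V0 m b) ∈ mvBk η j ↔ p.1 = j := by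
  classical
  unfold mvBk
  rw [Finset.mem_union, Finset.mem_image, Finset.mem_image]
  constructor
  · rintro (⟨l, -, h⟩ | ⟨l, -, h⟩)
    · rw [← Sum.inr.inj h]
    · cases h
  · rintro rfl
    exact Or.inl ⟨p.2, Finset.mem_univ _, rfl⟩

private theorem mvBk_inl [Fintype V0] {η : Fin m × Fin b → V0} {j : Fin m} {v : V0} :
    (Sum.inl v : Vx V0 m b) ∈ mvBk η j ↔ ∃ l, η (j, l) = v := by
  classical
  unfold mvBk
  rw [Finset.mem_union, Finset.mem_image, Finset.mem_image]
  constructor
  · rintro (⟨l, -, h⟩ | ⟨l, -, h⟩)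
    · cases h
    · exact ⟨l, Sum.inl.inj h⟩
  · rintro ⟨l, rfl⟩
    exact Or.inr ⟨l, Finset.mem_univ _, rfl⟩

/-- Raise the values of some vertices of the base graph to `1`. -/
private theorem mv_raise {G : SimpleGraph V0} {η : Fin m × Fin b → V0}
    {S0 : Fin m → Set (Fin b → ZMod 2)} {x y : Vx V0 m b → ZMod 2} (hx : x ∈ Tgt G η S0)
    (h1 : ∀ v, y (Sum.inl v) = 1 ∨ y (Sum.inl v) = x (Sum.inl v))
    (h2 : ∀ p, y (Sum.inr p) = x (Sum.inr p) ∨ y (Sum.inl (η p)) = 1)
    (h3 : ∀ j, blk j y ∈ S0 j) : y ∈ Tgt G η S0 := by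
  have key : ∀ u w, (Pend G η).Adj u w → x u = 1 ∨ x w = 1 := fun u w h => hx.1 u w h
  have hp : ∀ p, y (Sum.inl (η p)) = 1 ∨ y (Sum.inr p) = 1 := by
    intro p
    rcases h2 p with h | h
    · rcases key _ _ (Or.inr (Or.inl ⟨p, rfl, rfl⟩)) with h4 | h4
      · rcases h1 (η p) with h5 | h5
        · exact Or.inl h5
        · exact Or.inl (h5.trans h4)
      · exact Or.inr (h.trans h4)
    · exact Or.inl h
  refine ⟨?_, h3⟩
  rintro u w (⟨a, c, rfl, rfl, h⟩ | ⟨p, rfl, rfl⟩ | ⟨p, rfl, rfl⟩)
  · rcases key _ _ (Or.inl ⟨a, c, rfl, rfl, h⟩) with h4 | h4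
    · rcases h1 a with h5 | h5
      · exact Or.inl h5
      · exact Or.inl (h5.trans h4)
    · rcases h1 c with h5 | h5
      · exact Or.inr h5
      · exact Or.inr (h5.trans h4)
  · exact hp p
  · exact (hp p).symm

open Classical in
/-- Replace the values of the block `j`, the hubs become `1`. -/
private noncomputable def mvUpd (η : Fin m × Fin b → V0) (j : Fin m) (s : Fin b → ZMod 2)
    (x : Vx V0 m b → ZMod 2) : Vx V0 m b → ZMod 2 :=
  Sum.elim (fun v => if ∃ l, η (j, l) = v then 1 else x (Sum.inl v))
    (fun p => if p.1 = j then s p.2 else x (Sum.inr p))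

private theorem mvUpd_mem {G : SimpleGraph V0} {η : Fin m × Fin b → V0}
    {S0 : Fin m → Set (Fin b → ZMod 2)} {x : Vx V0 m b → ZMod 2} (hx : x ∈ Tgt G η S0)
    {j : Fin m} {s : Fin b → ZMod 2} (hs : s ∈ S0 j) : mvUpd η j s x ∈ Tgt G η S0 := by
  classical
  refine mv_raise hx ?_ ?_ ?_
  · intro v
    unfold mvUpd
    rw [Sum.elim_inl]
    split_ifs
    · exact Or.inl rfl
    · exact Or.inr rfl
  · intro p
    by_cases hp : p.1 = j
    · right
      unfold mvUpd
      rw [Sum.elim_inl, if_pos ⟨p.2, by rw [← hp]⟩]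
    · left
      unfold mvUpd
      rw [Sum.elim_inr, if_neg hp]
  · intro j'
    by_cases hj : j' = j
    · subst hj
      have : blk j' (mvUpd η j' s x) = s := by
        funext l
        unfold blk mvUpd
        rw [Sum.elim_inr, if_pos rfl]
      rw [this]
      exact hs
    · have : blk j' (mvUpd η j s x) = blk j' x := by
        funext l
        unfold blk mvUpd
        rw [Sum.elim_inr, if_neg hj]
      rw [this]
      exact hx.2 j'

private theorem mvUpd_blk {η : Fin m × Fin b → V0} {j : Fin m} {s : Fin b → ZMod 2}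
    {x : Vx V0 m b → ZMod 2} : blk j (mvUpd η j s x) = s := by
  classical
  funext l
  unfold blk mvUpd
  rw [Sum.elim_inr, if_pos rfl]

private theorem mvUpd_off [Fintype V0] {η : Fin m × Fin b → V0} {j : Fin m} {s : Fin b → ZMod 2}
    {x : Vx V0 m b → ZMod 2} {v : Vx V0 m b} (hv : v ∉ mvBk η j) : mvUpd η j s x v = x v := by
  classical
  rcases v with v | p
  · rw [mvBk_inl] at hv
    unfold mvUpd
    rw [Sum.elim_inl, if_neg hv]
  · rw [mvBk_inr] at hv
    unfold mvUpd
    rw [Sum.elim_inr, if_neg hv]

private theorem mvUpd_one {η : Fin m × Fin b → V0} {j : Fin m} {s : Fin b → ZMod 2}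
    {x : Vx V0 m b → ZMod 2} {v : V0} (hv : x (Sum.inl v) = 1) :
    mvUpd η j s x (Sum.inl v) = 1 := by
  classical
  unfold mvUpd
  rw [Sum.elim_inl]
  split_ifs
  · rfl
  · exact hv

/-- The value of a vertex of the base graph is free if all its neighbours are `1`. -/
private theorem mv_free [DecidableEq V0] {G : SimpleGraph V0} {η : Fin m × Fin b → V0}
    {S0 : Fin m → Set (Fin b → ZMod 2)} {x : Vx V0 m b → ZMod 2} (hx : x ∈ Tgt G η S0)
    {v : V0} (h : ∀ w, (Pend G η).Adj (Sum.inl v) w → x w = 1) (t : ZMod 2) :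
    Function.update x (Sum.inl v) t ∈ Tgt G η S0 := by
  have key : ∀ u w, (Pend G η).Adj u w → x u = 1 ∨ x w = 1 := fun u w h => hx.1 u w h
  refine ⟨?_, ?_⟩
  · intro u w huw
    by_cases hu : u = Sum.inl v
    · subst hu
      right
      rw [Function.update_of_ne huw.ne']
      exact h w huw
    · by_cases hw : w = Sum.inl v
      · subst hw
        left
        rw [Function.update_of_ne hu]
        exact h u huw.symm
      · rw [Function.update_of_ne hu, Function.update_of_ne hw]
        exact key u w huw
  · intro j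
    have : blk j (Function.update x (Sum.inl v) t) = blk j x := by
      funext l
      unfold blk
      rw [Function.update_of_ne (by simp)]
    rw [this]
    exact hx.2 j

/-- Some element of a spanning relation has the value `1` at `l`. -/
private theorem mv_one {S : Set (Fin b → ZMod 2)} (hS : Spans S) (l : Fin b) :
    ∃ s ∈ S, s l = 1 := by
  by_contra hcon
  push Not at hcon
  have h0 : ∀ s ∈ S, s l = 0 := by
    intro s hs
    have h1 := hcon s hs
    generalize s l = t at h1
    revert h1
    revert t
    decide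
  have h1 : Submodule.span (ZMod 2) {d | ∃ s ∈ S, ∃ s' ∈ S, d = s + s'} ≤
      LinearMap.ker (LinearMap.proj l : (Fin b → ZMod 2) →ₗ[ZMod 2] ZMod 2) := by
    rw [Submodule.span_le]
    rintro _ ⟨s, hs, s', hs', rfl⟩
    rw [SetLike.mem_coe, LinearMap.mem_ker, LinearMap.proj_apply, Pi.add_apply, h0 s hs, h0 s' hs',
      add_zero]
  have h2 : Submodule.span (ZMod 2) {d | ∃ s ∈ S, ∃ s' ∈ S, d = s + s'} = ⊤ := hS
  rw [h2] at h1
  have h3 : (Pi.single l 1 : Fin b → ZMod 2) ∈
      LinearMap.ker (LinearMap.proj l : (Fin b → ZMod 2) →ₗ[ZMod 2] ZMod 2) :=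
    h1 Submodule.mem_top
  rw [LinearMap.mem_ker, LinearMap.proj_apply, Pi.single_eq_same] at h3
  exact one_ne_zero h3

/-- The inclusion of the assignments of a block. -/
private def mvInc (j : Fin m) : (Fin b → ZMod 2) →ₗ[ZMod 2] (Vx V0 m b → ZMod 2) where
  toFun d := Sum.elim (fun _ => 0) (fun p => if p.1 = j then d p.2 else 0)
  map_add' d d' := by
    funext v
    rcases v with v | p
    · simp
    · by_cases hp : p.1 = j
      · simp [hp]
      · simp [hp]
  map_smul' c d := by
    funext v
    rcases v with v | p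
    · simp
    · by_cases hp : p.1 = j
      · simp [hp]
      · simp [hp]

end aux

/-- The directions of the local moves of the target span the space. -/
theorem tgt_moves {V0 : Type*} [Fintype V0] [DecidableEq V0] {m b D : ℕ} (G : SimpleGraph V0)
    (hD : ∀ v, (G.neighborSet v).ncard ≤ D)
    (col : V0 → Bool) (hcol : ∀ u v, G.Adj u v → col u ≠ col v) (η : Fin m × Fin b → V0)
    (hη : Function.Injective η) (hηc : ∀ p, col (η p) = false)
    (S0 : Fin m → Set (Fin b → ZMod 2)) (hne : ∀ j, (S0 j).Nonempty) (hS0 : ∀ j, Spans (S0 j)) :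
    Submodule.span (ZMod 2) {δ | Move (Tgt G η S0) (D + 2 * b + 2) δ} = ⊤ := by
  classical
  rw [eq_top_iff, ← (Pi.basisFun (ZMod 2) (Vx V0 m b)).span_eq, Submodule.span_le]
  rintro _ ⟨v, rfl⟩
  rw [Pi.basisFun_apply, SetLike.mem_coe]
  rcases v with v | ⟨j, l⟩
  · -- a vertex of the base graph
    refine Submodule.subset_span ?_
    by_cases hv : ∃ p, η p = v
    · obtain ⟨⟨j, l⟩, hp⟩ := hv
      obtain ⟨s, hs, hsl⟩ := mv_one (hS0 j) l
      refine ⟨insert (Sum.inl v) (((Set.toFinite (G.neighborSet v)).toFinset.image Sum.inl) ∪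
        mvBk η j), ?_, ?_, ?_⟩
      · refine (Finset.card_insert_le _ _).trans ?_
        have h1 := Finset.card_union_le
          ((Set.toFinite (G.neighborSet v)).toFinset.image (Sum.inl : V0 → Vx V0 m b)) (mvBk η j)
        have h2 := Finset.card_image_le (s := (Set.toFinite (G.neighborSet v)).toFinset)
          (f := (Sum.inl : V0 → Vx V0 m b))
        have h3 := hD v
        rw [Set.ncard_eq_toFinset_card _ (Set.toFinite _)] at h3
        have h4 := mvBk_card η j
        omega
      · intro w hw
        rw [Finset.mem_insert, not_or] at hw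
        exact Pi.single_eq_of_ne hw.1 _
      · intro x hx
        set x₁ : Vx V0 m b → ZMod 2 := Sum.elim (fun a => if G.Adj v a then 1 else x (Sum.inl a))
          (fun p => x (Sum.inr p)) with hx₁
        have hx₁m : x₁ ∈ Tgt G η S0 := by
          refine mv_raise hx ?_ (fun p => Or.inl rfl) (fun j => hx.2 j)
          intro a
          rw [hx₁, Sum.elim_inl]
          split_ifs
          · exact Or.inl rfl
          · exact Or.inr rfl
        have hx₂m := mvUpd_mem hx₁m hs
        set x₂ := mvUpd η j s x₁ with hx₂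
        have hfree : ∀ w, (Pend G η).Adj (Sum.inl v) w → x₂ w = 1 := by
          rintro w (⟨a, c, ha, rfl, h⟩ | ⟨p, ha, rfl⟩ | ⟨p, rfl, ha⟩)
          · obtain rfl := Sum.inl.inj ha
            refine mvUpd_one ?_
            rw [hx₁, Sum.elim_inl, if_pos h]
          · have h1 : η p = η (j, l) := by
              rw [hp]
              exact (Sum.inl.inj ha).symm
            obtain rfl := hη h1
            have h2 : blk j x₂ = s := mvUpd_blk
            calc x₂ (Sum.inr (j, l)) = blk j x₂ l := rfl
              _ = 1 := by rw [h2, hsl]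
          · cases ha
        refine ⟨Function.update x₂ (Sum.inl v) 0, mv_free hx₂m hfree 0, ?_, ?_⟩
        · intro w hw
          rw [Finset.mem_insert, Finset.mem_union, not_or, not_or] at hw
          rw [Function.update_of_ne hw.1, hx₂, mvUpd_off hw.2.2, hx₁]
          rcases w with w | p
          · rw [Sum.elim_inl, if_neg]
            intro h
            refine hw.2.1 (Finset.mem_image_of_mem _ ?_)
            rw [Set.Finite.mem_toFinset]
            exact h
          · rfl
        · have h1 : Function.update x₂ (Sum.inl v) 0 + Pi.single (Sum.inl v) 1 =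
              Function.update x₂ (Sum.inl v) 1 := by
            funext w
            by_cases hw : w = Sum.inl v
            · subst hw
              simp
            · rw [Pi.add_apply, Function.update_of_ne hw, Function.update_of_ne hw,
                Pi.single_eq_of_ne hw, add_zero]
          rw [h1]
          exact mv_free hx₂m hfree 1
    · refine ⟨insert (Sum.inl v) ((Set.toFinite (G.neighborSet v)).toFinset.image Sum.inl),
        ?_, ?_, ?_⟩
      · refine (Finset.card_insert_le _ _).trans ?_
        have h2 := Finset.card_image_le (s := (Set.toFinite (G.neighborSet v)).toFinset)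
          (f := (Sum.inl : V0 → Vx V0 m b))
        have h3 := hD v
        rw [Set.ncard_eq_toFinset_card _ (Set.toFinite _)] at h3
        omega
      · intro w hw
        rw [Finset.mem_insert, not_or] at hw
        exact Pi.single_eq_of_ne hw.1 _
      · intro x hx
        set x₁ : Vx V0 m b → ZMod 2 := Sum.elim (fun a => if G.Adj v a then 1 else x (Sum.inl a))
          (fun p => x (Sum.inr p)) with hx₁
        have hx₁m : x₁ ∈ Tgt G η S0 := by
          refine mv_raise hx ?_ (fun p => Or.inl rfl) (fun j => hx.2 j)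
          intro a
          rw [hx₁, Sum.elim_inl]
          split_ifs
          · exact Or.inl rfl
          · exact Or.inr rfl
        have hfree : ∀ w, (Pend G η).Adj (Sum.inl v) w → x₁ w = 1 := by
          rintro w (⟨a, c, ha, rfl, h⟩ | ⟨p, ha, rfl⟩ | ⟨p, rfl, ha⟩)
          · obtain rfl := Sum.inl.inj ha
            rw [hx₁, Sum.elim_inl, if_pos h]
          · exact absurd ⟨p, (Sum.inl.inj ha).symm⟩ hv
          · cases ha
        refine ⟨Function.update x₁ (Sum.inl v) 0, mv_free hx₁m hfree 0, ?_, ?_⟩
        · intro w hw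
          rw [Finset.mem_insert, not_or] at hw
          rw [Function.update_of_ne hw.1, hx₁]
          rcases w with w | p
          · rw [Sum.elim_inl, if_neg]
            intro h
            refine hw.2 (Finset.mem_image_of_mem _ ?_)
            rw [Set.Finite.mem_toFinset]
            exact h
          · rfl
        · have h1 : Function.update x₁ (Sum.inl v) 0 + Pi.single (Sum.inl v) 1 =
              Function.update x₁ (Sum.inl v) 1 := by
            funext w
            by_cases hw : w = Sum.inl v
            · subst hw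
              simp
            · rw [Pi.add_apply, Function.update_of_ne hw, Function.update_of_ne hw,
                Pi.single_eq_of_ne hw, add_zero]
          rw [h1]
          exact mv_free hx₁m hfree 1
  · -- a variable
    have h1 : ∀ d ∈ {d : Fin b → ZMod 2 | ∃ s ∈ S0 j, ∃ s' ∈ S0 j, d = s + s'},
        mvInc j d ∈ {δ | Move (Tgt G η S0) (D + 2 * b + 2) δ} := by
      rintro _ ⟨s, hs, s', hs', rfl⟩
      refine ⟨mvBk η j, (mvBk_card η j).trans (by omega), ?_, ?_⟩
      · intro w hw
        rcases w with w | p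
        · rfl
        · rw [mvBk_inr] at hw
          show (if p.1 = j then (s + s') p.2 else 0) = 0
          rw [if_neg hw]
      · intro x hx
        refine ⟨mvUpd η j s x, mvUpd_mem hx hs, fun w hw => mvUpd_off hw, ?_⟩
        have h2 : mvUpd η j s x + mvInc j (s + s') = mvUpd η j s' x := by
          funext w
          rw [Pi.add_apply]
          rcases w with w | p
          · show mvUpd η j s x (Sum.inl w) + 0 = mvUpd η j s' x (Sum.inl w)
            rw [add_zero]
            rfl
          · show mvUpd η j s x (Sum.inr p) + (if p.1 = j then (s + s') p.2 else 0) =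
              mvUpd η j s' x (Sum.inr p)
            unfold mvUpd
            rw [Sum.elim_inr, Sum.elim_inr]
            by_cases hp : p.1 = j
            · rw [if_pos hp, if_pos hp, if_pos hp, Pi.add_apply, ← add_assoc,
                CharTwo.add_self_eq_zero, zero_add]
            · rw [if_neg hp, if_neg hp, if_neg hp, add_zero]
        rw [h2]
        exact mvUpd_mem hx hs'
    have h2 : Submodule.map (mvInc j)
        (Submodule.span (ZMod 2) {d : Fin b → ZMod 2 | ∃ s ∈ S0 j, ∃ s' ∈ S0 j, d = s + s'}) ≤
        Submodule.span (ZMod 2) {δ | Move (Tgt G η S0) (D + 2 * b + 2) δ} := by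
      rw [Submodule.map_span]
      refine Submodule.span_mono ?_
      rintro _ ⟨d, hd, rfl⟩
      exact h1 d hd
    have h3 : Submodule.span (ZMod 2)
        {d : Fin b → ZMod 2 | ∃ s ∈ S0 j, ∃ s' ∈ S0 j, d = s + s'} = ⊤ := hS0 j
    rw [h3] at h2
    have h4 : (Pi.single (Sum.inr (j, l)) 1 : Vx V0 m b → ZMod 2) =
        mvInc j (Pi.single l 1) := by
      funext w
      rcases w with w | p
      · show _ = (0 : ZMod 2)
        exact Pi.single_eq_of_ne (by simp) _
      · show _ = (if p.1 = j then (Pi.single l 1 : Fin b → ZMod 2) p.2 else 0)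
        by_cases hp : p = (j, l)
        · subst hp
          simp
        · have h5 : (Sum.inr p : Vx V0 m b) ≠ Sum.inr (j, l) := fun h => hp (Sum.inr.inj h)
          rw [Pi.single_eq_of_ne h5]
          by_cases h6 : p.1 = j
          · rw [if_pos h6, Pi.single_eq_of_ne]
            intro h7
            exact hp (Prod.ext h6 h7)
          · rw [if_neg h6]
    rw [h4]
    exact h2 (Submodule.mem_map_of_mem Submodule.mem_top)

/-- A subset of the target which misses an element of the relation in every block is small. -/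
theorem tgt_leaf {V0 : Type*} [Fintype V0] [DecidableEq V0] {m b : ℕ} (G : SimpleGraph V0)
    (col : V0 → Bool) (hcol : ∀ u v, G.Adj u v → col u ≠ col v) (η : Fin m × Fin b → V0)
    (hη : Function.Injective η) (hηc : ∀ p, col (η p) = false)
    (S0 : Fin m → Set (Fin b → ZMod 2)) (X : Set (Vx V0 m b → ZMod 2)) (hX : X ⊆ Tgt G η S0)
    (hmiss : ∀ j, ∃ s ∈ S0 j, ∀ x ∈ X, blk j x ≠ s) :
    (X.ncard : ℝ) ≤ (2 ^ (2 * b) / (2 ^ (2 * b) + 1)) ^ m * ((Tgt G η S0).ncard : ℝ) := by
  classical
  choose s hs hsT using hmiss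
  have hsw := Pool.Agent.Helper34.XTW.switch (Tgt G η S0) (Finset.univ : Finset (Fin m))
    (fun j => (Finset.univ : Finset (Fin b)).image fun l => (Sum.inr (j, l) : Vx V0 m b))
    (fun j => mvBk η j)
    (fun j x => blk j x ≠ s j) (2 * b) ?_ ?_ ?_ ?_
  · rw [Finset.card_univ, Fintype.card_fin] at hsw
    refine le_trans ?_ hsw
    have hsub : X ⊆ {x ∈ Tgt G η S0 | ∀ i ∈ (Finset.univ : Finset (Fin m)), blk i x ≠ s i} :=
      fun x hx => ⟨hX hx, fun i _ => hsT i x hx⟩
    exact_mod_cast Set.ncard_le_ncard hsub (Set.toFinite _)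
  · intro i _ j _ hij
    rw [Finset.disjoint_left]
    intro v hv hv'
    rw [Finset.mem_image] at hv
    obtain ⟨a, -, rfl⟩ := hv
    rw [mvBk_inr] at hv'
    exact hij hv'
  · intro j _ x y hxy hg
    have : blk j y = blk j x := by
      funext i
      exact hxy _ (Finset.mem_image.mpr ⟨i, Finset.mem_univ _, rfl⟩)
    rw [this]
    exact hg
  · intro j _
    exact mvBk_card η j
  · intro j _ x hx
    refine ⟨mvUpd η j (s j) x, mvUpd_mem hx (hs j), fun v hv => mvUpd_off hv, ?_⟩
    rw [not_not]
    exact mvUpd_blk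

/-- The target is large. -/
theorem tgt_card {V0 : Type*} [Fintype V0] [DecidableEq V0] {m b : ℕ} (G : SimpleGraph V0)
    (col : V0 → Bool) (hcol : ∀ u v, G.Adj u v → col u ≠ col v) (η : Fin m × Fin b → V0)
    (hηc : ∀ p, col (η p) = false)
    (S0 : Fin m → Set (Fin b → ZMod 2)) (hne : ∀ j, (S0 j).Nonempty) :
    (2 : ℝ) ^ (univ.filter fun v => col v = true).card ≤ ((Tgt G η S0).ncard : ℝ) := by
  classical
  choose s hs using hne
  let F : ({v // col v = true} → ZMod 2) → (Vx V0 m b → ZMod 2) := fun f =>
    Sum.elim (fun v => if h : col v = true then f ⟨v, h⟩ else 1) (fun p => s p.1 p.2)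
  have hF : Function.Injective F := by
    intro f g hfg
    funext ⟨v, hv⟩
    have h1 := congrFun hfg (Sum.inl v)
    simp only [F, Sum.elim_inl, dif_pos hv] at h1
    exact h1
  have hone : ∀ f, ∀ v, col v = false → F f (Sum.inl v) = 1 := by
    intro f v hv
    simp only [F, Sum.elim_inl]
    rw [dif_neg]
    rw [hv]
    exact Bool.false_ne_true
  have hsub : Set.range F ⊆ Tgt G η S0 := by
    rintro _ ⟨f, rfl⟩
    refine ⟨?_, ?_⟩
    · rintro u w (⟨a, c, rfl, rfl, h⟩ | ⟨p, rfl, rfl⟩ | ⟨p, rfl, rfl⟩)
      · have h1 := hcol a c h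
        cases ha : col a
        · exact Or.inl (hone f a ha)
        · right
          refine hone f c ?_
          rw [ha] at h1
          cases hc : col c
          · rfl
          · rw [hc] at h1
            exact absurd rfl h1
      · exact Or.inl (hone f _ (hηc p))
      · exact Or.inr (hone f _ (hηc p))
    · intro j
      have : blk j (F f) = s j := by
        funext i
        rfl
      rw [this]
      exact hs j
  have h1 : (Set.range F).ncard = 2 ^ (univ.filter fun v => col v = true).card := by
    rw [← Set.image_univ, Set.ncard_image_of_injective _ hF, Set.ncard_univ,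
      Nat.card_eq_fintype_card, Fintype.card_fun, ZMod.card, Fintype.card_subtype]
  have h2 := Set.ncard_le_ncard hsub (Set.toFinite _)
  rw [h1] at h2
  exact_mod_cast h2

end Pool.Agent.UniD
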