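import Pool.Agent.UniD.Defs
import Pool.Agent.UniD.Moves

namespace Pool.Agent.UniD

open Finset Module Pool.Agent.Dichotomy

/-- **The bound for a leaf from the class.** -/
theorem leaf_bound_class {L : RelD.RelClass} (hL : Minor L) {V0 : Type} [Fintype V0]
    [DecidableEq V0] {m b k N : ℕ} (G : SimpleGraph V0)
    (col : V0 → Bool) (hcol : ∀ u v, G.Adj u v → col u ≠ col v) (η : Fin m × Fin b → V0)
    (hη : Function.Injective η) (hηc : ∀ p, col (η p) = false)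
    (S0 : Fin m → Set (Fin b → ZMod 2)) (S1 : Set (Fin k → ZMod 2)) (hS1 : S1 ∉ L k)
    {z0 z1 : Fin N} {l0 : Fin N → ZMod 2}
    {Λ : (Vx V0 m b → ZMod 2) →ₗ[ZMod 2] (Fin N → ZMod 2)} (emb2 : Fin m → Fin k → Fin N)
    (hinj : ∀ j, Function.Injective (emb2 j))
    (h1 : ∀ j, ∀ x ∈ Tgt G η S0, (fun i => (l0 + Λ x) (emb2 j i)) ∈ S1)
    (h2 : ∀ j, ∀ s ∈ S1, ∃ u ∈ S0 j, ∀ x : Vx V0 m b → ZMod 2, blk j x = u →
      (fun i => (l0 + Λ x) (emb2 j i)) = s)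
    (S : Set (Fin N → ZMod 2)) (hS : S ∈ L N) (ζ : ZMod 2 × ZMod 2) (c : Fin N → ZMod 2)
    (hc : ∀ y ∈ cls z0 z1 ζ S, ∃ x ∈ Tgt G η S0, c + y = l0 + Λ x)
    (X : Set (Vx V0 m b → ZMod 2)) (hX : X ⊆ Tgt G η S0)
    (hXS : ∀ x ∈ X, c + (l0 + Λ x) ∈ cls z0 z1 ζ S) :
    (X.ncard : ℝ) ≤ (2 ^ (2 * b) / (2 ^ (2 * b) + 1)) ^ m * ((Tgt G η S0).ncard : ℝ) := by
  refine tgt_leaf G col hcol η hη hηc S0 X hX fun j => ?_
  have two : ∀ a : ZMod 2, a + a = 0 := by decide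
  -- the projection of the class to the block
  have hA : {s : Fin k → ZMod 2 | ∃ y ∈ cls z0 z1 ζ S, s = fun i => y (emb2 j i)} ∈ L k := by
    have e1 := hL.fix N _ z1 ζ.2 (hL.fix N _ z0 ζ.1 hS)
    have e2 := hL.forget N k _ (emb2 j) (hinj j) e1
    have e3 : {s : Fin k → ZMod 2 | ∃ y ∈ cls z0 z1 ζ S, s = fun i => y (emb2 j i)} =
        {x | ∃ y ∈ {x | x ∈ {x | x ∈ S ∧ x z0 = ζ.1} ∧ x z1 = ζ.2}, x = fun i => y (emb2 j i)} := by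
      ext s
      constructor
      · rintro ⟨y, ⟨y1, y2, y3⟩, hy⟩
        exact ⟨y, ⟨⟨y1, y2⟩, y3⟩, hy⟩
      · rintro ⟨y, ⟨⟨y1, y2⟩, y3⟩, hy⟩
        exact ⟨y, ⟨y1, y2, y3⟩, hy⟩
    rw [e3]
    exact e2
  have hB := hL.flip k _ (fun i => c (emb2 j i)) hA
  have hsub : {x : Fin k → ZMod 2 | x + (fun i => c (emb2 j i)) ∈
      {s : Fin k → ZMod 2 | ∃ y ∈ cls z0 z1 ζ S, s = fun i => y (emb2 j i)}} ⊆ S1 := by
    rintro x ⟨y, hy, hx⟩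
    obtain ⟨t, ht, e⟩ := hc y hy
    have e1 := h1 j t ht
    have e2 : (fun i => (l0 + Λ t) (emb2 j i)) = x := by
      funext i
      have e3 := congrFun hx i
      rw [Pi.add_apply] at e3
      rw [← e, Pi.add_apply, ← e3, add_comm (x i), ← add_assoc, two, zero_add]
    rw [e2] at e1
    exact e1
  obtain ⟨s, hs, hns⟩ : ∃ s ∈ S1, s ∉ {x : Fin k → ZMod 2 | x + (fun i => c (emb2 j i)) ∈
      {s : Fin k → ZMod 2 | ∃ y ∈ cls z0 z1 ζ S, s = fun i => y (emb2 j i)}} := by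
    by_contra hcon
    have hsup : S1 ⊆ {x : Fin k → ZMod 2 | x + (fun i => c (emb2 j i)) ∈
        {s : Fin k → ZMod 2 | ∃ y ∈ cls z0 z1 ζ S, s = fun i => y (emb2 j i)}} := by
      intro s hs
      by_contra hns
      exact hcon ⟨s, hs, hns⟩
    rw [Set.Subset.antisymm hsub hsup] at hB
    exact hS1 hB
  obtain ⟨u, hu, hu2⟩ := h2 j s hs
  refine ⟨u, hu, fun x hx hxu => hns ?_⟩
  refine ⟨c + (l0 + Λ x), hXS x hx, ?_⟩
  funext i
  have e1 := congrFun (hu2 x hxu) i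
  rw [Pi.add_apply, Pi.add_apply, ← e1, add_comm]

end Pool.Agent.UniD
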