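import Pool.Agent.UniD.Defs
import Pool.Agent.Helper91.Dich.Mix3

namespace Pool.Agent.UniD

open Finset Module Pool.Agent.Dichotomy

/-- **The bound for a network leaf.** -/
theorem leaf_bound_gen {N : ℕ} {V : Type} [Fintype V] [DecidableEq V] (hn : 48 ≤ Fintype.card V)
    (G : SimpleGraph V) (T : Finset (V → ZMod 2)) (hTV : ∀ x ∈ T, x ∈ VC G) (k : ℕ) (B : ℝ)
    (hmb : ∀ P Q : (V → ZMod 2) →ₗ[ZMod 2] (V → ZMod 2), (∀ z, P z + Q z = z) →
      Fintype.card V ≤ 4 * finrank (ZMod 2) (LinearMap.range P) →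
      Fintype.card V ≤ 4 * finrank (ZMod 2) (LinearMap.range Q) →
      ∀ _ : (∀ x y, Decidable (P x + Q y ∈ VC G)),
      ((((T ×ˢ T).filter fun p => P p.1 + Q p.2 ∈ VC G).card : ℝ)) ^ (2 * (k + 1)) ≤
        B * (T.card : ℝ) ^ (4 * (k + 1)))
    {S0 : Set (Fin N → ZMod 2)} {z0 z1 : Fin N} {emb : V → Fin N}
    {l0 : Fin N → ZMod 2}
    {Λ : (V → ZMod 2) →ₗ[ZMod 2] (Fin N → ZMod 2)}
    (hI1 : ∀ y ∈ S0, y z0 = 0 → y z1 = 1 → ∃ x ∈ VC G, y = l0 + Λ x)
    (hΛ : ∀ x, Λ x z0 = 0 ∧ Λ x z1 = 0 ∧ ∀ u, Λ x (emb u) = x u)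
    {K : Type} [Field K] (f : (Fin N → ZMod 2) → K)
    (e : (Fin N → ZMod 2) ≃ₗ[ZMod 2] (Fin N → ZMod 2)) (w : ℕ)
    (W : Submodule K ((Fin N → ZMod 2) → K)) (hW : Net K w univ W)
    (hfW : (fun x => f (e x)) ∈ W) (ζ : ZMod 2 × ZMod 2) (c : Fin N → ZMod 2)
    (hc : ∀ y, f y ≠ 0 → y z0 = ζ.1 → y z1 = ζ.2 → c + y ∈ S0 ∧ (c + y) z0 = 0 ∧
      (c + y) z1 = 1)
    (X : Finset (V → ZMod 2)) (hX : X ⊆ T)
    (hXf : ∀ x ∈ X, f (c + (l0 + Λ x)) ≠ 0 ∧ (c + (l0 + Λ x)) z0 = ζ.1 ∧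
      (c + (l0 + Λ x)) z1 = ζ.2) :
    (X.card : ℝ) ^ (4 * (k + 1)) ≤ (128 * w) ^ (2 * (k + 1)) *
      (B * (T.card : ℝ) ^ (4 * (k + 1))) := by
  classical
  obtain ⟨n, hcardV⟩ : ∃ n, Fintype.card V = n := ⟨_, rfl⟩
  have hfin : finrank (ZMod 2) (V → ZMod 2) = n := by
    rw [Module.finrank_fintype_fun_eq_card, hcardV]
  -- the maps
  let core : (Fin N → ZMod 2) →ₗ[ZMod 2] (V → ZMod 2) :=
    LinearMap.funLeft (ZMod 2) (ZMod 2) emb
  let PS : Finset (Fin N) → ((V → ZMod 2) →ₗ[ZMod 2] (V → ZMod 2)) :=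
    fun S => core ∘ₗ e.toLinearMap ∘ₗ prS S ∘ₗ e.symm.toLinearMap ∘ₗ Λ
  have hPS : ∀ S x, PS S x = core (e (prS S (e.symm (Λ x)))) := fun _ _ => rfl
  have hcoreΛ : ∀ x, core (Λ x) = x := fun x => funext fun u => (hΛ x).2.2 u
  have hPSuniv : ∀ x, PS univ x = x := by
    intro x
    rw [hPS, prS_apply, mix_univ, e.apply_symm_apply, hcoreΛ]
  have hPSadd : ∀ S S' : Finset (Fin N), Disjoint S S' → ∀ x, PS (S ∪ S') x = PS S x + PS S' x := by
    intro S S' h x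
    rw [hPS, hPS, hPS, prS_union S S' h, map_add, map_add]
  -- ranks
  let r : Finset (Fin N) → ℕ := fun S => finrank (ZMod 2) (LinearMap.range (PS S))
  have hadd : ∀ S S' : Finset (Fin N), Disjoint S S' → r (S ∪ S') ≤ r S + r S' := by
    intro S S' h
    have h1 : LinearMap.range (PS (S ∪ S')) ≤ LinearMap.range (PS S) ⊔ LinearMap.range (PS S') := by
      rintro _ ⟨x, rfl⟩
      rw [hPSadd S S' h]
      exact Submodule.add_mem_sup ⟨x, rfl⟩ ⟨x, rfl⟩
    exact (Submodule.finrank_mono h1).trans (Submodule.finrank_add_le_finrank_add_finrank _ _)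
  have hleaf : ∀ i, r {i} ≤ 1 := by
    intro i
    have h1 : LinearMap.range (PS {i}) ≤
        Submodule.span (ZMod 2) {core (e (Pi.single i 1))} := by
      rintro _ ⟨x, rfl⟩
      rw [hPS]
      have h2 : prS {i} (e.symm (Λ x)) = (e.symm (Λ x)) i • Pi.single i 1 := by
        funext j
        by_cases hj : j = i
        · subst hj; simp [prS_apply, mix]
        · simp [prS_apply, mix, hj]
      rw [h2, map_smul, map_smul]
      exact Submodule.smul_mem _ _ (Submodule.mem_span_singleton_self _)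
    refine (Submodule.finrank_mono h1).trans ?_
    refine (finrank_span_le_card _).trans ?_
    simp
  have hruniv : r univ = n := by
    have : LinearMap.range (PS univ) = ⊤ := by
      rw [LinearMap.range_eq_top]
      exact fun x => ⟨x, hPSuniv x⟩
    show finrank (ZMod 2) (LinearMap.range (PS univ)) = n
    rw [this, finrank_top, hfin]
  -- the balanced node
  obtain ⟨S, W', hW'w, hW'F, hr1, hr2⟩ := hW.balanced (fun x => f (e x)) r hleaf hadd
    ((n + 1) / 2) (by omega) (by intro y; simp only [mix_univ]; exact hfW)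
    (by rw [hruniv]; omega)
  have hPQ : ∀ x, PS S x + PS Sᶜ x = x := by
    intro x
    rw [← hPSadd S Sᶜ disjoint_compl_right, union_compl, hPSuniv]
  have hrc : n ≤ r S + r Sᶜ := by
    have := hadd S Sᶜ disjoint_compl_right
    rwa [union_compl, hruniv] at this
  have hP : Fintype.card V ≤ 4 * finrank (ZMod 2) (LinearMap.range (PS S)) := by
    have : Fintype.card V ≤ 4 * r S := by omega
    exact this
  have hQ : Fintype.card V ≤ 4 * finrank (ZMod 2) (LinearMap.range (PS Sᶜ)) := by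
    have : Fintype.card V ≤ 4 * r Sᶜ := by omega
    exact this
  have hmb := hmb (PS S) (PS Sᶜ) hPQ hP hQ (fun x y => Classical.propDecidable _)
  -- the points
  let pt : (V → ZMod 2) → (Fin N → ZMod 2) := fun x => e.symm (c + (l0 + Λ x))
  let κ : (V → ZMod 2) → ZMod 2 × ZMod 2 := fun x =>
    (e (prS S (pt x)) z0, e (prS S (pt x)) z1)
  have hsplit : ∀ p, e (prS S p) + e (prS Sᶜ p) = e p := by
    intro p
    rw [← map_add, ← mix_eq, mix_self]
  have hept : ∀ x, e (pt x) = c + (l0 + Λ x) := fun x => e.apply_symm_apply _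
  have hκeq : ∀ x, ∀ x' ∈ X, κ x = κ x' →
      (e (mix S (pt x) (pt x'))) z0 = ζ.1 ∧ (e (mix S (pt x) (pt x'))) z1 = ζ.2 := by
    intro x x' hx' hκ
    have h2 := hsplit (pt x')
    rw [hept] at h2
    have h3 := congrFun h2 z0
    have h4 := congrFun h2 z1
    rw [(hXf x' hx').2.1] at h3
    rw [(hXf x' hx').2.2] at h4
    rw [Pi.add_apply] at h3 h4
    have k0 : e (prS S (pt x)) z0 = e (prS S (pt x')) z0 := congrArg Prod.fst hκ
    have k1 : e (prS S (pt x)) z1 = e (prS S (pt x')) z1 := congrArg Prod.snd hκ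
    rw [mix_eq, map_add]
    refine ⟨?_, ?_⟩
    · rw [Pi.add_apply, k0]; exact h3
    · rw [Pi.add_apply, k1]; exact h4
  have hcore : ∀ x x', c + e (mix S (pt x) (pt x')) = l0 +
      (e (prS S (e.symm (Λ x))) + e (prS Sᶜ (e.symm (Λ x')))) := by
    intro x x'
    have h1 : e (mix S (pt x) (pt x')) =
        (e (prS S (e.symm (c + l0))) + e (prS Sᶜ (e.symm (c + l0)))) +
        (e (prS S (e.symm (Λ x))) + e (prS Sᶜ (e.symm (Λ x')))) := by
      rw [mix_eq]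
      simp only [pt, map_add]
      abel
    rw [hsplit, e.apply_symm_apply] at h1
    rw [h1]
    have : c + (c + l0 + (e (prS S (e.symm (Λ x))) + e (prS Sᶜ (e.symm (Λ x'))))) =
        (c + c) + (l0 + (e (prS S (e.symm (Λ x))) + e (prS Sᶜ (e.symm (Λ x'))))) := by abel
    rw [this, pi_add_self, zero_add]
  have hoff : ∀ x, ∀ x' ∈ X, κ x = κ x' → ¬ (PS S x + PS Sᶜ x' ∈ VC G) →
      f (e (mix S (pt x) (pt x'))) = 0 := by
    intro x x' hx' hκ hn'
    by_contra hne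
    obtain ⟨h2, h3⟩ := hκeq x x' hx' hκ
    obtain ⟨h4, h5, h6⟩ := hc _ hne h2 h3
    obtain ⟨x'', hx'', h7⟩ := hI1 _ h4 h5 h6
    apply hn'
    have h8 : PS S x + PS Sᶜ x' = x'' := by
      rw [hcore] at h7
      have h9 := add_left_cancel h7
      have h10 := congrArg core h9
      rw [map_add, hcoreΛ] at h10
      exact h10
    rw [h8]; exact hx''
  -- the class
  obtain ⟨κ0, hκ0⟩ : ∃ κ0, X.card ≤ 4 * (X.filter fun x => κ x = κ0).card := by
    have h1 := card_eq_sum_card_fiberwise (s := X) (t := (univ : Finset (ZMod 2 × ZMod 2)))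
      (f := κ) (fun x _ => mem_univ _)
    have h2 : ∑ _b : ZMod 2 × ZMod 2, X.card ≤
        ∑ b : ZMod 2 × ZMod 2, 4 * (X.filter fun x => κ x = b).card := by
      rw [← mul_sum, ← h1, sum_const, card_univ, Fintype.card_prod, ZMod.card]
      simp
    obtain ⟨b, -, hb⟩ := exists_le_of_sum_le univ_nonempty h2
    exact ⟨b, hb⟩
  obtain ⟨C, hC⟩ : ∃ C, C = X.filter fun x => κ x = κ0 := ⟨_, rfl⟩
  rw [← hC] at hκ0
  have hCX : C ⊆ X := by rw [hC]; exact filter_subset _ _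
  have hCsub : C ⊆ T := hCX.trans hX
  have hCκ : ∀ x ∈ C, κ x = κ0 := by intro x hx; rw [hC] at hx; exact (mem_filter.1 hx).2
  obtain ⟨J, hJC, hJ, hJc⟩ := exists_indep C (fun x y => PS S x + PS Sᶜ y ∈ VC G) (by
    intro x hx
    show PS S x + PS Sᶜ x ∈ VC G
    rw [hPQ]
    exact hTV x (hCsub hx))
  -- the fooling set
  have hJw : J.card ≤ w := by
    refine le_trans ?_ hW'w
    refine fooling W' J (fun a z => f (e (mix S z (pt a)))) pt (fun a _ => hW'F (pt a)) ?_ ?_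
    · intro a ha
      rw [mix_self, hept]
      exact (hXf a (hCX (hJC ha))).1
    · intro a ha b hb hab
      refine hoff b a (hCX (hJC ha)) ?_ (hJ b hb a ha (Ne.symm hab))
      rw [hCκ b (hJC hb), hCκ a (hJC ha)]
  obtain ⟨Nb, hNb⟩ : ∃ Nb, Nb = ((T ×ˢ T).filter fun p => PS S p.1 + PS Sᶜ p.2 ∈
    VC G).card := ⟨_, rfl⟩
  rw [← hNb] at hmb
  have hNbC : ((C ×ˢ C).filter fun p => PS S p.1 + PS Sᶜ p.2 ∈ VC G).card ≤ Nb := by
    rw [hNb]
    exact card_le_card (filter_subset_filter _ (product_subset_product hCsub hCsub))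
  have hfinal : X.card ^ 2 ≤ 128 * w * Nb := by
    have h1 : C.card ^ 2 ≤ 8 * (w * Nb) :=
      hJc.trans (Nat.mul_le_mul_left _ (Nat.mul_le_mul hJw hNbC))
    calc X.card ^ 2 ≤ (4 * C.card) ^ 2 := Nat.pow_le_pow_left hκ0 2
      _ = 16 * C.card ^ 2 := by ring
      _ ≤ 16 * (8 * (w * Nb)) := Nat.mul_le_mul_left _ h1
      _ = 128 * w * Nb := by ring
  have hfinal' : (X.card : ℝ) ^ 2 ≤ (128 * w) * Nb := by exact_mod_cast hfinal
  calc (X.card : ℝ) ^ (4 * (k + 1)) = ((X.card : ℝ) ^ 2) ^ (2 * (k + 1)) := by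
        rw [← pow_mul]; ring_nf
    _ ≤ ((128 * w) * Nb) ^ (2 * (k + 1)) := pow_le_pow_left₀ (by positivity) hfinal' _
    _ = (128 * w) ^ (2 * (k + 1)) * (Nb : ℝ) ^ (2 * (k + 1)) := mul_pow _ _ _
    _ ≤ _ := mul_le_mul_of_nonneg_left hmb (by positivity)

end Pool.Agent.UniD
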