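import Pool.Agent.UniD.Defs
import Pool.Agent.UniD.Det
import Pool.Agent.Helper91.Dich.Mix3

namespace Pool.Agent.UniD

open Finset Module Pool.Agent.Dichotomy

section

variable {V : Type*} [Fintype V] [DecidableEq V]

/-- Anti-concentration in terms of finite sets. -/
theorem anticonc_fT [DecidableEq (V → ZMod 2)] (T : Finset (V → ZMod 2)) (ρ : ℝ) (r : ℕ)
    (hac : ∀ (M : Submodule (ZMod 2) (V → ZMod 2)) (c : V → ZMod 2) (t : ℕ),
      t ≤ (Fintype.card V - finrank (ZMod 2) M) / r →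
      (({x | x ∈ T ∧ x + c ∈ M} : Set (V → ZMod 2)).ncard : ℝ) ≤ ρ ^ t * T.card)
    (M : Submodule (ZMod 2) (V → ZMod 2))
    [DecidablePred fun x => x ∈ M] (c : V → ZMod 2) (t : ℕ)
    (ht : t ≤ (Fintype.card V - finrank (ZMod 2) M) / r) :
    ((T.filter fun x => x + c ∈ M).card : ℝ) ≤ ρ ^ t * T.card := by
  have h1 := hac M c t ht
  have h2 : (T.filter fun x => x + c ∈ M).card =
      ({x | x ∈ T ∧ x + c ∈ M} : Set (V → ZMod 2)).ncard := by
    rw [← Set.ncard_coe_finset]
    congr 1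
    ext x
    simp
  rw [h2]
  exact h1

/-- The tuples that vanish on a set on which `P` has large rank are few. -/
theorem few_tuplesT [DecidableEq (V → ZMod 2)] (T : Finset (V → ZMod 2)) (ρ : ℝ)
    (r : ℕ)
    (hac : ∀ (M : Submodule (ZMod 2) (V → ZMod 2)) (c : V → ZMod 2) (t : ℕ),
      t ≤ (Fintype.card V - finrank (ZMod 2) M) / r →
      (({x | x ∈ T ∧ x + c ∈ M} : Set (V → ZMod 2)).ncard : ℝ) ≤ ρ ^ t * T.card)
    (M : Submodule (ZMod 2) (V → ZMod 2))
    [DecidablePred fun x => x ∈ M] (t k : ℕ)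
    (ht : t ≤ (Fintype.card V - finrank (ZMod 2) M) / r) :
    (((Fintype.piFinset fun _ : Fin (k + 1) => T).filter
      fun τ => ∀ i, τ i + τ 0 ∈ M).card : ℝ) ≤
      T.card * (ρ ^ t * T.card) ^ k := by
  have h1 : ((Fintype.piFinset fun _ : Fin (k + 1) => T).filter
      fun τ => ∀ i, τ i + τ 0 ∈ M).card ≤
      (T.sigma fun c => Fintype.piFinset fun _ : Fin k =>
        T.filter fun x => x + c ∈ M).card := by
    refine Finset.card_le_card_of_injOn (fun τ => ⟨τ 0, fun i => τ i.succ⟩) ?_ ?_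
    · intro τ hτ
      rw [Finset.mem_coe, mem_filter, Fintype.mem_piFinset] at hτ
      rw [Finset.mem_coe, mem_sigma]
      refine ⟨hτ.1 0, ?_⟩
      rw [Fintype.mem_piFinset]
      intro i
      exact mem_filter.2 ⟨hτ.1 _, hτ.2 _⟩
    · intro τ _ τ' _ h
      have h0 : τ 0 = τ' 0 := congrArg Sigma.fst h
      have h2 : (fun i : Fin k => τ i.succ) = fun i => τ' i.succ := by
        have := (Sigma.mk.inj h).2
        exact eq_of_heq this
      funext i
      refine Fin.cases h0 (fun j => congrFun h2 j) i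
  rw [card_sigma] at h1
  have h2 : (((Fintype.piFinset fun _ : Fin (k + 1) => T).filter
      fun τ => ∀ i, τ i + τ 0 ∈ M).card : ℝ) ≤ ∑ c ∈ T,
      ((Fintype.piFinset fun _ : Fin k => T.filter fun x => x + c ∈ M).card : ℝ) := by
    exact_mod_cast h1
  refine h2.trans ?_
  have h3 : ∀ c ∈ T, ((Fintype.piFinset fun _ : Fin k =>
      T.filter fun x => x + c ∈ M).card : ℝ) ≤ (ρ ^ t * T.card) ^ k := by
    intro c _
    rw [Fintype.card_piFinset, Finset.prod_const, Finset.card_univ, Fintype.card_fin]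
    push_cast
    exact pow_le_pow_left₀ (Nat.cast_nonneg _) (anticonc_fT T ρ r hac M c t ht) _
  refine (Finset.sum_le_card_nsmul _ _ _ h3).trans ?_
  rw [nsmul_eq_mul]

end

/-- **The mixing bound** for a set `T` with anti-concentration. -/
theorem mixing_gen {V : Type} [Fintype V] [DecidableEq V] (hn : 48 ≤ Fintype.card V) {κ : ℕ}
    (hκ : 1 ≤ κ) (G : SimpleGraph V) (hG : ExpK κ G) (T : Finset (V → ZMod 2)) (ρ : ℝ)
    (hρ0 : 0 ≤ ρ) (r : ℕ)
    (hac : ∀ (M : Submodule (ZMod 2) (V → ZMod 2)) (c : V → ZMod 2) (t : ℕ),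
      t ≤ (Fintype.card V - finrank (ZMod 2) M) / r →
      (({x | x ∈ T ∧ x + c ∈ M} : Set (V → ZMod 2)).ncard : ℝ) ≤ ρ ^ t * T.card)
    (P Q : (V → ZMod 2) →ₗ[ZMod 2] (V → ZMod 2))
    (hPQ : ∀ z, P z + Q z = z)
    (hP : Fintype.card V ≤ 4 * finrank (ZMod 2) (LinearMap.range P))
    (hQ : Fintype.card V ≤ 4 * finrank (ZMod 2) (LinearMap.range Q)) (q : ℕ)
    (hq : 100 * κ * q ≤ Fintype.card V) (k t : ℕ)
    (ht : t ≤ (q + 1) / r) [∀ x y, Decidable (P x + Q y ∈ VC G)] :
    ((((T ×ˢ T).filter fun p => P p.1 + Q p.2 ∈ VC G).card : ℝ)) ^ (2 * (k + 1)) ≤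
      (2 ^ Fintype.card V * (ρ ^ t) ^ k + ρ ^ t) * (T.card : ℝ) ^ (4 * (k + 1)) := by
  classical
  obtain ⟨n, hcardV⟩ : ∃ n, Fintype.card V = n := ⟨_, rfl⟩
  obtain ⟨a, ha⟩ : ∃ a : ℝ, a = (T.card : ℝ) := ⟨_, rfl⟩
  have ha0 : 0 ≤ a := by rw [ha]; exact Nat.cast_nonneg _
  have hpm := power_mean T (fun x y => P x + Q y ∈ VC G) k
  -- good and bad tuples
  let Bad : (Fin (k + 1) → V → ZMod 2) → Prop := fun τ =>
    finrank (ZMod 2) ((ZT (Tz P τ)).comap P) + q < n
  have hc : ∀ τ : Fin (k + 1) → V → ZMod 2,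
      (((T ×ˢ T).filter fun p => ∀ i, (P (τ i) + Q p.1 ∈ VC G) ∧
        (P (τ i) + Q p.2 ∈ VC G)).card : ℝ) ≤ (if Bad τ then a ^ 2 else 0) + ρ ^ t * a ^ 2 := by
    intro τ
    by_cases hb : Bad τ
    · rw [if_pos hb]
      have h1 : (((T ×ˢ T).filter fun p => ∀ i, (P (τ i) + Q p.1 ∈ VC G) ∧
        (P (τ i) + Q p.2 ∈ VC G)).card : ℝ) ≤ a ^ 2 := by
        have := card_filter_le (T ×ˢ T) fun p => ∀ i, (P (τ i) + Q p.1 ∈ VC G) ∧
          (P (τ i) + Q p.2 ∈ VC G)
        rw [card_product] at this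
        rw [ha, sq]
        exact_mod_cast this
      have h2 : 0 ≤ ρ ^ t * a ^ 2 := by positivity
      linarith
    · rw [if_neg hb, zero_add]
      have hK : finrank (ZMod 2) ((LT G (Tz P τ)).comap Q) + q < n := by
        by_contra hcon
        push Not at hcon
        have hb' : n ≤ finrank (ZMod 2) ((ZT (Tz P τ)).comap P) + q := not_lt.1 hb
        rw [← hcardV] at hb' hcon
        exact det_expK hκ G hG P Q hPQ hP hQ q hq hn (Tz P τ) hb' hcon
      have htK : t ≤ (Fintype.card V -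
          finrank (ZMod 2) ((LT G (Tz P τ)).comap Q)) / r := by
        refine ht.trans (Nat.div_le_div_right ?_)
        rw [hcardV]; omega
      have h1 : (((T ×ˢ T).filter fun p => ∀ i, (P (τ i) + Q p.1 ∈ VC G) ∧
        (P (τ i) + Q p.2 ∈ VC G)).card : ℝ) ≤
          ∑ c ∈ T, ((T.filter fun x => x + c ∈ (LT G (Tz P τ)).comap Q).card : ℝ) := by
        have h2 : ((T ×ˢ T).filter fun p => ∀ i, (P (τ i) + Q p.1 ∈ VC G) ∧
            (P (τ i) + Q p.2 ∈ VC G)).card ≤
            (T.sigma fun c => T.filter fun x => x + c ∈ (LT G (Tz P τ)).comap Q).card := by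
          refine Finset.card_le_card_of_injOn (fun p => ⟨p.1, p.2⟩) ?_ ?_
          · intro p hp
            rw [Finset.mem_coe, mem_filter, mem_product] at hp
            rw [Finset.mem_coe, mem_sigma]
            refine ⟨hp.1.1, mem_filter.2 ⟨hp.1.2, ?_⟩⟩
            exact mem_LT_of_all G P Q hp.2
          · intro p _ p' _ h
            have h0 : p.1 = p'.1 := congrArg Sigma.fst h
            have h2 : p.2 = p'.2 := eq_of_heq (Sigma.mk.inj h).2
            exact Prod.ext h0 h2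
        rw [card_sigma] at h2
        exact_mod_cast h2
      refine h1.trans ?_
      refine (Finset.sum_le_card_nsmul _ _ _ fun c _ =>
        anticonc_fT T ρ r hac ((LT G (Tz P τ)).comap Q) c t htK).trans ?_
      rw [nsmul_eq_mul, ← ha]
      apply le_of_eq; ring
  -- the number of bad tuples
  have hbad : (((Fintype.piFinset fun _ : Fin (k + 1) => T).filter fun τ => Bad τ).card : ℝ) ≤
      2 ^ n * (a * (ρ ^ t * a) ^ k) := by
    have h1 : ((Fintype.piFinset fun _ : Fin (k + 1) => T).filter fun τ => Bad τ) ⊆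
        ((univ : Finset (Finset V)).filter fun T1 =>
          finrank (ZMod 2) ((ZT T1).comap P) + q < n).biUnion fun T1 =>
            ((Fintype.piFinset fun _ : Fin (k + 1) => T).filter
              fun τ => ∀ i, τ i + τ 0 ∈ (ZT T1).comap P) := by
      intro τ hτ
      rw [mem_filter] at hτ
      rw [mem_biUnion]
      refine ⟨Tz P τ, mem_filter.2 ⟨mem_univ _, hτ.2⟩, mem_filter.2 ⟨hτ.1, ?_⟩⟩
      intro i s hs
      exact mem_Tz.1 hs i
    have h2 := (card_le_card h1).trans card_biUnion_le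
    have h3 : (((Fintype.piFinset fun _ : Fin (k + 1) => T).filter
        fun τ => Bad τ).card : ℝ) ≤
        ∑ T1 ∈ (univ : Finset (Finset V)).filter fun T1 =>
          finrank (ZMod 2) ((ZT T1).comap P) + q < n,
          (((Fintype.piFinset fun _ : Fin (k + 1) => T).filter
              fun τ => ∀ i, τ i + τ 0 ∈ (ZT T1).comap P).card : ℝ) := by exact_mod_cast h2
    refine h3.trans ?_
    have h4 : ∀ T1 ∈ (univ : Finset (Finset V)).filter fun T1 =>
          finrank (ZMod 2) ((ZT T1).comap P) + q < n,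
          (((Fintype.piFinset fun _ : Fin (k + 1) => T).filter
              fun τ => ∀ i, τ i + τ 0 ∈ (ZT T1).comap P).card : ℝ) ≤ a * (ρ ^ t * a) ^ k := by
      intro T1 hT
      have hT' := (mem_filter.1 hT).2
      rw [ha]
      refine few_tuplesT T ρ r hac ((ZT T1).comap P) t k (ht.trans (Nat.div_le_div_right ?_))
      rw [hcardV]; omega
    refine (Finset.sum_le_card_nsmul _ _ _ h4).trans ?_
    rw [nsmul_eq_mul]
    refine mul_le_mul_of_nonneg_right ?_ (by positivity)
    have h5 : ((univ : Finset (Finset V)).filter fun T1 =>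
          finrank (ZMod 2) ((ZT T1).comap P) + q < n).card ≤ 2 ^ n := by
      refine (card_filter_le _ _).trans ?_
      rw [card_univ, Fintype.card_finset, hcardV]
    exact_mod_cast h5
  have hsum : ∑ τ ∈ Fintype.piFinset (fun _ : Fin (k + 1) => T),
      (((T ×ˢ T).filter fun p => ∀ i, (P (τ i) + Q p.1 ∈ VC G) ∧
        (P (τ i) + Q p.2 ∈ VC G)).card : ℝ) ≤
      2 ^ n * (a * (ρ ^ t * a) ^ k) * a ^ 2 + a ^ (k + 1) * (ρ ^ t * a ^ 2) := by
    refine (Finset.sum_le_sum fun τ _ => hc τ).trans ?_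
    rw [Finset.sum_add_distrib]
    refine add_le_add ?_ ?_
    · rw [← Finset.sum_filter, Finset.sum_const, nsmul_eq_mul]
      exact mul_le_mul_of_nonneg_right hbad (by positivity)
    · rw [Finset.sum_const, nsmul_eq_mul, Fintype.card_piFinset, Finset.prod_const,
        Finset.card_univ, Fintype.card_fin, ha]
      push_cast
      exact le_rfl
  rw [hcardV]
  rw [← ha] at hpm ⊢
  refine hpm.trans ?_
  refine (mul_le_mul_of_nonneg_left hsum (by positivity)).trans ?_
  apply le_of_eq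
  rw [mul_pow]
  ring

end Pool.Agent.UniD
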