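import Pool.Agent.UniD.Defs

namespace Pool.Agent.UniD

open Finset Module Pool.Agent.Dichotomy

private lemma patch_value {b : ℕ} {S : Set (Fin b → ZMod 2)} (h : Spans S)
    (l : Fin b) (c : ZMod 2) : ∃ s ∈ S, s l = c := by
  by_contra hc
  push Not at hc
  have h1 : ∀ s ∈ S, s l = c + 1 := by
    intro s hs
    have key : ∀ t c : ZMod 2, t ≠ c → t = c + 1 := by decide
    exact key _ _ (hc s hs)
  have h2 : Submodule.span (ZMod 2) {d | ∃ s ∈ S, ∃ s' ∈ S, d = s + s'} ≤
      LinearMap.ker (LinearMap.proj (R := ZMod 2) (φ := fun _ : Fin b => ZMod 2) l) := by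
    rw [Submodule.span_le]
    rintro d ⟨s, hs, s', hs', rfl⟩
    rw [SetLike.mem_coe, LinearMap.mem_ker, LinearMap.proj_apply, Pi.add_apply, h1 s hs,
      h1 s' hs']
    exact CharTwo.add_self_eq_zero _
  unfold Spans at h
  rw [h] at h2
  have h3 : (Pi.single l 1 : Fin b → ZMod 2) ∈
      LinearMap.ker (LinearMap.proj (R := ZMod 2) (φ := fun _ : Fin b => ZMod 2) l) :=
    h2 Submodule.mem_top
  rw [LinearMap.mem_ker, LinearMap.proj_apply, Pi.single_eq_same] at h3
  exact one_ne_zero h3

private lemma patch_mem {V0 : Type*} {m b : ℕ} (G : SimpleGraph V0)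
    (η : Fin m × Fin b → V0) (S0 : Fin m → Set (Fin b → ZMod 2)) (y : Vx V0 m b → ZMod 2)
    (hG : ∀ a c, G.Adj a c → y (Sum.inl a) = 1 ∨ y (Sum.inl c) = 1)
    (hp : ∀ p, y (Sum.inl (η p)) = 1 ∨ y (Sum.inr p) = 1) (hb : ∀ j, blk j y ∈ S0 j) :
    y ∈ Tgt G η S0 := by
  refine ⟨?_, hb⟩
  rintro u v (⟨a, c, rfl, rfl, h⟩ | ⟨p, rfl, rfl⟩ | ⟨p, rfl, rfl⟩)
  · exact hG a c h
  · exact hp p
  · exact (hp p).symm

/-- An edge of the base graph, its first vertex may be a hub. -/
private lemma patch_base {V0 : Type*} [Fintype V0] [DecidableEq V0] {m b : ℕ}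
    (G : SimpleGraph V0) (col : V0 → Bool) (η : Fin m × Fin b → V0)
    (hη : Function.Injective η) (hηc : ∀ p, col (η p) = false)
    (S0 : Fin m → Set (Fin b → ZMod 2)) (hS0 : ∀ j, Spans (S0 j))
    (a c : V0) (hac : G.Adj a c) (hc : col c = true) (p q : ZMod 2)
    (hpq : p = 1 ∨ q = 1) (x : Vx V0 m b → ZMod 2) (hx : x ∈ Tgt G η S0) :
    ∃ y ∈ Tgt G η S0, (∀ w, w ≠ Sum.inl a → w ≠ Sum.inl c → ¬ (PendB G η).Adj (Sum.inl a) w →
      ¬ (PendB G η).Adj (Sum.inl c) w → y w = x w) ∧ y (Sum.inl a) = p ∧ y (Sum.inl c) = q := by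
  classical
  have hca : c ≠ a := fun h => G.loopless.irrefl a (h ▸ hac)
  have hηne : ∀ p, η p ≠ c := fun p h => by
    have := hηc p
    rw [h, hc] at this
    exact absurd this (by decide)
  have hxG : ∀ a c, G.Adj a c → x (Sum.inl a) = 1 ∨ x (Sum.inl c) = 1 := fun a c h =>
    hx.1 _ _ (Or.inl ⟨a, c, rfl, rfl, h⟩)
  have hxp : ∀ p, x (Sum.inl (η p)) = 1 ∨ x (Sum.inr p) = 1 := fun p =>
    hx.1 _ _ (Or.inr (Or.inl ⟨p, rfl, rfl⟩))
  by_cases hub : ∃ p : Fin m × Fin b, η p = a
  · obtain ⟨⟨j, l⟩, rfl⟩ := hub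
    obtain ⟨s, hs, hsl⟩ := patch_value (hS0 j) l 1
    let yl : V0 → ZMod 2 := fun w => if w = η (j, l) then p else if w = c then q else
      if G.Adj (η (j, l)) w ∨ G.Adj c w then 1 else if ∃ l', w = η (j, l') then 1 else
      x (Sum.inl w)
    have hyl : ∀ w, w ≠ η (j, l) → w ≠ c → yl w = 1 ∨ yl w = x (Sum.inl w) := by
      intro w h1 h2
      simp only [yl, if_neg h1, if_neg h2]
      split_ifs
      · exact Or.inl rfl
      · exact Or.inl rfl
      · exact Or.inr rfl
    have hyl1 : ∀ w, w ≠ η (j, l) → w ≠ c → (G.Adj (η (j, l)) w ∨ G.Adj c w) → yl w = 1 := by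
      intro w h1 h2 h3
      simp only [yl, if_neg h1, if_neg h2, if_pos h3]
    have hyl2 : ∀ l', (j, l') ≠ (j, l) → yl (η (j, l')) = 1 := by
      intro l' h1
      have h2 : η (j, l') ≠ η (j, l) := fun h => h1 (hη h)
      simp only [yl, if_neg h2, if_neg (hηne (j, l'))]
      split_ifs with h3 h4
      · rfl
      · rfl
      · exact absurd ⟨l', rfl⟩ h4
    let y : Vx V0 m b → ZMod 2 := Sum.elim yl (fun t => if t.1 = j then s t.2 else x (Sum.inr t))
    have ya : yl (η (j, l)) = p := by simp [yl]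
    have yc : yl c = q := by simp [yl, hca]
    refine ⟨y, patch_mem G η S0 y ?_ ?_ ?_, ?_, ya, yc⟩
    · intro d e hde
      change yl d = 1 ∨ yl e = 1
      by_cases hd : d = η (j, l)
      · subst hd
        by_cases he : e = c
        · subst he
          rw [ya, yc]
          exact hpq
        · exact Or.inr (hyl1 e (fun h => G.loopless.irrefl _ (h ▸ hde)) he (Or.inl hde))
      · by_cases hd' : d = c
        · subst hd'
          by_cases he : e = η (j, l)
          · subst he
            rw [ya, yc]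
            exact hpq.symm
          · exact Or.inr (hyl1 e he (fun h => G.loopless.irrefl _ (h ▸ hde)) (Or.inr hde))
        · by_cases he : e = η (j, l)
          · subst he
            exact Or.inl (hyl1 d hd hd' (Or.inl hde.symm))
          · by_cases he' : e = c
            · subst he'
              exact Or.inl (hyl1 d hd hd' (Or.inr hde.symm))
            · rcases hyl d hd hd' with h1 | h1
              · exact Or.inl h1
              · rcases hyl e he he' with h2 | h2
                · exact Or.inr h2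
                · rw [h1, h2]
                  exact hxG d e hde
    · rintro ⟨j', l'⟩
      change yl (η (j', l')) = 1 ∨ (if j' = j then s l' else x (Sum.inr (j', l'))) = 1
      by_cases hj : j' = j
      · subst hj
        rw [if_pos rfl]
        by_cases hl : l' = l
        · subst hl
          exact Or.inr hsl
        · exact Or.inl (hyl2 l' (fun h => hl (Prod.ext_iff.1 h).2))
      · rw [if_neg hj]
        have h1 : η (j', l') ≠ η (j, l) := fun h => hj (Prod.ext_iff.1 (hη h)).1
        rcases hyl _ h1 (hηne (j', l')) with h2 | h2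
        · exact Or.inl h2
        · rw [h2]
          exact hxp (j', l')
    · intro j'
      by_cases hj : j' = j
      · subst hj
        have : blk j' y = s := by
          funext l'
          simp [blk, y]
        rw [this]
        exact hs
      · have : blk j' y = blk j' x := by
          funext l'
          simp [blk, y, hj]
        rw [this]
        exact hx.2 j'
    · have hin : InBlk η j (Sum.inl (η (j, l))) := ⟨l, Or.inr rfl⟩
      rintro (w | ⟨j', l'⟩) h1 h2 h3 h4
      · change yl w = x (Sum.inl w)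
        have h1' : w ≠ η (j, l) := fun h => h1 (by rw [h])
        have h2' : w ≠ c := fun h => h2 (by rw [h])
        have h5 : ¬ (G.Adj (η (j, l)) w ∨ G.Adj c w) := by
          rintro (h | h)
          · exact h3 ⟨fun h => h1 h.symm, Or.inl (Or.inl ⟨_, _, rfl, rfl, h⟩)⟩
          · exact h4 ⟨fun h => h2 h.symm, Or.inl (Or.inl ⟨_, _, rfl, rfl, h⟩)⟩
        have h6 : ¬ ∃ l', w = η (j, l') := by
          rintro ⟨l', rfl⟩
          exact h3 ⟨fun h => h1 h.symm, Or.inr ⟨j, hin, ⟨l', Or.inr rfl⟩⟩⟩
        simp only [yl, if_neg h1', if_neg h2', if_neg h5, if_neg h6]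
      · change (if j' = j then s l' else x (Sum.inr (j', l'))) = _
        have hj : j' ≠ j := by
          rintro rfl
          exact h3 ⟨fun h => h1 h.symm, Or.inr ⟨j', hin, ⟨l', Or.inl rfl⟩⟩⟩
        rw [if_neg hj]
  · push Not at hub
    let yl : V0 → ZMod 2 := fun w => if w = a then p else if w = c then q else
      if G.Adj a w ∨ G.Adj c w then 1 else x (Sum.inl w)
    have hyl : ∀ w, w ≠ a → w ≠ c → yl w = 1 ∨ yl w = x (Sum.inl w) := by
      intro w h1 h2
      simp only [yl, if_neg h1, if_neg h2]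
      split_ifs
      · exact Or.inl rfl
      · exact Or.inr rfl
    have hyl1 : ∀ w, w ≠ a → w ≠ c → (G.Adj a w ∨ G.Adj c w) → yl w = 1 := by
      intro w h1 h2 h3
      simp only [yl, if_neg h1, if_neg h2, if_pos h3]
    let y : Vx V0 m b → ZMod 2 := Sum.elim yl (fun t => x (Sum.inr t))
    have ya : yl a = p := by simp [yl]
    have yc : yl c = q := by simp [yl, hca]
    refine ⟨y, patch_mem G η S0 y ?_ ?_ ?_, ?_, ya, yc⟩
    · intro d e hde
      change yl d = 1 ∨ yl e = 1
      by_cases hd : d = a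
      · subst hd
        by_cases he : e = c
        · subst he
          rw [ya, yc]
          exact hpq
        · exact Or.inr (hyl1 e (fun h => G.loopless.irrefl _ (h ▸ hde)) he (Or.inl hde))
      · by_cases hd' : d = c
        · subst hd'
          by_cases he : e = a
          · subst he
            rw [ya, yc]
            exact hpq.symm
          · exact Or.inr (hyl1 e he (fun h => G.loopless.irrefl _ (h ▸ hde)) (Or.inr hde))
        · by_cases he : e = a
          · subst he
            exact Or.inl (hyl1 d hd hd' (Or.inl hde.symm))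
          · by_cases he' : e = c
            · subst he'
              exact Or.inl (hyl1 d hd hd' (Or.inr hde.symm))
            · rcases hyl d hd hd' with h1 | h1
              · exact Or.inl h1
              · rcases hyl e he he' with h2 | h2
                · exact Or.inr h2
                · rw [h1, h2]
                  exact hxG d e hde
    · intro t
      change yl (η t) = 1 ∨ x (Sum.inr t) = 1
      rcases hyl _ (hub t) (hηne t) with h2 | h2
      · exact Or.inl h2
      · rw [h2]
        exact hxp t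
    · intro j'
      exact hx.2 j'
    · rintro (w | t) h1 h2 h3 h4
      · change yl w = x (Sum.inl w)
        have h1' : w ≠ a := fun h => h1 (by rw [h])
        have h2' : w ≠ c := fun h => h2 (by rw [h])
        have h5 : ¬ (G.Adj a w ∨ G.Adj c w) := by
          rintro (h | h)
          · exact h3 ⟨fun h => h1 h.symm, Or.inl (Or.inl ⟨_, _, rfl, rfl, h⟩)⟩
          · exact h4 ⟨fun h => h2 h.symm, Or.inl (Or.inl ⟨_, _, rfl, rfl, h⟩)⟩
        simp only [yl, if_neg h1', if_neg h2', if_neg h5]
      · rfl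

/-- An edge from a hub to its pendant vertex. -/
private lemma patch_pend {V0 : Type*} [Fintype V0] [DecidableEq V0] {m b : ℕ}
    (G : SimpleGraph V0) (η : Fin m × Fin b → V0) (hη : Function.Injective η)
    (S0 : Fin m → Set (Fin b → ZMod 2)) (hS0 : ∀ j, Spans (S0 j))
    (j : Fin m) (l : Fin b) (p q : ZMod 2)
    (hpq : p = 1 ∨ q = 1) (x : Vx V0 m b → ZMod 2) (hx : x ∈ Tgt G η S0) :
    ∃ y ∈ Tgt G η S0, (∀ w, w ≠ Sum.inl (η (j, l)) → w ≠ Sum.inr (j, l) →
      ¬ (PendB G η).Adj (Sum.inl (η (j, l))) w →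
      ¬ (PendB G η).Adj (Sum.inr (j, l)) w → y w = x w) ∧ y (Sum.inl (η (j, l))) = p ∧
      y (Sum.inr (j, l)) = q := by
  classical
  have hxG : ∀ a c, G.Adj a c → x (Sum.inl a) = 1 ∨ x (Sum.inl c) = 1 := fun a c h =>
    hx.1 _ _ (Or.inl ⟨a, c, rfl, rfl, h⟩)
  have hxp : ∀ p, x (Sum.inl (η p)) = 1 ∨ x (Sum.inr p) = 1 := fun p =>
    hx.1 _ _ (Or.inr (Or.inl ⟨p, rfl, rfl⟩))
  obtain ⟨s, hs, hsl⟩ := patch_value (hS0 j) l q
  let yl : V0 → ZMod 2 := fun w => if w = η (j, l) then p else
    if G.Adj (η (j, l)) w then 1 else if ∃ l', w = η (j, l') then 1 else x (Sum.inl w)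
  have hyl : ∀ w, w ≠ η (j, l) → yl w = 1 ∨ yl w = x (Sum.inl w) := by
    intro w h1
    simp only [yl, if_neg h1]
    split_ifs
    · exact Or.inl rfl
    · exact Or.inl rfl
    · exact Or.inr rfl
  have hyl1 : ∀ w, w ≠ η (j, l) → G.Adj (η (j, l)) w → yl w = 1 := by
    intro w h1 h3
    simp only [yl, if_neg h1, if_pos h3]
  have hyl2 : ∀ l', (j, l') ≠ (j, l) → yl (η (j, l')) = 1 := by
    intro l' h1
    have h2 : η (j, l') ≠ η (j, l) := fun h => h1 (hη h)
    simp only [yl, if_neg h2]
    split_ifs with h3 h4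
    · rfl
    · rfl
    · exact absurd ⟨l', rfl⟩ h4
  let y : Vx V0 m b → ZMod 2 := Sum.elim yl (fun t => if t.1 = j then s t.2 else x (Sum.inr t))
  have ya : yl (η (j, l)) = p := by simp [yl]
  refine ⟨y, patch_mem G η S0 y ?_ ?_ ?_, ?_, ya, ?_⟩
  · intro d e hde
    change yl d = 1 ∨ yl e = 1
    by_cases hd : d = η (j, l)
    · subst hd
      exact Or.inr (hyl1 e (fun h => G.loopless.irrefl _ (h ▸ hde)) hde)
    · by_cases he : e = η (j, l)
      · subst he
        exact Or.inl (hyl1 d hd hde.symm)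
      · rcases hyl d hd with h1 | h1
        · exact Or.inl h1
        · rcases hyl e he with h2 | h2
          · exact Or.inr h2
          · rw [h1, h2]
            exact hxG d e hde
  · rintro ⟨j', l'⟩
    change yl (η (j', l')) = 1 ∨ (if j' = j then s l' else x (Sum.inr (j', l'))) = 1
    by_cases hj : j' = j
    · subst hj
      rw [if_pos rfl]
      by_cases hl : l' = l
      · subst hl
        rw [ya, hsl]
        exact hpq
      · exact Or.inl (hyl2 l' (fun h => hl (Prod.ext_iff.1 h).2))
    · rw [if_neg hj]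
      have h1 : η (j', l') ≠ η (j, l) := fun h => hj (Prod.ext_iff.1 (hη h)).1
      rcases hyl _ h1 with h2 | h2
      · exact Or.inl h2
      · rw [h2]
        exact hxp (j', l')
  · intro j'
    by_cases hj : j' = j
    · subst hj
      have : blk j' y = s := by
        funext l'
        simp [blk, y]
      rw [this]
      exact hs
    · have : blk j' y = blk j' x := by
        funext l'
        simp [blk, y, hj]
      rw [this]
      exact hx.2 j'
  · have hin : InBlk η j (Sum.inl (η (j, l))) := ⟨l, Or.inr rfl⟩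
    rintro (w | ⟨j', l'⟩) h1 h2 h3 h4
    · change yl w = x (Sum.inl w)
      have h1' : w ≠ η (j, l) := fun h => h1 (by rw [h])
      have h5 : ¬ G.Adj (η (j, l)) w := by
        intro h
        exact h3 ⟨fun h => h1 h.symm, Or.inl (Or.inl ⟨_, _, rfl, rfl, h⟩)⟩
      have h6 : ¬ ∃ l', w = η (j, l') := by
        rintro ⟨l', rfl⟩
        exact h3 ⟨fun h => h1 h.symm, Or.inr ⟨j, hin, ⟨l', Or.inr rfl⟩⟩⟩
      simp only [yl, if_neg h1', if_neg h5, if_neg h6]
    · change (if j' = j then s l' else x (Sum.inr (j', l'))) = _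
      have hj : j' ≠ j := by
        rintro rfl
        exact h3 ⟨fun h => h1 h.symm, Or.inr ⟨j', hin, ⟨l', Or.inl rfl⟩⟩⟩
      rw [if_neg hj]
  · change (if j = j then s l else x (Sum.inr (j, l))) = q
    rw [if_pos rfl, hsl]

/-- Every edge can be given each of its three patterns by changes near the edge. -/
theorem tgt_patch {V0 : Type*} [Fintype V0] [DecidableEq V0] {m b : ℕ} (G : SimpleGraph V0)
    (col : V0 → Bool) (hcol : ∀ u v, G.Adj u v → col u ≠ col v) (η : Fin m × Fin b → V0)
    (hη : Function.Injective η) (hηc : ∀ p, col (η p) = false)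
    (S0 : Fin m → Set (Fin b → ZMod 2)) (hne : ∀ j, (S0 j).Nonempty) (hS0 : ∀ j, Spans (S0 j))
    (u v : Vx V0 m b) (huv : (Pend G η).Adj u v) (p q : ZMod 2) (hpq : p = 1 ∨ q = 1)
    (x : Vx V0 m b → ZMod 2) (hx : x ∈ Tgt G η S0) :
    ∃ y ∈ Tgt G η S0, (∀ w, w ≠ u → w ≠ v → ¬ (PendB G η).Adj u w → ¬ (PendB G η).Adj v w →
      y w = x w) ∧ y u = p ∧ y v = q := by
  rcases huv with ⟨a, c, rfl, rfl, h⟩ | ⟨⟨j, l⟩, rfl, rfl⟩ | ⟨⟨j, l⟩, rfl, rfl⟩
  · by_cases hc : col c = true
    · exact patch_base G col η hη hηc S0 hS0 a c h hc p q hpq x hx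
    · have ha : col a = true := by
        have h1 := hcol a c h
        rw [Bool.not_eq_true] at hc
        rw [hc] at h1
        simpa using h1
      obtain ⟨y, hy, h1, h2, h3⟩ := patch_base G col η hη hηc S0 hS0 c a h.symm ha q p
        hpq.symm x hx
      exact ⟨y, hy, fun w h4 h5 h6 h7 => h1 w h5 h4 h7 h6, h3, h2⟩
  · exact patch_pend G η hη S0 hS0 j l p q hpq x hx
  · obtain ⟨y, hy, h1, h2, h3⟩ := patch_pend G η hη S0 hS0 j l q p hpq.symm x hx
    exact ⟨y, hy, fun w h4 h5 h6 h7 => h1 w h5 h4 h7 h6, h3, h2⟩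

/-- The degrees. -/
theorem pendB_degree {V0 : Type*} [Fintype V0] [DecidableEq V0] {m b D : ℕ} (G : SimpleGraph V0)
    (hD : ∀ v, (G.neighborSet v).ncard ≤ D) (η : Fin m × Fin b → V0)
    (hη : Function.Injective η) (v : Vx V0 m b) :
    ((PendB G η).neighborSet v).ncard ≤ D + 1 + 2 * b := by
  classical
  have huniq : ∀ j j', InBlk η j v → InBlk η j' v → j = j' := by
    rintro j j' ⟨l, hl | hl⟩ ⟨l', hl' | hl'⟩
    · rw [hl] at hl'
      exact (Prod.ext_iff.1 (Sum.inr_injective hl')).1
    · rw [hl] at hl'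
      exact absurd hl' (by simp)
    · rw [hl] at hl'
      exact absurd hl' (by simp)
    · rw [hl] at hl'
      exact (Prod.ext_iff.1 (hη (Sum.inl_injective hl'))).1
  obtain ⟨B, hBc, hB⟩ : ∃ B : Finset (Vx V0 m b), B.card ≤ 2 * b ∧
      ∀ j w, InBlk η j v → InBlk η j w → w ∈ B := by
    by_cases h : ∃ j, InBlk η j v
    · obtain ⟨j0, hj0⟩ := h
      refine ⟨(Finset.univ : Finset (Fin b)).image (fun l => (Sum.inr (j0, l) : Vx V0 m b)) ∪
        (Finset.univ : Finset (Fin b)).image (fun l => (Sum.inl (η (j0, l)) : Vx V0 m b)),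
        ?_, ?_⟩
      · refine (card_union_le _ _).trans ?_
        have h1 := card_image_le (s := (Finset.univ : Finset (Fin b)))
          (f := fun l => (Sum.inr (j0, l) : Vx V0 m b))
        have h2 := card_image_le (s := (Finset.univ : Finset (Fin b)))
          (f := fun l => (Sum.inl (η (j0, l)) : Vx V0 m b))
        rw [card_univ, Fintype.card_fin] at h1 h2
        omega
      · rintro j w hj ⟨l, hl⟩
        obtain rfl := huniq j j0 hj hj0
        rw [mem_union, mem_image, mem_image]
        rcases hl with hl | hl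
        · exact Or.inl ⟨l, mem_univ _, hl.symm⟩
        · exact Or.inr ⟨l, mem_univ _, hl.symm⟩
    · refine ⟨∅, by simp, fun j w hj _ => absurd ⟨j, hj⟩ h⟩
  obtain ⟨F, hFc, hF⟩ : ∃ F : Finset (Vx V0 m b), F.card ≤ D + 1 ∧
      ∀ w, (Pend G η).Adj v w → w ∈ F := by
    rcases v with a | p
    · refine ⟨((Finset.univ : Finset V0).filter fun c => G.Adj a c).image Sum.inl ∪
        ((Finset.univ : Finset (Fin m × Fin b)).filter fun p => η p = a).image Sum.inr, ?_, ?_⟩
      · refine (card_union_le _ _).trans (Nat.add_le_add (card_image_le.trans ?_)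
          (card_image_le.trans ?_))
        · refine le_trans (le_of_eq ?_) (hD a)
          rw [← Set.ncard_coe_finset]
          congr 1
          ext c
          simp [SimpleGraph.mem_neighborSet]
        · rw [card_le_one]
          intro p hp p' hp'
          rw [mem_filter] at hp hp'
          exact hη (hp.2.trans hp'.2.symm)
      · rintro w (⟨x, y, h1, rfl, h⟩ | ⟨p, h1, rfl⟩ | ⟨p, rfl, h1⟩)
        · obtain rfl := Sum.inl_injective h1
          rw [mem_union, mem_image]
          exact Or.inl ⟨y, mem_filter.2 ⟨mem_univ _, h⟩, rfl⟩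
        · have h2 := Sum.inl_injective h1
          rw [mem_union]
          right
          rw [mem_image]
          exact ⟨p, mem_filter.2 ⟨mem_univ _, h2.symm⟩, rfl⟩
        · exact absurd h1 (by simp)
    · refine ⟨{Sum.inl (η p)}, by simp, ?_⟩
      rintro w (⟨x, y, h1, rfl, h⟩ | ⟨p', h1, rfl⟩ | ⟨p', rfl, h1⟩)
      · exact absurd h1 (by simp)
      · exact absurd h1 (by simp)
      · rw [Sum.inr_injective h1]
        exact mem_singleton_self _
  have hsub : (PendB G η).neighborSet v ⊆ ((F ∪ B : Finset (Vx V0 m b)) : Set (Vx V0 m b)) := by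
    intro w hw
    rw [mem_coe, mem_union]
    rcases hw.2 with h | ⟨j, h1, h2⟩
    · exact Or.inl (hF w h)
    · exact Or.inr (hB j w h1 h2)
  calc ((PendB G η).neighborSet v).ncard
      ≤ ((F ∪ B : Finset (Vx V0 m b)) : Set (Vx V0 m b)).ncard :=
        Set.ncard_le_ncard hsub (Finset.finite_toSet _)
    _ = (F ∪ B).card := Set.ncard_coe_finset _
    _ ≤ F.card + B.card := card_union_le _ _
    _ ≤ D + 1 + 2 * b := Nat.add_le_add hFc hBc

end Pool.Agent.UniD
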