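import Pool.Agent.UniD.Defs
import Pool.Agent.UniD.Det
import Pool.Agent.UniD.AntiConc
import Pool.Agent.UniD.MixT
import Pool.Agent.UniD.LeafN
import Pool.Agent.UniD.Patch
import Pool.Agent.UniD.Moves
import Pool.Agent.UniD.LeafL
import Pool.Agent.RelD.Sum
import Pool.Agent.Helper91.Dich.Final3

/-!
The inequality of the path argument for programs with network leaves and leaves from a class.
-/

namespace Pool.Agent.UniD

open Finset Module Pool.Agent.Dichotomy Pool.Agent.RelD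

set_option linter.unusedSectionVars false

/-- The leaves of the programs: supports of tree tensor networks of width `W` and members of the
class. -/
def ULeaf (L : RelClass) {n : ℕ} (W : ℕ) (S : Set (Fin n → ZMod 2)) : Prop :=
  NetLeaf W S ∨ S ∈ L n

/-- **The main inequality.** -/
theorem main_boundU {L : RelClass} (hL : Minor L) {V0 : Type} [Fintype V0] [DecidableEq V0]
    {m b k N D : ℕ} (G : SimpleGraph V0) (hD : ∀ v, (G.neighborSet v).ncard ≤ D)
    (col : V0 → Bool) (hcol : ∀ u v, G.Adj u v → col u ≠ col v) (η : Fin m × Fin b → V0)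
    (hη : Function.Injective η) (hηc : ∀ p, col (η p) = false)
    (S0 : Fin m → Set (Fin b → ZMod 2)) (hne : ∀ j, (S0 j).Nonempty) (hS0 : ∀ j, Spans (S0 j))
    (hExp : ExpK 11 (Pend G η)) (hn : 48 ≤ Fintype.card (Vx V0 m b))
    (S1 : Set (Fin k → ZMod 2)) (hS1 : S1 ∉ L k)
    {Sl : Set (Fin N → ZMod 2)} {z0 z1 : Fin N} {emb : Vx V0 m b → Fin N}
    {emb2 : Fin m → Fin k → Fin N} {τ : Vx V0 m b → ZMod 2} {l0 : Fin N → ZMod 2}
    {Λ : (Vx V0 m b → ZMod 2) →ₗ[ZMod 2] (Fin N → ZMod 2)}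
    (hI1 : ∀ y ∈ Sl, y z0 = 0 → y z1 = 1 → ∃ x ∈ Tgt G η S0, y = l0 + Λ x)
    (hI2 : ∀ x ∈ Tgt G η S0, l0 + Λ x ∈ Sl) (hl0 : l0 z0 = 0) (hl1 : l0 z1 = 1)
    (hle : ∀ u, l0 (emb u) = τ u)
    (hΛ : ∀ x, Λ x z0 = 0 ∧ Λ x z1 = 0 ∧ ∀ u, Λ x (emb u) = x u)
    (hinj : ∀ j, Function.Injective (emb2 j))
    (h1 : ∀ j, ∀ x ∈ Tgt G η S0, (fun i => (l0 + Λ x) (emb2 j i)) ∈ S1)
    (h2 : ∀ j, ∀ s ∈ S1, ∃ u ∈ S0 j, ∀ x : Vx V0 m b → ZMod 2, blk j x = u →
      (fun i => (l0 + Λ x) (emb2 j i)) = s)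
    (a q kk t : ℕ) (hq : 1100 * q ≤ Fintype.card (Vx V0 m b))
    (ht : t ≤ (q + 1) / (D + 2 * b + 2))
    {g : Type} [Fintype g] {rk : g → ℕ} {W : ℕ} {M : g → Set (Fin N → ZMod 2)}
    (hM : IsProgL (ULeaf L W) rk M) {v : g} (hv : M v = Sl)
    (δ : ℝ) (hδ0 : 0 ≤ δ) (hδL : ((2 : ℝ) ^ (2 * b) / (2 ^ (2 * b) + 1)) ^ m ≤ δ)
    (hδ : (128 * (W : ℝ)) ^ (2 * (kk + 1)) *
      (2 ^ Fintype.card (Vx V0 m b) *
        ((2 ^ (D + 2 * b + 2) / (2 ^ (D + 2 * b + 2) + 1)) ^ t) ^ kk +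
        (2 ^ (D + 2 * b + 2) / (2 ^ (D + 2 * b + 2) + 1)) ^ t) ≤ δ ^ (4 * (kk + 1))) :
    ((Tgt G η S0).ncard : ℝ) ≤ (4 * (Fintype.card g : ℝ) *
        (2 ^ (2 * (D + 1 + 2 * b + 1)) / (2 ^ (2 * (D + 1 + 2 * b + 1)) + 1)) ^
          (a / 12 / (2 * (D + 1 + 2 * b + 1) ^ 2)) +
      4 * (Fintype.card g : ℝ) * (2 ^ a * δ)) * (Tgt G η S0).ncard +
      2 * (4 * (Fintype.card g : ℝ)) ^ 3 * ((2 : ℝ) ^ a) ^ 3 := by
  classical
  obtain ⟨T, hTd⟩ : ∃ T : Set (Vx V0 m b → ZMod 2), T = Tgt G η S0 := ⟨_, rfl⟩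
  have hTV : ∀ x ∈ T, x ∈ VC (Pend G η) := by
    intro x hx; rw [hTd] at hx; exact hx.1
  obtain ⟨D', hD'd⟩ : ∃ D', D' = D + 1 + 2 * b := ⟨_, rfl⟩
  rw [← hD'd]
  have hD' : ∀ v, ((PendB G η).neighborSet v).ncard ≤ D' := by
    intro v; rw [hD'd]; exact pendB_degree G hD η hη v
  obtain ⟨β, hβd⟩ : ∃ β : ℝ, β = ((2 : ℝ) ^ (2 * (D' + 1)) /
    (2 ^ (2 * (D' + 1)) + 1)) ^ (a / 12 / (2 * (D' + 1) ^ 2)) := ⟨_, rfl⟩
  rw [← hβd]
  have hβ0 : 0 ≤ β := by rw [hβd]; positivity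
  obtain ⟨A, hA⟩ : ∃ A : Set (Fin N → ZMod 2), A = cls z0 z1 (0, 1) Sl := ⟨_, rfl⟩
  have hAmem : ∀ y, y ∈ A ↔ ∃ x ∈ T, y = l0 + Λ x := by
    intro y
    rw [hA, hTd]
    constructor
    · rintro ⟨hy, h0, h1⟩; exact hI1 y hy h0 h1
    · rintro ⟨x, hx, rfl⟩
      refine ⟨hI2 x hx, ?_, ?_⟩
      · rw [Pi.add_apply, hl0, (hΛ x).1, add_zero]
      · rw [Pi.add_apply, hl1, (hΛ x).2.1, add_zero]
  have hΛinj : Function.Injective Λ := by
    intro x y h
    funext u
    rw [← (hΛ x).2.2 u, ← (hΛ y).2.2 u, h]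
  have hAimg : A = (fun x => l0 + Λ x) '' T := by
    ext y
    rw [hAmem]
    constructor
    · rintro ⟨x, hx, rfl⟩; exact ⟨x, hx, rfl⟩
    · rintro ⟨x, hx, rfl⟩; exact ⟨x, hx, rfl⟩
  have hlinj : Function.Injective fun x => l0 + Λ x :=
    fun x y h => hΛinj (add_left_cancel h)
  have hAcard : A.ncard = T.ncard := by
    rw [hAimg]; exact Set.ncard_image_of_injective _ hlinj
  -- the projection to the core
  let core : (Fin N → ZMod 2) → (Vx V0 m b → ZMod 2) := fun y u => y (emb u)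
  have hcadd : ∀ y y', core (y + y') = core y + core y' := fun _ _ => rfl
  have hcoreA : ∀ x, core (l0 + Λ x) = τ + x := by
    intro x; funext u
    show l0 (emb u) + Λ x (emb u) = τ u + x u
    rw [hle, (hΛ x).2.2]
  have hτ2 : ∀ x : Vx V0 m b → ZMod 2, τ + (τ + x) = x := by
    intro x; rw [← add_assoc, pi_add_self, zero_add]
  have hcoreinj : ∀ y ∈ A, ∀ y' ∈ A, core y = core y' → y = y' := by
    intro y hy y' hy' h
    obtain ⟨x, -, rfl⟩ := (hAmem y).1 hy
    obtain ⟨x', -, rfl⟩ := (hAmem y').1 hy'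
    rw [hcoreA, hcoreA] at h
    rw [add_left_cancel h]
  -- the class of the top
  have hprog := slice_isProg hM z0 z1
  have htop : cls z0 z1 ((v, ((0 : ZMod 2), (1 : ZMod 2))).2)
      (M ((v, ((0 : ZMod 2), (1 : ZMod 2))).1)) = A := by
    rw [hA]
    show cls z0 z1 (0, 1) (M v) = _
    rw [hv]
  have hstar : Star (Pend G η) Finset.univ a (a / 12) := star_of_expK _ hExp (by omega) a
  have hβ : ∀ U U' : Set (Fin N → ZMod 2), (∀ u ∈ U, ∀ v ∈ U', u + v ∈ A) →
      2 ^ a ≤ U.ncard → 2 ^ a ≤ U'.ncard → ((ssum U U').ncard : ℝ) ≤ β * A.ncard := by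
    intro U U' hUU hU hU'
    have hneU : ∀ U : Set (Fin N → ZMod 2), 2 ^ a ≤ U.ncard → U.Nonempty := by
      intro U hU
      exact (Set.ncard_pos (Set.toFinite _)).1 (lt_of_lt_of_le (by positivity) hU)
    obtain ⟨u0, hu0⟩ := hneU U hU
    obtain ⟨v0, hv0⟩ := hneU U' hU'
    have hin : Set.InjOn (fun y => τ + core y) U := by
      intro y hy y' hy' h
      have h1 : core y = core y' := add_left_cancel h
      have h2 := hcoreinj _ (hUU y hy v0 hv0) _ (hUU y' hy' v0 hv0) (by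
        rw [hcadd, hcadd, h1])
      exact add_right_cancel h2
    have hin' : Set.InjOn core U' := by
      intro y hy y' hy' h
      have h2 := hcoreinj _ (hUU u0 hu0 y hy) _ (hUU u0 hu0 y' hy') (by
        rw [hcadd, hcadd, h])
      exact add_left_cancel h2
    have hs := sumset_gen (Pend G η) (PendB G η) D' hD'
      (fun u v huv => ⟨(Pend G η).ne_of_adj huv, Or.inl huv⟩) T hTV (by
        intro u v huv p q hpq x hx
        rw [hTd] at hx ⊢
        exact tgt_patch G col hcol η hη hηc S0 hne hS0 u v huv p q hpq x hx)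
      Finset.univ a (a / 12) hstar ((fun y => τ + core y) '' U) (core '' U') (by
        rintro _ ⟨y, hy, rfl⟩ _ ⟨y', hy', rfl⟩
        obtain ⟨x, hx, hyy⟩ := (hAmem _).1 (hUU y hy y' hy')
        have : τ + core y + core y' = x := by
          rw [add_assoc, ← hcadd, hyy, hcoreA, hτ2]
        show τ + core y + core y' ∈ T
        rw [this]; exact hx)
      (by rw [pat_univ, hin.ncard_image]; exact hU)
      (by rw [pat_univ, hin'.ncard_image]; exact hU')
    rw [hAcard, hβd]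
    refine le_trans ?_ hs
    have hin2 : Set.InjOn (fun y => τ + core y) (ssum U U') := by
      rintro y ⟨u, hu, w, hw, rfl⟩ y' ⟨u', hu', w', hw', rfl⟩ h
      exact hcoreinj _ (hUU u hu w hw) _ (hUU u' hu' w' hw') (add_left_cancel h)
    rw [← hin2.ncard_image]
    have h5 : (fun y => τ + core y) '' (ssum U U') ⊆
        ssum ((fun y => τ + core y) '' U) (core '' U') := by
      rintro _ ⟨_, ⟨u, hu, w, hw, rfl⟩, rfl⟩
      exact ⟨_, ⟨u, hu, rfl⟩, _, ⟨w, hw, rfl⟩, by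
        show τ + core (u + w) = τ + core u + core w
        rw [hcadd, add_assoc]⟩
    exact_mod_cast Set.ncard_le_ncard h5 (Set.toFinite _)
  -- the target as a finite set
  obtain ⟨Tf, hTf⟩ : ∃ Tf : Finset (Vx V0 m b → ZMod 2), ∀ x, x ∈ Tf ↔ x ∈ T :=
    ⟨(Set.toFinite T).toFinset, fun x => by rw [Set.Finite.mem_toFinset]⟩
  have hTfc : (Tf.card : ℝ) = (T.ncard : ℝ) := by
    have : T = (Tf : Set (Vx V0 m b → ZMod 2)) := by
      ext x; rw [Finset.mem_coe, hTf]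
    rw [this, Set.ncard_coe_finset]
  obtain ⟨ρ, hρd⟩ : ∃ ρ : ℝ, ρ = (2 : ℝ) ^ (D + 2 * b + 2) / (2 ^ (D + 2 * b + 2) + 1) := ⟨_, rfl⟩
  rw [← hρd] at hδ
  have hρ0 : 0 ≤ ρ := by rw [hρd]; positivity
  have hac : ∀ (M : Submodule (ZMod 2) (Vx V0 m b → ZMod 2)) (c : Vx V0 m b → ZMod 2) (t : ℕ),
      t ≤ (Fintype.card (Vx V0 m b) - finrank (ZMod 2) M) / (D + 2 * b + 2) →
      (({x | x ∈ Tf ∧ x + c ∈ M} : Set (Vx V0 m b → ZMod 2)).ncard : ℝ) ≤ ρ ^ t * Tf.card := by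
    intro M c t ht
    have h3 := anticonc_gen T (D + 2 * b + 2) (by
      rw [hTd]; exact tgt_moves G hD col hcol η hη hηc S0 hne hS0) M c t ht
    rw [hTfc, hρd]
    have h4 : ({x | x ∈ Tf ∧ x + c ∈ M} : Set (Vx V0 m b → ZMod 2)) =
        {x | x ∈ T ∧ x + c ∈ M} := by
      ext x
      show x ∈ Tf ∧ x + c ∈ M ↔ x ∈ T ∧ x + c ∈ M
      rw [hTf]
    rw [h4]; exact h3
  have hmb : ∀ P Q : (Vx V0 m b → ZMod 2) →ₗ[ZMod 2] (Vx V0 m b → ZMod 2),
      (∀ z, P z + Q z = z) →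
      Fintype.card (Vx V0 m b) ≤ 4 * finrank (ZMod 2) (LinearMap.range P) →
      Fintype.card (Vx V0 m b) ≤ 4 * finrank (ZMod 2) (LinearMap.range Q) →
      ∀ _ : (∀ x y, Decidable (P x + Q y ∈ VC (Pend G η))),
      ((((Tf ×ˢ Tf).filter fun p => P p.1 + Q p.2 ∈ VC (Pend G η)).card : ℝ)) ^ (2 * (kk + 1)) ≤
        (2 ^ Fintype.card (Vx V0 m b) * (ρ ^ t) ^ kk + ρ ^ t) *
          (Tf.card : ℝ) ^ (4 * (kk + 1)) := by
    intro P Q hPQ hP hQ inst
    exact mixing_gen hn (κ := 11) (by norm_num) (Pend G η) hExp Tf ρ hρ0 (D + 2 * b + 2) hac P Q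
      hPQ hP hQ q (by omega) kk t ht
  have hlam : ∀ S' : Set (Fin N → ZMod 2), (∃ S ζ, ULeaf L W S ∧ S' = cls z0 z1 ζ S) →
      (ctx A S').ncard < 2 ^ a →
      ((ssum (ctx A S') S').ncard : ℝ) ≤ (2 ^ a * δ) * A.ncard := by
    rintro S' ⟨S, ζ, hleaf, hS'⟩ hctx
    have hstep : ∀ c ∈ ctx A S', (S'.ncard : ℝ) ≤ δ * A.ncard := by
      intro c hc
      let X : Finset (Vx V0 m b → ZMod 2) := Tf.filter fun x => c + (l0 + Λ x) ∈ S'
      have hXc : S'.ncard = X.card := by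
        have h1 : (fun x => c + (l0 + Λ x)) '' (X : Set (Vx V0 m b → ZMod 2)) = S' := by
          ext y
          constructor
          · rintro ⟨x, hx, rfl⟩
            exact (mem_filter.1 (Finset.mem_coe.1 hx)).2
          · intro hy
            obtain ⟨x, hx, hxy⟩ := (hAmem _).1 (hc y hy)
            have h2 : c + (l0 + Λ x) = y := by
              rw [← hxy, ← add_assoc, pi_add_self, zero_add]
            refine ⟨x, Finset.mem_coe.2 (mem_filter.2 ⟨(hTf x).2 hx, ?_⟩), h2⟩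
            show c + (l0 + Λ x) ∈ S'
            rw [h2]; exact hy
        rw [← h1, Set.ncard_image_of_injective, Set.ncard_coe_finset]
        intro x y h
        exact hlinj (add_left_cancel h)
      rw [hXc, hAcard]
      rcases hleaf with ⟨K, _, f, e, U, hf, hU, hfU⟩ | hSL
      · have hb := leaf_bound_gen hn (Pend G η) Tf (fun x hx => hTV x ((hTf x).1 hx)) kk _ hmb
          (S0 := Sl) (z0 := z0) (z1 := z1) (emb := emb) (l0 := l0) (Λ := Λ) (by
            intro y hy h0 h1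
            obtain ⟨x, hx, hxy⟩ := hI1 y hy h0 h1
            exact ⟨x, hx.1, hxy⟩) hΛ f e W U hU hfU ζ c (by
            intro y hy h0 h1
            have hyS : y ∈ S' := by
              rw [hS']; exact ⟨(hf y).1 hy, h0, h1⟩
            obtain h2 := hc y hyS
            rw [hA] at h2
            exact ⟨h2.1, h2.2.1, h2.2.2⟩) X (filter_subset _ _) (by
            intro x hx
            have h1 := (mem_filter.1 hx).2
            rw [hS'] at h1
            exact ⟨(hf _).2 h1.1, h1.2.1, h1.2.2⟩)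
        have h3 : (X.card : ℝ) ^ (4 * (kk + 1)) ≤ (δ * T.ncard) ^ (4 * (kk + 1)) := by
          refine hb.trans ?_
          rw [← mul_assoc, hTfc, mul_pow δ]
          exact mul_le_mul_of_nonneg_right hδ (by positivity)
        exact (pow_le_pow_iff_left₀ (Nat.cast_nonneg _) (by positivity) (by omega)).1 h3
      · have hb := leaf_bound_class hL G col hcol η hη hηc S0 S1 hS1 (z0 := z0) (z1 := z1)
          (l0 := l0) (Λ := Λ) emb2 hinj h1 h2 S hSL ζ c (by
            intro y hy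
            have h3 := (hAmem _).1 (hc y (by rw [hS']; exact hy))
            rw [hTd] at h3
            exact h3) (X : Set (Vx V0 m b → ZMod 2)) (by
            intro x hx
            rw [← hTd]
            exact (hTf x).1 (mem_filter.1 (Finset.mem_coe.1 hx)).1) (by
            intro x hx
            rw [← hS']
            exact (mem_filter.1 (Finset.mem_coe.1 hx)).2)
        rw [Set.ncard_coe_finset, ← hTd] at hb
        exact hb.trans (mul_le_mul_of_nonneg_right hδL (Nat.cast_nonneg _))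
    rcases (ctx A S').eq_empty_or_nonempty with he | ⟨c, hc⟩
    · have : ssum (ctx A S') S' = ∅ := by
        rw [he]
        ext z
        constructor
        · rintro ⟨u, hu, -⟩; exact absurd hu (Set.notMem_empty _)
        · intro h; exact absurd h (Set.notMem_empty _)
      rw [this, Set.ncard_empty, Nat.cast_zero]
      positivity
    · have h4 := hstep c hc
      have h5 : ((ssum (ctx A S') S').ncard : ℝ) ≤ (ctx A S').ncard * S'.ncard := by
        exact_mod_cast ssum_ncard (ctx A S') S'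
      have h6 : ((ctx A S').ncard : ℝ) ≤ 2 ^ a := by exact_mod_cast hctx.le
      calc ((ssum (ctx A S') S').ncard : ℝ) ≤ (ctx A S').ncard * S'.ncard := h5
        _ ≤ 2 ^ a * (δ * A.ncard) := mul_le_mul h6 h4 (Nat.cast_nonneg _) (by positivity)
        _ = _ := by ring
  have hpb := path_bound3 (fun w : g × (ZMod 2 × ZMod 2) => rk w.1) (2 ^ a) Nat.one_le_two_pow
    (fun w => cls z0 z1 w.2 (M w.1)) hprog A (v, (0, 1)) htop β (2 ^ a * δ) hβ0 (by positivity)
    hβ hlam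
  have hc4 : (Fintype.card (g × (ZMod 2 × ZMod 2)) : ℝ) = 4 * (Fintype.card g : ℝ) := by
    rw [Fintype.card_prod, Fintype.card_prod, ZMod.card]; push_cast; ring
  rw [hc4, hAcard] at hpb
  push_cast at hpb
  rw [← hTd]
  linarith

end Pool.Agent.UniD
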