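import Pool.Agent.UniD.Defs

namespace Pool.Agent.UniD

open Finset Module Pool.Agent.Dichotomy

/-- Pendant vertices keep the expansion. -/
theorem expK_pend {V0 : Type*} [Fintype V0] [DecidableEq V0] {m b : ℕ} (G : SimpleGraph V0)
    (hG : Exp G) (η : Fin m × Fin b → V0) (hη : Function.Injective η)
    (hJ : 2 * (m * b) ≤ Fintype.card V0) : ExpK 11 (Pend G η) := by
  classical
  intro S hS
  have hcard : Fintype.card (Vx V0 m b) = Fintype.card V0 + m * b := by
    simp [Vx]
  rw [hcard] at hS
  set n0 : ℕ := Fintype.card V0 with hn0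
  set B : Finset (Vx V0 m b) := bd (Pend G η) S with hB
  have hBc : B.toLeft.card + B.toRight.card = B.card := Finset.card_toLeft_add_card_toRight
  have hSc : S.toLeft.card + S.toRight.card = S.card := Finset.card_toLeft_add_card_toRight
  -- the boundary in the base graph
  have h1 : bd G S.toLeft ⊆ B.toLeft := by
    intro t ht
    obtain ⟨ht1, s, hs, hadj⟩ := mem_bd.1 ht
    rw [Finset.mem_toLeft] at ht1 hs ⊢
    exact mem_bd.2 ⟨ht1, Sum.inl s, hs, Or.inl ⟨s, t, rfl, rfl, hadj⟩⟩
  have h1c : (bd G S.toLeft).card ≤ B.card := by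
    have := Finset.card_le_card h1
    omega
  -- the pendants
  have h2 : (S.toRight.filter fun q => η q ∉ S.toLeft).card ≤ B.toLeft.card := by
    rw [← Finset.card_image_of_injective _ hη]
    apply Finset.card_le_card
    intro t ht
    obtain ⟨q, hq, rfl⟩ := Finset.mem_image.1 ht
    obtain ⟨hq1, hq2⟩ := Finset.mem_filter.1 hq
    rw [Finset.mem_toRight] at hq1
    rw [Finset.mem_toLeft] at hq2 ⊢
    exact mem_bd.2 ⟨hq2, Sum.inr q, hq1, Or.inr (Or.inr ⟨q, rfl, rfl⟩)⟩
  have h3 : (S.toRight.filter fun q => ¬ η q ∉ S.toLeft).card ≤ S.toLeft.card := by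
    rw [← Finset.card_image_of_injective _ hη]
    apply Finset.card_le_card
    intro t ht
    obtain ⟨q, hq, rfl⟩ := Finset.mem_image.1 ht
    exact not_not.1 (Finset.mem_filter.1 hq).2
  have h4 := Finset.card_filter_add_card_filter_not (s := S.toRight) (fun q => η q ∉ S.toLeft)
  have h5 : S.toRight.card ≤ S.toLeft.card + B.card := by omega
  by_cases hc : 2 * S.toLeft.card ≤ n0
  · have := hG S.toLeft hc
    omega
  · set C' : Finset V0 := univ.filter fun v => v ∉ S.toLeft ∧ v ∉ bd G S.toLeft with hC'
    have h6 : bd G C' ⊆ bd G S.toLeft := by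
      intro t ht
      obtain ⟨ht1, s, hs, hadj⟩ := mem_bd.1 ht
      have hs' := (Finset.mem_filter.1 hs).2
      by_contra hcon
      apply ht1
      refine Finset.mem_filter.2 ⟨mem_univ _, ?_, hcon⟩
      intro htS
      exact hs'.2 (mem_bd.2 ⟨hs'.1, t, htS, hadj.symm⟩)
    have h6c := Finset.card_le_card h6
    have h7 : (univ : Finset V0) ⊆ S.toLeft ∪ (bd G S.toLeft ∪ C') := by
      intro v _
      rw [Finset.mem_union, Finset.mem_union]
      by_cases a1 : v ∈ S.toLeft
      · exact Or.inl a1
      · by_cases a2 : v ∈ bd G S.toLeft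
        · exact Or.inr (Or.inl a2)
        · exact Or.inr (Or.inr (Finset.mem_filter.2 ⟨mem_univ _, a1, a2⟩))
    have h8 : n0 ≤ S.toLeft.card + ((bd G S.toLeft).card + C'.card) := by
      have a1 := Finset.card_le_card h7
      have a2 := Finset.card_union_le S.toLeft (bd G S.toLeft ∪ C')
      have a3 := Finset.card_union_le (bd G S.toLeft) C'
      rw [Finset.card_univ] at a1
      omega
    have h9 : S.toLeft.card + C'.card ≤ n0 := by
      have hd : Disjoint S.toLeft C' := by
        rw [Finset.disjoint_left]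
        intro v hv1 hv2
        exact (Finset.mem_filter.1 hv2).2.1 hv1
      rw [← Finset.card_union_of_disjoint hd]
      exact Finset.card_le_univ _
    have h10 := hG C' (by omega)
    omega

end Pool.Agent.UniD
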