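import Pool.Agent.UniD.Defs

namespace Pool.Agent.UniD

open Finset Module Pool.Agent.Dichotomy

/-- **Bipartite expanders**, with a bound for both sides. -/
theorem exists_expander2 {DD : ℕ} (hDD : DD = 12768) (m : ℕ) (hm : 48 ≤ m) :
    ∃ (V : Type) (_ : Fintype V) (_ : DecidableEq V) (G : SimpleGraph V) (E : Finset (V × V))
      (col : V → Bool), (∀ p ∈ E, G.Adj p.1 p.2) ∧ (∀ u v, G.Adj u v → (u, v) ∈ E ∨ (v, u) ∈ E) ∧
      (∀ p ∈ E, col p.1 = true ∧ col p.2 = false) ∧
      E.card ≤ DD * m ∧ (∀ v, (G.neighborSet v).ncard ≤ 96 * DD) ∧ Exp G ∧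
      Fintype.card V ≤ 2 * m ∧ 47 * m ≤ 24 * Fintype.card V ∧
      23 * m ≤ 24 * (Finset.univ.filter fun v => col v = false).card ∧
      23 * m ≤ 24 * (Finset.univ.filter fun v => col v = true).card := by
  classical
  obtain ⟨G0, E0, hE0, hEG0, hcol0, hEc0, hdeg0, hmix⟩ := exists_bipartite hDD m (by omega)
  -- the bad set
  obtain ⟨S, hSm, hSb, hSmax⟩ : ∃ S : Finset (Fin m ⊕ Fin m), S.card ≤ m ∧
      5 * (bd G0 S).card ≤ 2 * S.card ∧ ∀ U : Finset (Fin m ⊕ Fin m), U.card ≤ m →
        5 * (bd G0 U).card ≤ 2 * U.card → U.card ≤ S.card := by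
    obtain ⟨F, hF⟩ : ∃ F : Finset (Finset (Fin m ⊕ Fin m)), ∀ C, C ∈ F ↔
        C.card ≤ m ∧ 5 * (bd G0 C).card ≤ 2 * C.card :=
      ⟨univ.filter fun C => C.card ≤ m ∧ 5 * (bd G0 C).card ≤ 2 * C.card, by intro C; simp⟩
    have hne : F.Nonempty := by
      refine ⟨∅, (hF _).2 ⟨by simp, ?_⟩⟩
      have : bd G0 (∅ : Finset (Fin m ⊕ Fin m)) = ∅ := by
        ext t; rw [mem_bd]; simp
      rw [this]; simp
    obtain ⟨S, hS, hmax⟩ := exists_max_image F card hne
    exact ⟨S, ((hF _).1 hS).1, ((hF _).1 hS).2, fun U h h' => hmax U ((hF _).2 ⟨h, h'⟩)⟩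
  have hS24 : 24 * S.card < m := by
    by_contra hcon
    push Not at hcon
    have := mixing_bd hm G0 hmix S hSm hcon
    omega
  let V : Type := {v : Fin m ⊕ Fin m // v ∉ S}
  let G : SimpleGraph V := G0.comap Subtype.val
  let E : Finset (V × V) := univ.filter fun p => (p.1.1, p.2.1) ∈ E0
  let col : V → Bool := fun v => v.1.isLeft
  have hcardV : Fintype.card V + S.card = 2 * m := by
    have h1 : Fintype.card V = (univ \ S).card := by
      rw [Fintype.card_subtype]
      congr 1
      ext v; simp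
    have h2 := card_sdiff_add_card_eq_card (subset_univ S)
    rw [card_univ, Fintype.card_sum, Fintype.card_fin] at h2
    omega
  refine ⟨V, inferInstance, inferInstance, G, E, col, ?_, ?_, ?_, ?_, ?_, ?_, ?_, ?_, ?_, ?_⟩
  · intro p hp
    exact hE0 _ (mem_filter.1 hp).2
  · intro u v huv
    rcases hEG0 u.1 v.1 huv with h | h
    · exact Or.inl (mem_filter.2 ⟨mem_univ _, h⟩)
    · exact Or.inr (mem_filter.2 ⟨mem_univ _, h⟩)
  · intro p hp
    exact hcol0 _ (mem_filter.1 hp).2
  · refine le_trans ?_ hEc0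
    refine Finset.card_le_card_of_injOn (fun p : V × V => (p.1.1, p.2.1)) ?_ ?_
    · intro p hp
      exact (mem_filter.1 (Finset.mem_coe.1 hp)).2
    · intro p _ p' _ h
      have h1 := congrArg Prod.fst h
      have h2 := congrArg Prod.snd h
      exact Prod.ext (Subtype.ext h1) (Subtype.ext h2)
  · intro v
    refine le_trans ?_ (hdeg0 v.1)
    refine Set.ncard_le_ncard_of_injOn Subtype.val ?_ ?_ (Set.toFinite _)
    · intro w hw; exact hw
    · intro a _ b _ h; exact Subtype.ext h
  · -- expansion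
    intro X hX
    by_contra hcon
    push Not at hcon
    let X' : Finset (Fin m ⊕ Fin m) := X.map (Function.Embedding.subtype _)
    have memX' : ∀ v, v ∈ X' ↔ ∃ h : v ∉ S, (⟨v, h⟩ : V) ∈ X := by
      intro v
      simp only [X', Finset.mem_map, Function.Embedding.subtype_apply]
      constructor
      · rintro ⟨a, ha, rfl⟩; exact ⟨a.2, ha⟩
      · rintro ⟨h, hx⟩; exact ⟨⟨v, h⟩, hx, rfl⟩
    have hX'c : X'.card = X.card := card_map _
    have hXm : X.card ≤ m := by omega
    let B' : Finset (Fin m ⊕ Fin m) := (bd G X).map (Function.Embedding.subtype _)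
    have memB' : ∀ v, v ∈ B' ↔ ∃ h : v ∉ S, (⟨v, h⟩ : V) ∈ bd G X := by
      intro v
      simp only [B', Finset.mem_map, Function.Embedding.subtype_apply]
      constructor
      · rintro ⟨a, ha, rfl⟩; exact ⟨a.2, ha⟩
      · rintro ⟨h, hx⟩; exact ⟨⟨v, h⟩, hx, rfl⟩
    have hB'c : B'.card = (bd G X).card := card_map _
    have hdisj : Disjoint X' S := by
      rw [Finset.disjoint_left]
      intro v hv hvS
      obtain ⟨h, -⟩ := (memX' v).1 hv
      exact h hvS
    have hUc : (X' ∪ S).card = X.card + S.card := by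
      rw [card_union_of_disjoint hdisj, hX'c]
    have hbdX : bd G0 X' ⊆ B' ∪ S := by
      intro t ht
      obtain ⟨ht1, s, hs, hadj⟩ := mem_bd.1 ht
      by_cases htS : t ∈ S
      · exact mem_union_right _ htS
      · refine mem_union_left _ ((memB' t).2 ⟨htS, ?_⟩)
        obtain ⟨hsS, hsX⟩ := (memX' s).1 hs
        refine mem_bd.2 ⟨fun h => ht1 ((memX' t).2 ⟨htS, h⟩), ⟨s, hsS⟩, hsX, hadj⟩
    have hbdU : bd G0 (X' ∪ S) ⊆ B' ∪ bd G0 S := by
      intro t ht
      obtain ⟨ht1, s, hs, hadj⟩ := mem_bd.1 ht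
      rw [mem_union, not_or] at ht1
      rcases mem_union.1 hs with h | h
      · have h2 := hbdX (mem_bd.2 ⟨ht1.1, s, h, hadj⟩)
        rcases mem_union.1 h2 with h3 | h3
        · exact mem_union_left _ h3
        · exact absurd h3 ht1.2
      · exact mem_union_right _ (mem_bd.2 ⟨ht1.2, s, h, hadj⟩)
    have c1 := (card_le_card hbdX).trans (card_union_le _ _)
    have c2 := (card_le_card hbdU).trans (card_union_le _ _)
    rw [hB'c] at c1 c2
    rcases Nat.lt_or_ge m (X' ∪ S).card with h | h
    · have h3 := mixing_bd hm G0 hmix X' (by rw [hX'c]; exact hXm) (by rw [hX'c]; omega)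
      omega
    · have h3 := hSmax (X' ∪ S) h (by omega)
      omega
  · omega
  · omega
  · have h1 : (univ : Finset (Fin m)).card ≤
        (Finset.univ.filter fun v : V => col v = false).card + S.card := by
      have h2 : ((univ : Finset (Fin m)).map ⟨Sum.inr, Sum.inr_injective⟩ :
          Finset (Fin m ⊕ Fin m)) ⊆ ((Finset.univ.filter fun v : V => col v = false).map
            (Function.Embedding.subtype _)) ∪ S := by
        intro v hv
        rw [Finset.mem_map] at hv
        obtain ⟨j, -, rfl⟩ := hv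
        by_cases h : (Sum.inr j : Fin m ⊕ Fin m) ∈ S
        · exact mem_union_right _ h
        · refine mem_union_left _ ?_
          rw [Finset.mem_map]
          exact ⟨⟨Sum.inr j, h⟩, mem_filter.2 ⟨mem_univ _, rfl⟩, rfl⟩
      have h3 := (card_le_card h2).trans (card_union_le _ _)
      rw [card_map, card_map] at h3
      exact h3
    rw [card_univ, Fintype.card_fin] at h1
    omega
  · have h1 : (univ : Finset (Fin m)).card ≤
        (Finset.univ.filter fun v : V => col v = true).card + S.card := by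
      have h2 : ((univ : Finset (Fin m)).map ⟨Sum.inl, Sum.inl_injective⟩ :
          Finset (Fin m ⊕ Fin m)) ⊆ ((Finset.univ.filter fun v : V => col v = true).map
            (Function.Embedding.subtype _)) ∪ S := by
        intro v hv
        rw [Finset.mem_map] at hv
        obtain ⟨j, -, rfl⟩ := hv
        by_cases h : (Sum.inl j : Fin m ⊕ Fin m) ∈ S
        · exact mem_union_right _ h
        · refine mem_union_left _ ?_
          rw [Finset.mem_map]
          exact ⟨⟨Sum.inl j, h⟩, mem_filter.2 ⟨mem_univ _, rfl⟩, rfl⟩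
      have h3 := (card_le_card h2).trans (card_union_le _ _)
      rw [card_map, card_map] at h3
      exact h3
    rw [card_univ, Fintype.card_fin] at h1
    omega

end Pool.Agent.UniD
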