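import Pool.Agent.UniD.Defs
import Pool.Agent.UniD.Basis
import Pool.Agent.Helper91.Dich.Lift3

namespace Pool.Agent.UniD

open Finset Module Pool.Agent.Dichotomy

/-- The graph of the instance: every variable `ι l` of a block is joined to its hub. -/
private def instGraph {V0 : Type} {m b k : ℕ} (G : SimpleGraph V0) (η : Fin m × Fin b → V0)
    (ι : Fin b → Fin k) : SimpleGraph (V0 ⊕ (Fin m × Fin k)) where
  Adj u v := (∃ x y, u = Sum.inl x ∧ v = Sum.inl y ∧ G.Adj x y) ∨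
    (∃ j l, u = Sum.inl (η (j, l)) ∧ v = Sum.inr (j, ι l)) ∨
    (∃ j l, v = Sum.inl (η (j, l)) ∧ u = Sum.inr (j, ι l))
  symm := ⟨by
    rintro u v (⟨x, y, rfl, rfl, h⟩ | ⟨j, l, rfl, rfl⟩ | ⟨j, l, rfl, rfl⟩)
    · exact Or.inl ⟨y, x, rfl, rfl, h.symm⟩
    · exact Or.inr (Or.inr ⟨j, l, rfl, rfl⟩)
    · exact Or.inr (Or.inl ⟨j, l, rfl, rfl⟩)⟩
  loopless := ⟨by
    rintro u (⟨x, y, rfl, h, h'⟩ | ⟨j, l, rfl, h⟩ | ⟨j, l, rfl, h⟩)
    · cases h
      exact G.loopless.irrefl _ h'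
    · cases h
    · cases h⟩

private lemma inst_add_self (x : ZMod 2) : x + x = 0 := CharTwo.add_self_eq_zero x

private lemma inst_spans {k b : ℕ} (S : Set (Fin k → ZMod 2)) (ι : Fin b → Fin k)
    (t : Fin k → ZMod 2) (h : Spans {u | ∃ s ∈ S, u = fun l => s (ι l)}) :
    Spans {u | ∃ s ∈ S, u = fun l => s (ι l) + t (ι l)} := by
  unfold Spans at h ⊢
  rw [← h]
  congr 1
  ext d
  simp only [Set.mem_ofPred_eq]
  constructor
  · rintro ⟨_, ⟨s, hs, rfl⟩, _, ⟨s', hs', rfl⟩, rfl⟩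
    refine ⟨_, ⟨s, hs, rfl⟩, _, ⟨s', hs', rfl⟩, ?_⟩
    funext l
    simp only [Pi.add_apply]
    have := inst_add_self (t (ι l))
    linear_combination this
  · rintro ⟨_, ⟨s, hs, rfl⟩, _, ⟨s', hs', rfl⟩, rfl⟩
    refine ⟨_, ⟨s, hs, rfl⟩, _, ⟨s', hs', rfl⟩, ?_⟩
    funext l
    simp only [Pi.add_apply]
    have := inst_add_self (t (ι l))
    linear_combination -this

/-- **The instance.**  After fixing two variables to `0` and `1` its solutions are exactly the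
images of the elements of the target under an affine map; the variables `emb2 j` of the block `j`
carry the instance `I0`. -/
theorem exists_lift_blocks {Γ : Language} {k : ℕ} (I0 : List (Constraint k)) (hI0 : Over Γ I0)
    (hne : (Sol I0).Nonempty) {r : ℕ} {R : Set (Fin r → ZMod 2)}
    (hRΓ : (⟨r, R⟩ : Σ r : ℕ, Set (Fin r → ZMod 2)) ∈ Γ) (hR : ¬ IsAffine R) :
    ∃ b : ℕ, b ≤ k ∧ ∀ (V0 : Type) (_ : Fintype V0) (_ : DecidableEq V0) (G : SimpleGraph V0)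
      (E : Finset (V0 × V0)), (∀ p ∈ E, G.Adj p.1 p.2) →
      (∀ u v, G.Adj u v → (u, v) ∈ E ∨ (v, u) ∈ E) → ∀ col : V0 → Bool,
      (∀ p ∈ E, col p.1 = true ∧ col p.2 = false) → ∀ (m : ℕ) (η : Fin m × Fin b → V0),
      (∀ p, col (η p) = false) → ∀ N : ℕ,
      Fintype.card V0 + m * k + 2 + r * (E.card + m * b) ≤ N →
      ∃ (I : List (Constraint N)) (z0 z1 : Fin N) (emb : Vx V0 m b → Fin N)
        (emb2 : Fin m → Fin k → Fin N) (τ : Vx V0 m b → ZMod 2) (l0 : Fin N → ZMod 2)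
        (Λ : (Vx V0 m b → ZMod 2) →ₗ[ZMod 2] (Fin N → ZMod 2))
        (S0 : Fin m → Set (Fin b → ZMod 2)),
        Over Γ I ∧ I.length ≤ E.card + m * b + N + m * I0.length ∧
        (∀ j, (S0 j).Nonempty) ∧ (∀ j, Spans (S0 j)) ∧
        (∀ y ∈ Sol I, y z0 = 0 → y z1 = 1 → ∃ x ∈ Tgt G η S0, y = l0 + Λ x) ∧
        (∀ x ∈ Tgt G η S0, l0 + Λ x ∈ Sol I) ∧ l0 z0 = 0 ∧ l0 z1 = 1 ∧
        (∀ u, l0 (emb u) = τ u) ∧
        (∀ x, Λ x z0 = 0 ∧ Λ x z1 = 0 ∧ ∀ u, Λ x (emb u) = x u) ∧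
        (∀ j, Function.Injective (emb2 j)) ∧
        (∀ j, ∀ x ∈ Tgt G η S0, (fun i => (l0 + Λ x) (emb2 j i)) ∈ Sol I0) ∧
        (∀ j, ∀ s ∈ Sol I0, ∃ u ∈ S0 j, ∀ x : Vx V0 m b → ZMod 2, blk j x = u →
          (fun i => (l0 + Λ x) (emb2 j i)) = s) := by
  classical
  obtain ⟨b, ι, a, M, hbk, hι, hM, ha, hs, hsp⟩ := exists_basis_coords (Sol I0) hne
  refine ⟨b, hbk, ?_⟩
  intro V0 _ _ G E hE hEG col hcol m η hηc N hN
  set E2 : Finset ((V0 ⊕ (Fin m × Fin k)) × (V0 ⊕ (Fin m × Fin k))) :=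
    E.image (fun p => (Sum.inl p.1, Sum.inl p.2)) ∪
    (Finset.univ : Finset (Fin m × Fin b)).image
      (fun t => (Sum.inr (t.1, ι t.2), Sum.inl (η t))) with hE2
  have hE2c : E2.card ≤ E.card + m * b := by
    refine (card_union_le _ _).trans (Nat.add_le_add card_image_le (card_image_le.trans ?_))
    simp
  have hE2m : ∀ p, p ∈ E2 ↔ (∃ q ∈ E, (Sum.inl q.1, Sum.inl q.2) = p) ∨
      ∃ t : Fin m × Fin b, (Sum.inr (t.1, ι t.2), Sum.inl (η t)) = p := by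
    intro p
    rw [hE2, mem_union, mem_image, mem_image]
    simp only [mem_univ, true_and]
  obtain ⟨I1, z0, z1, emb1, τ1, l1, Λ1, hlen, hI1, hsol, hsol2, hz0, hz1, hτ, hΛ⟩ :=
    exists_lift3 (instGraph G η ι) E2
      (by
        intro p hp
        rcases (hE2m p).1 hp with ⟨q, hq, rfl⟩ | ⟨⟨j, l⟩, rfl⟩
        · exact Or.inl ⟨_, _, rfl, rfl, hE q hq⟩
        · exact Or.inr (Or.inr ⟨j, l, rfl, rfl⟩))
      (by
        rintro u v (⟨x, y, rfl, rfl, h⟩ | ⟨j, l, rfl, rfl⟩ | ⟨j, l, rfl, rfl⟩)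
        · rcases hEG x y h with h | h
          · exact Or.inl ((hE2m _).2 (Or.inl ⟨_, h, rfl⟩))
          · exact Or.inr ((hE2m _).2 (Or.inl ⟨_, h, rfl⟩))
        · exact Or.inr ((hE2m _).2 (Or.inr ⟨(j, l), rfl⟩))
        · exact Or.inl ((hE2m _).2 (Or.inr ⟨(j, l), rfl⟩)))
      (Sum.elim col (fun _ => true))
      (by
        intro p hp
        rcases (hE2m p).1 hp with ⟨q, hq, rfl⟩ | ⟨⟨j, l⟩, rfl⟩
        · exact hcol q hq
        · exact ⟨rfl, hηc (j, l)⟩)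
      hR N (by
        rw [Fintype.card_sum, Fintype.card_prod, Fintype.card_fin, Fintype.card_fin]
        have := Nat.mul_le_mul_left r hE2c
        omega)
  -- the constraints of the blocks
  set I2 : List (Constraint N) := (List.finRange m).flatMap fun j =>
    I0.map fun c => ⟨c.arity, c.rel, fun a => emb1 (Sum.inr (j, c.scope a))⟩ with hI2
  have hI2s : ∀ y : Fin N → ZMod 2, y ∈ Sol I2 ↔
      ∀ j, (fun i => y (emb1 (Sum.inr (j, i)))) ∈ Sol I0 := by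
    intro y
    constructor
    · intro h j c hc
      exact h ⟨c.arity, c.rel, fun a => emb1 (Sum.inr (j, c.scope a))⟩ (by
        rw [hI2, List.mem_flatMap]
        exact ⟨j, List.mem_finRange j, List.mem_map.mpr ⟨c, hc, rfl⟩⟩)
    · intro h c hc
      rw [hI2, List.mem_flatMap] at hc
      obtain ⟨j, -, hc⟩ := hc
      obtain ⟨c0, hc0, rfl⟩ := List.mem_map.mp hc
      exact h j c0 hc0
  -- the affine substitution
  let T : Fin m → Fin k → ZMod 2 := fun j i => τ1 (Sum.inr (j, i))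
  let c0 : (V0 ⊕ (Fin m × Fin k)) → ZMod 2 := Sum.elim (fun _ => 0)
    (fun t => a t.2 + M (fun l => T t.1 (ι l)) t.2 + T t.1 t.2)
  let A : (Vx V0 m b → ZMod 2) →ₗ[ZMod 2] ((V0 ⊕ (Fin m × Fin k)) → ZMod 2) :=
    LinearMap.pi (fun u => match u with
      | Sum.inl w => LinearMap.proj (Sum.inl w)
      | Sum.inr t => (LinearMap.proj t.2) ∘ₗ M ∘ₗ
          (LinearMap.pi fun l => LinearMap.proj (Sum.inr (t.1, l))))
  have hA1 : ∀ x w, A x (Sum.inl w) = x (Sum.inl w) := fun x w => rfl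
  have hA2 : ∀ x j i, A x (Sum.inr (j, i)) = M (blk j x) i := fun x j i => rfl
  have hc0 : ∀ j i, c0 (Sum.inr (j, i)) = a i + M (fun l => T j (ι l)) i + T j i :=
    fun j i => rfl
  have hc1 : ∀ w, c0 (Sum.inl w) = 0 := fun w => rfl
  let S0 : Fin m → Set (Fin b → ZMod 2) := fun j =>
    {u | ∃ s ∈ Sol I0, u = fun l => s (ι l) + T j (ι l)}
  -- the value of the block variables
  have hval : ∀ x j i, (l1 + Λ1 c0 + Λ1 (A x)) (emb1 (Sum.inr (j, i))) =
      T j i + (c0 (Sum.inr (j, i)) + A x (Sum.inr (j, i))) := by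
    intro x j i
    rw [Pi.add_apply, Pi.add_apply, hτ, (hΛ c0).2.2, (hΛ (A x)).2.2, add_assoc]
  have hMlin : ∀ u v : Fin b → ZMod 2, ∀ i, M (fun l => u l + v l) i = M u i + M v i := by
    intro u v i
    have h1 : (fun l => u l + v l) = u + v := rfl
    rw [h1, map_add]
    rfl
  have hblk : ∀ s ∈ Sol I0, ∀ j, ∀ x : Vx V0 m b → ZMod 2,
      blk j x = (fun l => s (ι l) + T j (ι l)) → ∀ i,
      c0 (Sum.inr (j, i)) + A x (Sum.inr (j, i)) = s i + T j i := by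
    intro s hs' j x hx i
    rw [hc0, hA2, hx, hMlin]
    have h1 := congrFun (hs s hs') i
    rw [Pi.add_apply] at h1
    have h2 := inst_add_self (M (fun l => T j (ι l)) i)
    linear_combination h2 - h1
  have hkey : ∀ s ∈ Sol I0, ∀ j, ∀ x : Vx V0 m b → ZMod 2,
      blk j x = (fun l => s (ι l) + T j (ι l)) →
      (fun i => (l1 + Λ1 c0 + Λ1 (A x)) (emb1 (Sum.inr (j, i)))) = s := by
    intro s hs' j x hx
    funext i
    rw [hval, hblk s hs' j x hx i]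
    have h2 := inst_add_self (T j i)
    linear_combination h2
  have hinj : Function.Injective emb1 := by
    intro u v huv
    by_contra hne'
    have h1 := (hΛ (Pi.single u 1)).2.2 u
    have h2 := (hΛ (Pi.single u 1)).2.2 v
    rw [huv, h2, Pi.single_eq_same, Pi.single_eq_of_ne (fun h => hne' h.symm)] at h1
    exact zero_ne_one h1
  refine ⟨I1 ++ I2, z0, z1, Sum.elim (fun w => emb1 (Sum.inl w))
    (fun t => emb1 (Sum.inr (t.1, ι t.2))), fun j i => emb1 (Sum.inr (j, i)),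
    fun u => (l1 + Λ1 c0) (Sum.elim (fun w => emb1 (Sum.inl w))
      (fun t => emb1 (Sum.inr (t.1, ι t.2))) u), l1 + Λ1 c0, Λ1 ∘ₗ A, S0,
    ?_, ?_, ?_, ?_, ?_, ?_, ?_, ?_, ?_, ?_, ?_, ?_, ?_⟩
  · intro c hc
    rcases List.mem_append.mp hc with hc | hc
    · obtain ⟨h1, h2⟩ := hI1 c hc
      obtain ⟨ar, rel, sc⟩ := c
      simp only at h1 h2
      subst h1
      rw [eq_of_heq h2]
      exact hRΓ
    · rw [hI2, List.mem_flatMap] at hc
      obtain ⟨l, -, hc⟩ := hc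
      obtain ⟨c0, hc0, rfl⟩ := List.mem_map.mp hc
      exact hI0 c0 hc0
  · rw [List.length_append, hI2, List.length_flatMap]
    have : ((List.finRange m).map fun j => (I0.map fun c =>
        (⟨c.arity, c.rel, fun a => emb1 (Sum.inr (j, c.scope a))⟩ : Constraint N)).length).sum =
        m * I0.length := by
      simp
    rw [this]
    omega
  · intro j
    obtain ⟨s, hs'⟩ := hne
    exact ⟨_, s, hs', rfl⟩
  · intro j
    exact inst_spans (Sol I0) ι (T j) hsp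
  · intro y hy hy0 hy1
    obtain ⟨x2, hx2, rfl⟩ := hsol y (fun c hc => hy c (List.mem_append_left _ hc)) hy0 hy1
    have hy2 := (hI2s _).1 (fun c hc => hy c (List.mem_append_right _ hc))
    have hv2 : ∀ j, (fun i => (l1 + Λ1 x2) (emb1 (Sum.inr (j, i)))) =
        fun i => T j i + x2 (Sum.inr (j, i)) := by
      intro j
      funext i
      rw [Pi.add_apply, hτ, (hΛ x2).2.2]
    have hx2b : ∀ j i, x2 (Sum.inr (j, i)) = c0 (Sum.inr (j, i)) +
        M (fun l => x2 (Sum.inr (j, ι l))) i := by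
      intro j i
      have h0 := hy2 j
      rw [hv2 j] at h0
      have h2 : T j i + x2 (Sum.inr (j, i)) =
          a i + M (fun l => T j (ι l) + x2 (Sum.inr (j, ι l))) i := congrFun (hs _ h0) i
      rw [hMlin (fun l => T j (ι l)) (fun l => x2 (Sum.inr (j, ι l)))] at h2
      rw [hc0]
      have h3 := inst_add_self (T j i)
      linear_combination h2 - h3
    let x : Vx V0 m b → ZMod 2 := Sum.elim (fun w => x2 (Sum.inl w))
      (fun t => x2 (Sum.inr (t.1, ι t.2)))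
    have hxx : x2 = c0 + A x := by
      funext u
      rcases u with w | ⟨j, i⟩
      · rw [Pi.add_apply, hc1, hA1, zero_add]
        rfl
      · rw [Pi.add_apply, hA2, hx2b]
        rfl
    refine ⟨x, ⟨?_, ?_⟩, ?_⟩
    · rintro u v (⟨d, e, rfl, rfl, h⟩ | ⟨⟨j, l⟩, rfl, rfl⟩ | ⟨⟨j, l⟩, rfl, rfl⟩)
      · exact hx2 _ _ (Or.inl ⟨d, e, rfl, rfl, h⟩)
      · exact hx2 _ _ (Or.inr (Or.inl ⟨j, l, rfl, rfl⟩))
      · exact hx2 _ _ (Or.inr (Or.inr ⟨j, l, rfl, rfl⟩))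
    · intro j
      refine ⟨_, hy2 j, ?_⟩
      funext l
      have h1 : (l1 + Λ1 x2) (emb1 (Sum.inr (j, ι l))) = T j (ι l) + x2 (Sum.inr (j, ι l)) :=
        congrFun (hv2 j) (ι l)
      rw [h1]
      have h3 := inst_add_self (T j (ι l))
      have h4 : blk j x l = x2 (Sum.inr (j, ι l)) := rfl
      rw [h4]
      linear_combination -h3
    · rw [LinearMap.comp_apply, add_assoc, ← map_add, ← hxx]
  · rintro x ⟨hx, hxb⟩
    have e1 : l1 + Λ1 c0 + (Λ1 ∘ₗ A) x = l1 + Λ1 (c0 + A x) := by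
      rw [LinearMap.comp_apply, map_add, add_assoc]
    have e2 : l1 + Λ1 c0 + (Λ1 ∘ₗ A) x = l1 + Λ1 c0 + Λ1 (A x) := rfl
    have hVC : c0 + A x ∈ VC (instGraph G η ι) := by
      have hpv : ∀ j l, (c0 + A x) (Sum.inr (j, ι l)) = x (Sum.inr (j, l)) := by
        intro j l
        obtain ⟨s, hs', hs2⟩ := hxb j
        rw [Pi.add_apply, hblk s hs' j x hs2 (ι l)]
        exact (congrFun hs2 l).symm
      have hlv : ∀ w, (c0 + A x) (Sum.inl w) = x (Sum.inl w) := by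
        intro w
        rw [Pi.add_apply, hc1, hA1, zero_add]
      rintro u v (⟨d, e, rfl, rfl, h⟩ | ⟨j, l, rfl, rfl⟩ | ⟨j, l, rfl, rfl⟩)
      · rw [hlv, hlv]
        exact hx _ _ (Or.inl ⟨d, e, rfl, rfl, h⟩)
      · rw [hlv, hpv]
        exact hx _ _ (Or.inr (Or.inl ⟨(j, l), rfl, rfl⟩))
      · rw [hlv, hpv]
        exact hx _ _ (Or.inr (Or.inr ⟨(j, l), rfl, rfl⟩))
    intro c hc
    rcases List.mem_append.mp hc with hc | hc
    · rw [e1]
      exact hsol2 _ hVC c hc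
    · refine (hI2s _).2 ?_ c hc
      intro j
      obtain ⟨s, hs', hs2⟩ := hxb j
      rw [e2, hkey s hs' j x hs2]
      exact hs'
  · rw [Pi.add_apply, hz0, (hΛ c0).1, add_zero]
  · rw [Pi.add_apply, hz1, (hΛ c0).2.1, add_zero]
  · intro u
    rfl
  · intro x
    refine ⟨(hΛ (A x)).1, (hΛ (A x)).2.1, ?_⟩
    rintro (w | ⟨j, l⟩)
    · exact (hΛ (A x)).2.2 (Sum.inl w)
    · refine ((hΛ (A x)).2.2 (Sum.inr (j, ι l))).trans ?_
      rw [hA2, hM]
      rfl
  · intro j i i' h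
    exact (Prod.ext_iff.1 (Sum.inr_injective (hinj h))).2
  · rintro j x ⟨hx, hxb⟩
    obtain ⟨s, hs', hs2⟩ := hxb j
    have e2 : l1 + Λ1 c0 + (Λ1 ∘ₗ A) x = l1 + Λ1 c0 + Λ1 (A x) := rfl
    rw [e2, hkey s hs' j x hs2]
    exact hs'
  · intro j s hs'
    refine ⟨_, ⟨s, hs', rfl⟩, ?_⟩
    intro x hx
    exact hkey s hs' j x hx

end Pool.Agent.UniD
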