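import Pool.Agent.UniD.Bound
import Pool.Agent.UniD.ExpPend
import Pool.Agent.UniD.Inst
import Pool.Agent.UniD.Num
import Pool.Agent.UniD.Expander

/-!
The unified lower bound.
-/

namespace Pool.Agent.UniD

open Finset Module Pool.Agent.Dichotomy Pool.Agent.RelD

theorem rho_pos (D : ℕ) : (0 : ℝ) < 2 ^ D / (2 ^ D + 1) := by positivity

theorem rho_lt (D : ℕ) : (2 : ℝ) ^ D / (2 ^ D + 1) < 1 := by
  rw [div_lt_one (by positivity)]; linarith

/-- **Lower bound.**  If some relation of `Γ` is not affine and some instance over `Γ` has a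
solution set outside the class, then some instances over `Γ` of linear size need exponentially
many gates. -/
theorem hard {L : RelClass} (hL : Minor L) {Γ : Language} {k0 : ℕ} (I00 : List (Constraint k0))
    (hI00 : Over Γ I00) (hS00 : Sol I00 ∉ L k0) {r : ℕ} {R : Set (Fin r → ZMod 2)}
    (hRΓ : (⟨r, R⟩ : Σ r : ℕ, Set (Fin r → ZMod 2)) ∈ Γ) (hR : ¬ IsAffine R) :
    ∃ c : ℝ, 0 < c ∧ ∃ C : ℕ, ∀ n : ℕ, ∃ I : List (Constraint n),
      Over Γ I ∧ I.length ≤ C * n ∧
      ∀ (g : Type) (_ : Fintype g) (rk : g → ℕ) (W : ℕ) (M : g → Set (Fin n → ZMod 2)),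
        IsProgL (ULeaf L W) rk M → (∃ v, M v = Sol I) →
          (2 : ℝ) ^ (c * n) ≤ 2 * (Fintype.card g + W) := by
  classical
  obtain ⟨k, I0, hk, hI0, hne0, hS1⟩ := exists_nonempty_inst hL I00 hI00 hS00
  obtain ⟨b, hbk, hinst⟩ := exists_lift_blocks I0 hI0 hne0 hRΓ hR
  -- the constants
  obtain ⟨DD, hDD⟩ : ∃ DD : ℕ, DD = 12768 := ⟨_, rfl⟩
  obtain ⟨D, hDd⟩ : ∃ D, D = 96 * DD := ⟨_, rfl⟩
  obtain ⟨ρ, hρ⟩ : ∃ ρ : ℝ, ρ = (2 : ℝ) ^ (D + 2 * b + 2) / (2 ^ (D + 2 * b + 2) + 1) := ⟨_, rfl⟩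
  obtain ⟨ρ2, hρ2⟩ : ∃ ρ2 : ℝ, ρ2 = (2 : ℝ) ^ (2 * (D + 1 + 2 * b + 1)) /
    (2 ^ (2 * (D + 1 + 2 * b + 1)) + 1) := ⟨_, rfl⟩
  obtain ⟨ρL, hρL⟩ : ∃ ρL : ℝ, ρL = (2 : ℝ) ^ (2 * b) / (2 ^ (2 * b) + 1) := ⟨_, rfl⟩
  have hρ0 : 0 < ρ := by rw [hρ]; exact rho_pos _
  have hρ1 : ρ < 1 := by rw [hρ]; exact rho_lt _
  have hρ20 : 0 < ρ2 := by rw [hρ2]; exact rho_pos _
  have hρ21 : ρ2 < 1 := by rw [hρ2]; exact rho_lt _
  have hρL0 : 0 < ρL := by rw [hρL]; exact rho_pos _
  have hρL1 : ρL < 1 := by rw [hρL]; exact rho_lt _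
  obtain ⟨B, hB⟩ : ∃ B, B = 3 + r * (DD + 1) := ⟨_, rfl⟩
  have hBpos : 0 < B := by omega
  obtain ⟨kk, q0, c, hc, hnum⟩ := numeric5 ρ ρ2 ρL hρ0 hρ1 hρ20 hρ21 hρL0 hρL1
    (1100 * (D + 2 * b + 2)) (2 * (D + 1 + 2 * b + 1) ^ 2) (50 * B) (2 * k) 12
    (by positivity) (by positivity) (by positivity) (by omega) (by norm_num)
  refine ⟨c, hc, DD + 2 + I0.length, ?_⟩
  intro n
  obtain ⟨m, hm⟩ : ∃ m, m = (n - 2) / B := ⟨_, rfl⟩
  rcases Nat.lt_or_ge m 48 with hm48 | hm48
  · refine ⟨[], ?_, by simp, ?_⟩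
    · intro c hc; simp at hc
    intro g _ rk W M hM ⟨v, hv⟩
    have hs1 : (1 : ℝ) ≤ Fintype.card g := by exact_mod_cast Fintype.card_pos_iff.2 ⟨v⟩
    have hW0 : (0 : ℝ) ≤ W := Nat.cast_nonneg _
    have hn : n ≤ 50 * B * (0 + 1) := by
      have h1 : n - 2 < B * (m + 1) := by rw [hm]; exact Nat.lt_mul_div_succ _ hBpos
      have h2 : B * (m + 1) ≤ B * 48 := Nat.mul_le_mul_left _ (by omega)
      have h3 : 2 ≤ B := by omega
      omega
    refine hnum n 0 hn 0 0 (by omega) (by omega) 1 _ _ (by norm_num) hs1 hW0 ?_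
    intro δ hδ0 hδL hδ
    simp only [Nat.zero_div, pow_zero, mul_one, one_mul, one_pow]
    have : (0 : ℝ) ≤ (4 * (Fintype.card g : ℝ)) ^ 3 := by positivity
    nlinarith [mul_nonneg (by linarith : (0:ℝ) ≤ Fintype.card g) hδ0]
  · obtain ⟨V, _, _, G, E, col, hE, hEG, hcol, hEc, hdeg, hExp, hV2, hV1, hVr, hVl⟩ :=
      exists_expander2 hDD m hm48
    obtain ⟨mb, hmb⟩ : ∃ mb, mb = m / (2 * k) := ⟨_, rfl⟩
    have hmbk : 2 * (mb * k) ≤ m := by
      rw [hmb]
      calc 2 * (m / (2 * k) * k) = 2 * k * (m / (2 * k)) := by ring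
        _ ≤ m := Nat.mul_div_le _ _
    have hmbb : mb * b ≤ mb * k := Nat.mul_le_mul_left _ hbk
    -- the hubs
    obtain ⟨η, hη, hηc⟩ : ∃ η : Fin mb × Fin b → V, Function.Injective η ∧
        ∀ p, col (η p) = false := by
      have h1 : Fintype.card (Fin mb × Fin b) ≤ Fintype.card {v : V // col v = false} := by
        rw [Fintype.card_prod, Fintype.card_fin, Fintype.card_fin, Fintype.card_subtype]
        omega
      obtain ⟨f⟩ := Function.Embedding.nonempty_of_card_le h1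
      exact ⟨fun p => (f p).1, fun p q h => f.injective (Subtype.ext h), fun p => (f p).2⟩
    have hcol' : ∀ u v, G.Adj u v → col u ≠ col v := by
      intro u v huv
      rcases hEG u v huv with h | h
      · obtain ⟨h1, h2⟩ := hcol _ h
        simp only at h1 h2
        rw [h1, h2]; decide
      · obtain ⟨h1, h2⟩ := hcol _ h
        simp only at h1 h2
        rw [h1, h2]; decide
    have hcardx : Fintype.card (Vx V mb b) = Fintype.card V + mb * b := by
      rw [Fintype.card_sum, Fintype.card_prod, Fintype.card_fin, Fintype.card_fin]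
    have hExp' : ExpK 11 (Pend G η) := expK_pend G hExp η hη (by omega)
    have hmB : m * B + 2 ≤ n := by
      have h1 : m * B ≤ n - 2 := by rw [hm]; exact Nat.div_mul_le_self _ _
      have h2 : 0 < m * B := by positivity
      omega
    obtain ⟨I, z0, z1, emb, emb2, τ, l0, Λ, S0, hover, hlen, hne, hS0, hI1, hI2, hl0, hl1, hle, hΛ,
      hinj, h1, h2⟩ := hinst V inferInstance inferInstance G E hE hEG col hcol mb η hηc n (by
        have h3 : r * (E.card + mb * b) ≤ r * (DD * m + m) :=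
          Nat.mul_le_mul_left _ (by omega)
        calc Fintype.card V + mb * k + 2 + r * (E.card + mb * b)
            ≤ 3 * m + 2 + r * (DD * m + m) := by omega
          _ = m * B + 2 := by rw [hB]; ring
          _ ≤ n := hmB)
    refine ⟨I, hover, ?_, ?_⟩
    · refine hlen.trans ?_
      have h3 : m ≤ m * B := Nat.le_mul_of_pos_right _ hBpos
      have h4 : E.card ≤ DD * n := hEc.trans (Nat.mul_le_mul_left _ (by omega))
      have h5 : mb ≤ n := by nlinarith
      have h6 : mb * I0.length ≤ I0.length * n := by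
        rw [mul_comm]; exact Nat.mul_le_mul_left _ h5
      have h7 : mb * b ≤ n := by omega
      calc E.card + mb * b + n + mb * I0.length ≤ DD * n + n + n + I0.length * n := by omega
        _ = (DD + 2 + I0.length) * n := by ring
    · intro g _ rk W M hM ⟨v, hv⟩
      have hs1 : (1 : ℝ) ≤ Fintype.card g := by exact_mod_cast Fintype.card_pos_iff.2 ⟨v⟩
      have hW0 : (0 : ℝ) ≤ W := Nat.cast_nonneg _
      have hn : n ≤ 50 * B * (m + 1) := by
        have h1 : n - 2 < B * (m + 1) := by rw [hm]; exact Nat.lt_mul_div_succ _ hBpos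
        have h3 : 2 ≤ B := by omega
        have h4 : 50 * B * (m + 1) = 50 * (B * (m + 1)) := by ring
        have h5 : 2 ≤ B * (m + 1) := by nlinarith
        omega
      refine hnum n m hn (Fintype.card (Vx V mb b)) _ (by omega) hVl _ _ _
        (tgt_card G col hcol' η hηc S0 hne) hs1 hW0 ?_
      intro δ hδ0 hδL hδ
      have ht : m / (1100 * (D + 2 * b + 2)) ≤ (m / 1100 + 1) / (D + 2 * b + 2) := by
        rw [← Nat.div_div_eq_div_mul]
        exact Nat.div_le_div_right (by omega)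
      have hmV : m ≤ Fintype.card (Vx V mb b) := by omega
      have hb := main_boundU hL G (by rw [hDd]; exact hdeg) col hcol' η hη hηc S0 hne hS0 hExp'
        (by omega) (Sol I0) hS1 hI1 hI2 hl0 hl1 hle hΛ hinj h1 h2 (m / q0) (m / 1100) kk
        (m / (1100 * (D + 2 * b + 2))) ((Nat.mul_div_le _ _).trans hmV) ht hM hv δ hδ0
        (by rw [← hρL, hmb]; exact hδL) (by rw [← hρ]; exact hδ)
      rw [← hρ2] at hb
      exact hb

end Pool.Agent.UniD
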