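import Pool.Agent.UniD.Model
import Pool.Agent.UniD.Main
import Pool.Agent.UniD.Bip
import Pool.Agent.RelD.Delta
import Pool.Agent.Helper91.Dich.Leaf4

/-!
The universal dichotomy in terms of the definitions of `Model.lean`.
-/

namespace Pool.Agent.UniD.Model

open Pool.Agent.Dichotomy

theorem Net.toNet {K : Type} [Field K] {n w : ℕ} {S : Finset (Fin n)}
    {U : Submodule K ((Fin n → ZMod 2) → K)} (h : Net K w S U) :
    Pool.Agent.Dichotomy.Net K w S U := by
  induction h with
  | leaf i U hw h => exact Pool.Agent.Dichotomy.Net.leaf i U hw h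
  | node S S' U A B hS _ _ hw h ihA ihB =>
    exact Pool.Agent.Dichotomy.Net.node S S' U A B hS ihA ihB hw h

theorem toModelNet {K : Type} [Field K] {n w : ℕ} {S : Finset (Fin n)}
    {U : Submodule K ((Fin n → ZMod 2) → K)} (h : Pool.Agent.Dichotomy.Net K w S U) :
    Net K w S U := by
  induction h with
  | leaf i U hw h => exact Net.leaf i U hw h
  | node S S' U A B hS _ _ hw h ihA ihB => exact Net.node S S' U A B hS ihA ihB hw h

theorem netLeaf_iff {n W : ℕ} {S : Set (Fin n → ZMod 2)} :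
    NetLeaf W S ↔ Pool.Agent.Dichotomy.NetLeaf W S := by
  constructor
  · rintro ⟨K, _, f, e, U, hf, hU, hfU⟩
    exact ⟨K, inferInstance, f, e, U, hf, hU.toNet, hfU⟩
  · rintro ⟨K, _, f, e, U, hf, hU, hfU⟩
    exact ⟨K, inferInstance, f, e, U, hf, toModelNet hU, hfU⟩

theorem universal :
    (∀ L : RelClass, MinorClosed L → ∀ Γ : Language,
      ((∀ R ∈ Γ, Affine R.2) →
        ∀ (n : ℕ), 0 < n → ∀ I : List (Constraint n), Over Γ I → NetLeaf 1 (Sol I)) ∧
      ((∃ R ∈ Γ, ¬ Affine R.2) →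
        (Inside L Γ ∨ Hard L Γ) ∧ (MissesBipartite L → Hard L Γ))) ∧
    MinorClosed AffDelta ∧ MissesBipartite AffDelta := by
  refine ⟨fun L hL Γ => ⟨?_, ?_⟩, ⟨RelD.affDelta_closed.flip, RelD.affDelta_closed.fix,
    RelD.affDelta_closed.forget⟩, 3, RelD.DeltaP, ?_, RelD.Delta_VC_not⟩
  · intro h n hn I hI
    rw [netLeaf_iff]
    apply netLeaf_of_affine hn
    intro x hx y hy z hz c hc
    exact h _ (hI c hc) _ (hx c hc) _ (hy c hc) _ (hz c hc)
  · rintro ⟨⟨r, R⟩, hR, hna⟩
    have hL' : Minor L := ⟨hL.flip, hL.fix, hL.forget⟩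
    have h1 : Inside L Γ ∨ Hard L Γ := by
      by_cases h : Inside L Γ
      · exact Or.inl h
      · right
        unfold Inside at h
        push Not at h
        obtain ⟨k, I0, hI0, hS⟩ := h
        obtain ⟨c, hc, C, h⟩ := hard hL' I0 hI0 hS hR hna
        refine ⟨c, hc, C, fun n => ?_⟩
        obtain ⟨I, hI, hlen, hprog⟩ := h n
        refine ⟨I, hI, hlen, fun g hg rk W M hM hv => hprog g hg rk W M ?_ hv⟩
        intro v
        rcases hM v with h | h | h
        · exact Or.inl (Or.inl (netLeaf_iff.1 h))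
        · exact Or.inl (Or.inr h)
        · exact Or.inr h
    refine ⟨h1, ?_⟩
    rintro ⟨k, H, hcol, hH⟩
    rcases h1 with h | h
    · exfalso
      obtain ⟨n, I, hI, hS⟩ := exists_not_mem hL' H hcol hH hna
      refine hS (h n I ?_)
      intro c hc
      obtain ⟨h2, h3⟩ := hI c hc
      obtain ⟨r', R', sc⟩ := c
      simp only at h2 h3
      subst h2
      rw [eq_of_heq h3]
      exact hR
    · exact h
  · refine ⟨SimpleGraph.Coloring.mk (fun u => if u = 1 then 1 else 0) ?_⟩
    rintro u v (⟨rfl, hv⟩ | ⟨hu, rfl⟩)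
    · simp [hv]
    · simp [hu]

end Pool.Agent.UniD.Model
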