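import Pool.Agent.RelD.Defs
import Pool.Agent.Helper91.Dich.Expander3
import Pool.Agent.Helper91.Dich.Path3

/-!
Unified dichotomy: classes of relations that need not contain the affine relations, and the target
set for the lower bound.
-/

namespace Pool.Agent.UniD

open Finset Module Pool.Agent.Dichotomy Pool.Agent.RelD

/-- The class is closed under flipping, fixing and forgetting (and renaming) variables. -/
structure Minor (L : RelClass) : Prop where
  flip : ∀ (n : ℕ) (S : Set (Fin n → ZMod 2)) (c : Fin n → ZMod 2), S ∈ L n →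
    {x | x + c ∈ S} ∈ L n
  fix : ∀ (n : ℕ) (S : Set (Fin n → ZMod 2)) (i : Fin n) (a : ZMod 2), S ∈ L n →
    {x | x ∈ S ∧ x i = a} ∈ L n
  forget : ∀ (n k : ℕ) (S : Set (Fin n → ZMod 2)) (f : Fin k → Fin n), Function.Injective f →
    S ∈ L n → {x | ∃ y ∈ S, x = fun i => y (f i)} ∈ L k

section

variable {V : Type*} [Fintype V] [DecidableEq V]

/-- Vertex expansion at all scales. -/
def ExpK (κ : ℕ) (G : SimpleGraph V) : Prop :=
  ∀ S : Finset V, 2 * S.card ≤ Fintype.card V → S.card ≤ κ * (bd G S).card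

/-- `T` admits local changes in the direction `δ` everywhere: every element of `T` can be changed
on at most `r` coordinates to an element `y` of `T` for which `y + δ` belongs to `T`, too. -/
def Move (T : Set (V → ZMod 2)) (r : ℕ) (δ : V → ZMod 2) : Prop :=
  ∃ R : Finset V, R.card ≤ r ∧ (∀ v, v ∉ R → δ v = 0) ∧
    ∀ x ∈ T, ∃ y ∈ T, (∀ v, v ∉ R → y v = x v) ∧ y + δ ∈ T

end

/-- The differences of the elements of `S` span the space. -/
def Spans {V : Type*} (S : Set (V → ZMod 2)) : Prop :=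
  Submodule.span (ZMod 2) {d | ∃ s ∈ S, ∃ s' ∈ S, d = s + s'} = ⊤

section target

variable {V0 : Type*} {m b : ℕ}

/-- The vertices: those of the base graph, and the variables of `m` blocks of `b` variables. -/
abbrev Vx (V0 : Type*) (m b : ℕ) := V0 ⊕ (Fin m × Fin b)

/-- The base graph with a pendant vertex `p` at the hub `η p` for every `p = (j, l)`. -/
def Pend (G : SimpleGraph V0) (η : Fin m × Fin b → V0) : SimpleGraph (Vx V0 m b) where
  Adj u v := (∃ x y, u = Sum.inl x ∧ v = Sum.inl y ∧ G.Adj x y) ∨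
    (∃ p, u = Sum.inl (η p) ∧ v = Sum.inr p) ∨ (∃ p, v = Sum.inl (η p) ∧ u = Sum.inr p)
  symm := ⟨by
    rintro u v (⟨x, y, rfl, rfl, h⟩ | ⟨p, rfl, rfl⟩ | ⟨p, rfl, rfl⟩)
    · exact Or.inl ⟨y, x, rfl, rfl, h.symm⟩
    · exact Or.inr (Or.inr ⟨p, rfl, rfl⟩)
    · exact Or.inr (Or.inl ⟨p, rfl, rfl⟩)⟩
  loopless := ⟨by
    rintro u (⟨x, y, rfl, h, h'⟩ | ⟨p, rfl, h⟩ | ⟨p, rfl, h⟩)
    · cases h
      exact G.loopless.irrefl _ h'
    · cases h
    · cases h⟩

/-- The vertex `u` belongs to the block `j`: it is one of its variables or one of its hubs. -/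
def InBlk (η : Fin m × Fin b → V0) (j : Fin m) (u : Vx V0 m b) : Prop :=
  ∃ l, u = Sum.inr (j, l) ∨ u = Sum.inl (η (j, l))

/-- The same graph with all blocks made complete. -/
def PendB (G : SimpleGraph V0) (η : Fin m × Fin b → V0) : SimpleGraph (Vx V0 m b) where
  Adj u v := u ≠ v ∧ ((Pend G η).Adj u v ∨ ∃ j, InBlk η j u ∧ InBlk η j v)
  symm := ⟨fun _ _ h => ⟨h.1.symm, h.2.imp (fun h => h.symm) (fun ⟨j, h1, h2⟩ => ⟨j, h2, h1⟩)⟩⟩
  loopless := ⟨fun _ h => h.1 rfl⟩

/-- The values of the variables of the block `j`. -/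
def blk (j : Fin m) (x : Vx V0 m b → ZMod 2) : Fin b → ZMod 2 := fun l => x (Sum.inr (j, l))

/-- The target: all or constraints hold and every block `j` satisfies the relation `S0 j`. -/
def Tgt (G : SimpleGraph V0) (η : Fin m × Fin b → V0) (S0 : Fin m → Set (Fin b → ZMod 2)) :
    Set (Vx V0 m b → ZMod 2) :=
  {x | x ∈ VC (Pend G η) ∧ ∀ j, blk j x ∈ S0 j}

end target

end Pool.Agent.UniD
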