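import Pool.Agent.Helper91.Dich.Defs
import Mathlib.Combinatorics.SimpleGraph.Coloring.Vertex

/-!
The definitions for the universal dichotomy.  `Constraint`, `Sol`, `Language`, `Over` and `VC` are
in `Pool/Agent/Helper91/Dich/Defs.lean`.  Assignments of `n` variables are the elements of
`Fin n → ZMod 2`; a Boolean relation is a set of assignments.
-/

namespace Pool.Agent.UniD.Model

open Module Pool.Agent.Dichotomy

/-- A class of Boolean relations: for every `n` a family of sets of assignments of `n`
variables. -/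
abbrev RelClass := ∀ n : ℕ, Set (Set (Fin n → ZMod 2))

/-- The class is closed under flipping, fixing, and forgetting or renaming variables. -/
structure MinorClosed (L : RelClass) : Prop where
  flip : ∀ (n : ℕ) (S : Set (Fin n → ZMod 2)) (c : Fin n → ZMod 2), S ∈ L n →
    {x | x + c ∈ S} ∈ L n
  fix : ∀ (n : ℕ) (S : Set (Fin n → ZMod 2)) (i : Fin n) (a : ZMod 2), S ∈ L n →
    {x | x ∈ S ∧ x i = a} ∈ L n
  forget : ∀ (n k : ℕ) (S : Set (Fin n → ZMod 2)) (f : Fin k → Fin n), Function.Injective f →
    S ∈ L n → {x | ∃ y ∈ S, x = fun i => y (f i)} ∈ L k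

/-- Affine relations (or empty ones). -/
def Affine {n : ℕ} (S : Set (Fin n → ZMod 2)) : Prop :=
  ∀ x ∈ S, ∀ y ∈ S, ∀ z ∈ S, x + y + z ∈ S

/-- `Net K w S U`: the space `U` of functions `F_2^n → K` is the top space of a tree network of
width `w` whose leaves are the variables in `S`.  Every node of the tree carries a space of at
most `w` dimensions; at a leaf the functions depend only on the variable of the leaf; at an inner
node they are linear combinations of products `a * b`, with `a` and `b` in the spaces of the two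
children, whose sets of variables are disjoint. -/
inductive Net (K : Type) [Field K] {n : ℕ} (w : ℕ) :
    Finset (Fin n) → Submodule K ((Fin n → ZMod 2) → K) → Prop
  | leaf (i : Fin n) (U : Submodule K ((Fin n → ZMod 2) → K)) (hw : finrank K U ≤ w)
      (h : ∀ f ∈ U, ∀ x y : Fin n → ZMod 2, x i = y i → f x = f y) : Net K w {i} U
  | node (S S' : Finset (Fin n)) (U A B : Submodule K ((Fin n → ZMod 2) → K))
      (hS : Disjoint S S') (hA : Net K w S A) (hB : Net K w S' B) (hw : finrank K U ≤ w)
      (h : U ≤ Submodule.span K {f | ∃ a ∈ A, ∃ b ∈ B, f = a * b}) : Net K w (S ∪ S') U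

/-- A network leaf of width `W`: the support of a function that has a tree network of width `W`
over some field in some linear basis of `F_2^n`. -/
def NetLeaf {n : ℕ} (W : ℕ) (S : Set (Fin n → ZMod 2)) : Prop :=
  ∃ (K : Type) (_ : Field K) (f : (Fin n → ZMod 2) → K)
    (e : (Fin n → ZMod 2) ≃ₗ[ZMod 2] (Fin n → ZMod 2)) (U : Submodule K ((Fin n → ZMod 2) → K)),
    (∀ x, f x ≠ 0 ↔ x ∈ S) ∧ Net K W Finset.univ U ∧ (fun x => f (e x)) ∈ U

/-- A program of width `W` over the class `L` with the gates `g` and the ranks `rk`: every gate `v`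
carries a set `M v` of assignments, which is a network leaf of width `W`, or a member of the class,
or the union of sets `M a` and of Minkowski sums `M a + M b` with gates `a`, `b` of smaller
rank. -/
def IsProgram (L : RelClass) {n : ℕ} {g : Type} (rk : g → ℕ) (W : ℕ)
    (M : g → Set (Fin n → ZMod 2)) : Prop :=
  ∀ v, NetLeaf W (M v) ∨ M v ∈ L n ∨
    ∃ (Q : Set g) (P : Set (g × g)), (∀ a ∈ Q, rk a < rk v) ∧
      (∀ p ∈ P, rk p.1 < rk v ∧ rk p.2 < rk v) ∧
      ∀ x, x ∈ M v ↔ (∃ a ∈ Q, x ∈ M a) ∨
        ∃ p ∈ P, ∃ y ∈ M p.1, ∃ z ∈ M p.2, x = y + z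

/-- All solution sets of instances over `Γ` belong to the class. -/
def Inside (L : RelClass) (Γ : Language) : Prop :=
  ∀ (n : ℕ) (I : List (Constraint n)), Over Γ I → Sol I ∈ L n

/-- Some instances over `Γ` with `n` variables and `O(n)` constraints need programs over `L` of
exponential size or width. -/
def Hard (L : RelClass) (Γ : Language) : Prop :=
  ∃ c : ℝ, 0 < c ∧ ∃ C : ℕ, ∀ n : ℕ, ∃ I : List (Constraint n), Over Γ I ∧ I.length ≤ C * n ∧
    ∀ (g : Type) (_ : Fintype g) (rk : g → ℕ) (W : ℕ) (M : g → Set (Fin n → ZMod 2)),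
      IsProgram L rk W M → (∃ v, M v = Sol I) → (2 : ℝ) ^ (c * n) ≤ 2 * (Fintype.card g + W)

/-- The class misses the set of vertex covers of some bipartite graph. -/
def MissesBipartite (L : RelClass) : Prop :=
  ∃ (k : ℕ) (H : SimpleGraph (Fin k)), H.Colorable 2 ∧ VC H ∉ L k

/-- The assignment `x` with the variable `i` flipped. -/
def flipAt {n : ℕ} (x : Fin n → ZMod 2) (i : Fin n) : Fin n → ZMod 2 :=
  Function.update x i (x i + 1)

/-- Delta-matroids (Bouchet): for `x, y ∈ S` and `x i ≠ y i` there is `j` with `x j ≠ y j`, such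
that flipping `{i, j}` in `x` gives an element of `S` (`j = i` is allowed: then only `i` is
flipped). -/
def IsDelta {n : ℕ} (S : Set (Fin n → ZMod 2)) : Prop :=
  ∀ x ∈ S, ∀ y ∈ S, ∀ i, x i ≠ y i → ∃ j, x j ≠ y j ∧
    (if j = i then flipAt x i else flipAt (flipAt x i) j) ∈ S

/-- The class of the relations which are affine or delta-matroids. -/
def AffDelta : RelClass := fun _ => {S | Affine S ∨ IsDelta S}

end Pool.Agent.UniD.Model
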