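import Pool.Agent.UniD.Model
import Pool.Agent.UniD.Conv

/-!
# MP_4ed1f9_lc: the border of exact counting for programs with reuse, cancellation and arbitrary
# classes of tables

Creignou and Hermann (1996): for a finite set `Γ` of Boolean relations the counting problem
`#SAT(Γ)` is in FP if all relations of `Γ` are affine, and `#P`-complete otherwise.  Here the same
border is proved unconditionally in a restricted model of computation that has reuse (circuits
over sets of assignments whose gates are arbitrary unions and Minkowski sums over the field with two
elements of earlier gates), cancellation (leaves may be supports of functions computed by tree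
tensor networks of bounded width, over any field and in any linear basis of `F_2^n`) and
arbitrary tables (leaves may be members of an arbitrary class `L` of Boolean relations which is
closed under flipping, fixing and forgetting variables; no tractability of `L` is assumed).

If some relation of `Γ` is not affine, then either `L` contains all solution sets over `Γ`, or some
instances over `Γ` with `n` variables and `O(n)` constraints need programs of size `2 ^ (c n)`.  If
`L` misses the set of vertex covers of a single bipartite graph, the second case always holds.

The definitions are in `Pool/Agent/UniD/Model.lean` and `Pool/Agent/Helper91/Dich/Defs.lean`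
(`Constraint`, `Sol`, `Language`, `Over`, `VC`).
-/

namespace Pool.Agent.Results.MP_4ed1f9_lc.UniversalDichotomy

open Pool.Agent.Dichotomy (Constraint Sol Language Over)
open Pool.Agent.UniD.Model

theorem result :
    (∀ L : RelClass, MinorClosed L → ∀ Γ : Language,
      ((∀ R ∈ Γ, Affine R.2) →
        ∀ (n : ℕ), 0 < n → ∀ I : List (Constraint n), Over Γ I → NetLeaf 1 (Sol I)) ∧
      ((∃ R ∈ Γ, ¬ Affine R.2) →
        (Inside L Γ ∨ Hard L Γ) ∧ (MissesBipartite L → Hard L Γ))) ∧
    MinorClosed AffDelta ∧ MissesBipartite AffDelta :=
  universal

end Pool.Agent.Results.MP_4ed1f9_lc.UniversalDichotomy
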